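import Pool.Agent.Lib.MP_8dbd20_lc.Fi.Spec

/-!
# MP_8dbd20_lc, block Fi, part 2: the final theorem with the clause on well-orders in the sense
of the models (for arbitrary ω-models, not only β-models)
-/

set_option linter.unusedVariables false

namespace B8d

open Pool.Agent.Lib.Z2 (Str IsZ2 IsBeta HasAC HasPi12DC NN)

/-- LS2. Countable elementary submodels (as `S_LS`, with elementarity for all formulas).
PROOF. See `S_LS` in Hi/Spec2.lean. -/
def S_LS2 : Prop := ∀ M, Mod2 M → ∃ M' ⊆ M, M'.Countable ∧ Mod2 M' ∧ (BetaI M → BetaI M') ∧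
  ∀ (φ : F) (v : ℕ → ℕ) (V : ℕ → Set ℕ), (∀ i, V i ∈ M') → (eval M' ∅ φ v V ↔ eval M ∅ φ v V)

/-- `h` is an isomorphism of the orders coded by `R` and `R'` -/
def IsoH (R R' : Set ℕ) (h : ℕ → ℕ) : Prop := (∀ i, Nat.pair i i ∈ R → Nat.pair (h i) (h i) ∈ R') ∧
  (∀ i j, Nat.pair i i ∈ R → Nat.pair j j ∈ R → (Nat.pair i j ∈ R ↔ Nat.pair (h i) (h j) ∈ R')) ∧
  (∀ j, Nat.pair j j ∈ R' → ∃ i, Nat.pair i i ∈ R ∧ h i = j)

/-- Fi12. Well-orders in the sense of `N`.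
PROOF. `KH` by Fi3, `S_LemE` for `K = N`: `R' = sec Z 0 ∈ U` (`S_E5U`), linear by `Local Z`, no
descending sequence in `M` by `HCin M Z`; `fld Z` is its field. -/
def S_Fi12 : Prop := ∀ M U C G, Sit M U C G → ∀ R ∈ NN (SU U C) G, LinO R →
  (∀ f ∈ NN (SU U C) G, ¬ Desc f R) →
  ∃ R' ∈ U, LinO R' ∧ (∀ f ∈ M, ¬ Desc f R') ∧ ∃ h, gr h ∈ NN (SU U C) G ∧ IsoH R R' h

/-- Fi13. THE THEOREM. Every ω-model `M` of `Z_2` has a countable ω-model `N` of
`Z_2 + choice + ¬ Π¹₂-DC` such that every well-order in the sense of `N` is isomorphic, by a map in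
`N`, to a well-order in the sense of `M` which belongs to `M` and to `N`; and `N` is a β-model if
`M` is.
PROOF. As Fi11, with LS2 and Fi12 in place of LS and Fi10: `R'` has no descending sequence in `M'`,
so none in `M` by elementarity for the formula `∃ f, Desc f R'` (L0b, `eval_arith`). `N` is countable
as the image of `U`. -/
def S_Fi13 : Prop :=
  (∀ M U C G, Univ M U C → Pool.Agent.Lib.Z2.Uni (SU U C) Gam →
    Pool.Agent.Lib.Z2.Gen (SU U C) Gam G → Edges U C G) →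
  ∀ M : Set (Set ℕ), M.Nonempty → IsZ2 M → ∃ N : Set (Set ℕ), N.Nonempty ∧ N.Countable ∧ IsZ2 N ∧
    HasAC N ∧ ¬ HasPi12DC N ∧ (IsBeta M → IsBeta N) ∧
    ∀ R ∈ N, LinO R → (∀ f ∈ N, ¬ Desc f R) →
      ∃ R' ∈ M, R' ∈ N ∧ LinO R' ∧ (∀ f ∈ M, ¬ Desc f R') ∧ ∃ h, gr h ∈ N ∧ IsoH R R' h

end B8d
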