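import Pool.Agent.Lib.MP_8dbd20_lc.Ab.Spec
import Pool.Agent.Lib.MP_8dbd20_lc.Fi.Spec2

/-!
# MP_8dbd20_lc: every generic filter over a countable model works (form with the well-orders in the
sense of the models)
-/

set_option linter.unusedVariables false

namespace B8d

open Pool.Agent.Lib.Z2 (Str Dfn DF Fm IsZ2 IsBeta HasAC HasPi12DC Node inn Cond IsI NT NN gen Uni Gen
  sg tr Nm evl triv)

/-- properties of the generic model `N` relative to `M` -/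
def Props2 (M N : Set (Set ℕ)) : Prop := N.Nonempty ∧ IsZ2 N ∧ HasAC N ∧ ¬ HasPi12DC N ∧
  (IsBeta M → IsBeta N) ∧ ∀ R ∈ N, LinO R → (∀ f ∈ N, ¬ Desc f R) →
    ∃ R' ∈ M, R' ∈ N ∧ LinO R' ∧ (∀ f ∈ M, ¬ Desc f R') ∧ ∃ h, gr h ∈ N ∧ IsoH R R' h

theorem tAb0b (br8 : S_Br8) (huni : S_Univ) (f9 : S_Fi9) (f3 : S_Fi3) (be8 : S_Be8)
    (f8 : S_Fi8) (f12 : S_Fi12) (z2 : Pool.Agent.Lib.Z2.S_Z2) (ac : Pool.Agent.Lib.Z2.S_Ac)
    (hUn : EdgeThm) :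
    ∀ M : Set (Set ℕ), M.Countable → Mod2 M → ∀ G, Gen (SU (UM M) (CM M)) Gam G →
      Props2 M (NN (SU (UM M) (CM M)) G) := by
  intro M hcnt hM2 G hG
  have hU := huni M hM2
  have hUc : (UM M).Countable := hcnt.mono hU.um
  have hS := f9 M _ _ hU hUc
  have : Pool.Agent.Lib.Z2.Good (SU (UM M) (CM M)) := hU.good
  have hE := hUn M _ _ G hU hS hG
  have sit : Sit M (UM M) (CM M) G := ⟨hU, hS, hG, hE⟩
  have hKH := f3 _ _ _ _ sit
  set N := NN (SU (UM M) (CM M)) G with hN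
  have hNne : N.Nonempty := hKH.2.2.1.1
  refine ⟨hNne, z2 _ Gam hS G hG, ac _ Gam hS G hG, f8 _ _ _ _ sit, ?_, ?_⟩
  · intro hb
    exact ((br8 N hNne).2).2 (be8 _ _ _ _ hKH (((br8 M hM2.1).2).1 hb))
  · intro R hR hl hd
    obtain ⟨R', hR', hl', hd', h, hg, hi⟩ := f12 _ _ _ _ sit R hR hl hd
    exact ⟨R', hU.um hR', hKH.2.1 hR', hl', hd', h, hg, hi⟩

end B8d
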