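import Pool.Agent.Lib.MP_8dbd20_lc.Fi.Spec

/-!
# MP_8dbd20_lc, Fi, Be0: finite sequences coded by numbers
-/

set_option linter.unusedVariables false

namespace B8d

private theorem Be0_pr_ch (x a : ℕ) : pr (ch x a) = x := by
  simp [pr, ch]

private theorem Be0_lb_ch (x a : ℕ) : lb (ch x a) = a := by
  simp [lb, ch]

private theorem Be0_pr_zero : pr 0 = 0 := by
  simp [pr]

private theorem Be0_ch_pr {x : ℕ} (h : x ≠ 0) : ch (pr x) (lb x) = x := by
  unfold ch pr lb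
  rw [Nat.pair_unpair]
  omega

private theorem Be0_pr_lt {x : ℕ} (h : x ≠ 0) : pr x < x := by
  have := Nat.unpair_left_le (x - 1)
  unfold pr
  omega

private theorem Be0_prI_succ (i x : ℕ) : prI (i + 1) x = pr (prI i x) := rfl

private theorem Be0_prI_succ' (i x : ℕ) : prI (i + 1) x = prI i (pr x) := by
  induction i with
  | zero => rfl
  | succ i ih => rw [Be0_prI_succ, ih, Be0_prI_succ]

private theorem Be0_sq_succ (f : ℕ → ℕ) (n : ℕ) : sq f (n + 1) = ch (sq f n) (f n) := rfl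

private theorem Be0_prI_sq (f : ℕ → ℕ) (m n : ℕ) : prI m (sq f (n + m)) = sq f n := by
  induction m with
  | zero => rfl
  | succ m ih =>
    rw [Be0_prI_succ', show n + (m + 1) = (n + m) + 1 from rfl, Be0_sq_succ, Be0_pr_ch]
    exact ih

private theorem Be0_ln_sq (f : ℕ → ℕ) (n : ℕ) : ln (sq f n) = n := by
  unfold ln
  have h0 : prI n (sq f n) = 0 := by
    have := Be0_prI_sq f n 0
    rw [Nat.zero_add] at this
    exact this
  apply le_antisymm
  · exact Nat.sInf_le h0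
  · by_contra hlt
    push Not at hlt
    have h1 : prI (sInf {i | prI i (sq f n) = 0}) (sq f n) = 0 :=
      Nat.sInf_mem (s := {i | prI i (sq f n) = 0}) ⟨n, h0⟩
    obtain ⟨k, hk⟩ : ∃ k, n = (k + 1) + sInf {i | prI i (sq f n) = 0} :=
      ⟨n - sInf {i | prI i (sq f n) = 0} - 1, by omega⟩
    obtain ⟨s, hs⟩ : ∃ s, s = sInf {i | prI i (sq f n) = 0} := ⟨_, rfl⟩
    rw [← hs] at h1 hk
    rw [hk, Be0_prI_sq, Be0_sq_succ] at h1
    unfold ch at h1
    omega

private theorem Be0_tc_sq (f : ℕ → ℕ) (n m : ℕ) (h : m ≤ n) : tc (sq f n) m = sq f m := by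
  unfold tc
  rw [Be0_ln_sq]
  obtain ⟨k, rfl⟩ := Nat.exists_eq_add_of_le h
  rw [Nat.add_sub_cancel_left]
  exact Be0_prI_sq f k m

private theorem Be0_en_sq (f : ℕ → ℕ) (n i : ℕ) (h : i < n) : en (sq f n) i = f i := by
  unfold en
  rw [Be0_tc_sq f n (i + 1) h, Be0_sq_succ, Be0_lb_ch]

private theorem Be0_sq_congr (f g : ℕ → ℕ) (n : ℕ) (h : ∀ i < n, f i = g i) : sq f n = sq g n := by
  induction n with
  | zero => rfl
  | succ n ih =>
    rw [Be0_sq_succ, Be0_sq_succ, ih (fun i hi => h i (by omega)), h n (by omega)]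

private theorem Be0_ch_sq (f : ℕ → ℕ) (n a : ℕ) :
    ch (sq f n) a = sq (fun i => if i = n then a else f i) (n + 1) := by
  rw [Be0_sq_succ, if_pos rfl]
  congr 1
  apply Be0_sq_congr
  intro i hi
  rw [if_neg (by omega)]

private theorem Be0_ex (x : ℕ) : ∃ f n, x = sq f n := by
  induction x using Nat.strong_induction_on with
  | _ x ih =>
    by_cases h : x = 0
    · exact ⟨fun _ => 0, 0, h⟩
    · obtain ⟨f, n, hf⟩ := ih (pr x) (Be0_pr_lt h)
      refine ⟨fun i => if i = n then lb x else f i, n + 1, ?_⟩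
      rw [← Be0_ch_sq, ← hf, Be0_ch_pr h]

private theorem Be0_prI_an : AN (fun v _ => prI (v 0) (v 1)) :=
  (AN.natRec (a := fun v _ => v 1) (h := fun _ x _ _ => pr x) (k := fun v _ => v 0) (AN.var 1)
    (AN.fst (AN.sub (AN.var 1) (AN.const 1))) (AN.var 0)).congr fun _ _ => rfl

private theorem Be0_ln_an : AN (fun v _ => ln (v 0)) :=
  AN.sInf (R := fun i v _ => prI i (v 0) = 0) (Ar.eqN Be0_prI_an (AN.const 0))

private theorem Be0_tc_an : AN (fun v _ => tc (v 0) (v 1)) :=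
  AN.s20 (R := prI) Be0_prI_an
    (AN.sub (AN.s10 (R := ln) Be0_ln_an (AN.var 0)) (AN.var 1)) (AN.var 0)

theorem pBe0 : S_Be0 := by
  refine ⟨Be0_ln_sq, Be0_tc_sq, Be0_en_sq, ?_, Be0_sq_congr, ?_, Be0_prI_an, Be0_ln_an, Be0_tc_an,
    ?_⟩
  · intro x
    obtain ⟨f, n, rfl⟩ := Be0_ex x
    rw [Be0_ln_sq]
    exact Be0_sq_congr _ _ _ (fun i hi => Be0_en_sq f n i hi)
  · intro x a
    obtain ⟨f, n, rfl⟩ := Be0_ex x
    rw [Be0_ch_sq, Be0_ln_sq, Be0_ln_sq, Be0_tc_sq _ _ _ (Nat.le_succ n)]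
    refine ⟨rfl, Be0_sq_congr _ _ _ (fun i hi => ?_)⟩
    rw [if_neg (by omega)]
  · exact AN.snd (AN.sub (AN.s20 (R := tc) Be0_tc_an (AN.var 0)
      (AN.add (AN.var 1) (AN.const 1))) (AN.const 1))

end B8d
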