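import Pool.Agent.Lib.MP_8dbd20_lc.Fi.Spec

/-!
# MP_8dbd20_lc, Fi, Be1: the Kleene-Brouwer order is linear
-/

set_option linter.unusedVariables false

namespace B8d

private theorem Be1_prI_succ' (i x : ℕ) : prI (i + 1) x = prI i (pr x) := by
  induction i with
  | zero => rfl
  | succ i ih =>
    have e1 : prI (i + 1 + 1) x = pr (prI (i + 1) x) := rfl
    have e2 : prI (i + 1) (pr x) = pr (prI i (pr x)) := rfl
    rw [e1, ih, e2]

private theorem Be1_prI_sq (f : ℕ → ℕ) (m n : ℕ) : prI m (sq f (n + m)) = sq f n := by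
  induction m with
  | zero => rfl
  | succ m ih =>
    have e1 : sq f (n + (m + 1)) = ch (sq f (n + m)) (f (n + m)) := rfl
    have e2 : pr (ch (sq f (n + m)) (f (n + m))) = sq f (n + m) := by simp [pr, ch]
    rw [Be1_prI_succ', e1, e2]
    exact ih

private theorem Be1_prI_zero (m : ℕ) : prI m 0 = 0 := by
  induction m with
  | zero => rfl
  | succ m ih =>
    have e1 : prI (m + 1) 0 = pr (prI m 0) := rfl
    rw [e1, ih]
    simp [pr]

private theorem Be1_prI_add (i j x : ℕ) : prI (i + j) x = prI i (prI j x) := by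
  induction j generalizing x with
  | zero => rfl
  | succ j ih =>
    rw [← Nat.add_assoc, Be1_prI_succ', ih, ← Be1_prI_succ']

private theorem Be1_inj (be0 : S_Be0) {f g : ℕ → ℕ} {n m : ℕ} :
    sq f n = sq g m ↔ n = m ∧ ∀ i < n, f i = g i := by
  obtain ⟨h1, h2, h3, h4, h5, -⟩ := be0
  constructor
  · intro h
    have e1 : n = m := by rw [← h1 f n, h, h1]
    refine ⟨e1, fun i hi => ?_⟩
    rw [← h3 f n i hi, h, h3 g m i (by omega)]
  · rintro ⟨rfl, h⟩
    exact h5 f g n h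

private theorem Be1_exn (be0 : S_Be0) {f g : ℕ → ℕ} {n m : ℕ} :
    Exn (sq f n) (sq g m) ↔ m ≤ n ∧ ∀ i < m, f i = g i := by
  constructor
  · rintro ⟨i, hi⟩
    rcases Nat.le_total i n with h | h
    · obtain ⟨k, rfl⟩ := Nat.exists_eq_add_of_le h
      rw [Nat.add_comm, Be1_prI_sq, Be1_inj be0] at hi
      obtain ⟨rfl, h2⟩ := hi
      exact ⟨by omega, h2⟩
    · obtain ⟨k, rfl⟩ := Nat.exists_eq_add_of_le h
      rw [Nat.add_comm, Be1_prI_add] at hi
      have e1 : prI n (sq f n) = 0 := by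
        have := Be1_prI_sq f n 0
        rw [Nat.zero_add] at this
        exact this
      rw [e1, Be1_prI_zero, show (0 : ℕ) = sq f 0 from rfl, Be1_inj be0] at hi
      obtain ⟨rfl, -⟩ := hi
      exact ⟨Nat.zero_le _, fun i hi => absurd hi (Nat.not_lt_zero _)⟩
  · rintro ⟨h1, h2⟩
    obtain ⟨k, rfl⟩ := Nat.exists_eq_add_of_le h1
    refine ⟨k, ?_⟩
    rw [Be1_prI_sq, Be1_inj be0]
    exact ⟨rfl, h2⟩

private def Be1_KL (f : ℕ → ℕ) (n : ℕ) (g : ℕ → ℕ) (m : ℕ) : Prop :=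
  (m < n ∧ ∀ i < m, f i = g i) ∨ ∃ k, k < n ∧ k < m ∧ (∀ i < k, f i = g i) ∧ f k < g k

private theorem Be1_ch (be0 : S_Be0) (f : ℕ → ℕ) (n a : ℕ) :
    ch (sq f n) a = sq (fun i => if i = n then a else f i) (n + 1) := by
  have e1 : sq (fun i => if i = n then a else f i) (n + 1) =
      ch (sq (fun i => if i = n then a else f i) n) (if n = n then a else f n) := rfl
  rw [e1, if_pos rfl]
  congr 1
  rw [Be1_inj be0]
  refine ⟨rfl, fun i hi => ?_⟩
  rw [if_neg (by omega)]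

private theorem Be1_kb (be0 : S_Be0) (f : ℕ → ℕ) (n : ℕ) (g : ℕ → ℕ) (m : ℕ) :
    KBlt (sq f n) (sq g m) ↔ Be1_KL f n g m := by
  constructor
  · rintro (⟨h1, h2⟩ | ⟨z, a, b, hab, h1, h2⟩)
    · rw [Be1_exn be0] at h2
      left
      refine ⟨lt_of_le_of_ne h2.1 ?_, h2.2⟩
      intro he
      apply h1
      rw [Be1_inj be0]
      exact ⟨he.symm, by rw [← he]; exact h2.2⟩
    · right
      have hz := be0.2.2.2.1 z
      rw [← hz, Be1_ch be0, Be1_exn be0] at h1 h2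
      obtain ⟨a1, a2⟩ := h1
      obtain ⟨b1, b2⟩ := h2
      refine ⟨ln z, by omega, by omega, ?_, ?_⟩
      · intro i hi
        rw [a2 i (by omega), b2 i (by omega), if_neg (by omega), if_neg (by omega)]
      · rw [a2 (ln z) (Nat.lt_succ_self _), b2 (ln z) (Nat.lt_succ_self _), if_pos rfl, if_pos rfl]
        exact hab
  · rintro (⟨h1, h2⟩ | ⟨k, h1, h2, h3, h4⟩)
    · left
      refine ⟨?_, (Be1_exn be0).2 ⟨h1.le, h2⟩⟩
      intro he
      rw [Be1_inj be0] at he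
      omega
    · right
      refine ⟨sq f k, f k, g k, h4, ?_, ?_⟩
      · rw [Be1_ch be0, Be1_exn be0]
        refine ⟨h1, fun i hi => ?_⟩
        by_cases hik : i = k
        · rw [if_pos hik, hik]
        · simp only [if_neg hik]
      · rw [Be1_ch be0, Be1_exn be0]
        refine ⟨h2, fun i hi => ?_⟩
        by_cases hik : i = k
        · rw [if_pos hik, hik]
        · simp only [if_neg hik]
          exact (h3 i (by omega)).symm

private theorem Be1_irr (f : ℕ → ℕ) (n : ℕ) : ¬ Be1_KL f n f n := by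
  rintro (⟨h, -⟩ | ⟨k, -, -, -, h⟩)
  · exact lt_irrefl _ h
  · exact lt_irrefl _ h

private theorem Be1_tr {f g h : ℕ → ℕ} {n m l : ℕ} (h1 : Be1_KL f n g m) (h2 : Be1_KL g m h l) :
    Be1_KL f n h l := by
  rcases h1 with ⟨a1, a2⟩ | ⟨k, a1, a2, a3, a4⟩
  · rcases h2 with ⟨b1, b2⟩ | ⟨k', b1, b2, b3, b4⟩
    · left
      refine ⟨by omega, fun i hi => ?_⟩
      rw [a2 i (by omega), b2 i hi]
    · right
      refine ⟨k', by omega, b2, fun i hi => ?_, ?_⟩
      · rw [a2 i (by omega), b3 i hi]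
      · rw [a2 k' b1]
        exact b4
  · rcases h2 with ⟨b1, b2⟩ | ⟨k', b1, b2, b3, b4⟩
    · rcases Nat.lt_or_ge k l with hk | hk
      · right
        refine ⟨k, a1, hk, fun i hi => ?_, ?_⟩
        · rw [a3 i hi, b2 i (by omega)]
        · rw [← b2 k hk]
          exact a4
      · left
        refine ⟨by omega, fun i hi => ?_⟩
        rw [a3 i (by omega), b2 i hi]
    · rcases lt_trichotomy k k' with hk | hk | hk
      · right
        refine ⟨k, a1, by omega, fun i hi => ?_, ?_⟩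
        · rw [a3 i hi, b3 i (by omega)]
        · rw [← b3 k hk]
          exact a4
      · subst hk
        right
        refine ⟨k, a1, b2, fun i hi => ?_, lt_trans a4 b4⟩
        rw [a3 i hi, b3 i hi]
      · right
        refine ⟨k', by omega, b2, fun i hi => ?_, ?_⟩
        · rw [a3 i (by omega), b3 i hi]
        · rw [a3 k' hk]
          exact b4

private theorem Be1_tot (f : ℕ → ℕ) (n : ℕ) (g : ℕ → ℕ) (m : ℕ) :
    (n = m ∧ ∀ i < n, f i = g i) ∨ Be1_KL f n g m ∨ Be1_KL g m f n := by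
  by_cases hex : ∃ k, k < n ∧ k < m ∧ f k ≠ g k
  · obtain ⟨k, ⟨h1, h2, h3⟩, hmin⟩ : ∃ k, (k < n ∧ k < m ∧ f k ≠ g k) ∧
        ∀ i < k, ¬ (i < n ∧ i < m ∧ f i ≠ g i) :=
      ⟨Nat.find hex, Nat.find_spec hex, fun i hi => Nat.find_min hex hi⟩
    have hag : ∀ i < k, f i = g i := by
      intro i hi
      by_contra hne
      exact hmin i hi ⟨by omega, by omega, hne⟩
    right
    rcases lt_or_gt_of_ne h3 with h4 | h4
    · exact Or.inl (Or.inr ⟨k, h1, h2, hag, h4⟩)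
    · exact Or.inr (Or.inr ⟨k, h2, h1, fun i hi => (hag i hi).symm, h4⟩)
  · have hag : ∀ i, i < n → i < m → f i = g i := by
      intro i h1 h2
      by_contra hne
      exact hex ⟨i, h1, h2, hne⟩
    rcases lt_trichotomy n m with h | h | h
    · exact Or.inr (Or.inr (Or.inl ⟨h, fun i hi => (hag i hi (by omega)).symm⟩))
    · exact Or.inl ⟨h, fun i hi => hag i hi (by omega)⟩
    · exact Or.inr (Or.inl (Or.inl ⟨h, fun i hi => hag i (by omega) hi⟩))

private theorem Be1_exn_ar : Ar (fun v _ => Exn (v 0) (v 1)) := by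
  have hp : AN (fun v _ => prI (v 0) (v 1)) :=
    (AN.natRec (a := fun v _ => v 1) (h := fun _ x _ _ => pr x) (k := fun v _ => v 0) (AN.var 1)
      (AN.fst (AN.sub (AN.var 1) (AN.const 1))) (AN.var 0)).congr fun _ _ => rfl
  exact Ar.exN (R := fun i v _ => prI i (v 0) = v 1) (Ar.eqN hp (AN.var 2))

private theorem Be1_ch_an {f g : (ℕ → ℕ) → (ℕ → Set ℕ) → ℕ} (hf : AN f) (hg : AN g) :
    AN (fun v V => ch (f v V) (g v V)) := AN.add (AN.pair hf hg) (AN.const 1)

private theorem Be1_kb_ar : Ar (fun v _ => KBlt (v 0) (v 1)) := by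
  have h1 : Ar (fun v (_ : ℕ → Set ℕ) => v 0 ≠ v 1 ∧ Exn (v 0) (v 1)) :=
    (Ar.neN (AN.var 0) (AN.var 1)).and Be1_exn_ar
  have h2 : Ar (fun v (_ : ℕ → Set ℕ) => ∃ z a b, a < b ∧ Exn (v 0) (ch z a) ∧
      Exn (v 1) (ch z b)) := by
    refine Ar.exN (R := fun z v _ => ∃ a b, a < b ∧ Exn (v 0) (ch z a) ∧ Exn (v 1) (ch z b)) ?_
    refine Ar.exN (R := fun a v _ => ∃ b, a < b ∧ Exn (v 1) (ch (v 0) a) ∧
      Exn (v 2) (ch (v 0) b)) ?_
    refine Ar.exN (R := fun b v _ => v 0 < b ∧ Exn (v 2) (ch (v 1) (v 0)) ∧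
      Exn (v 3) (ch (v 1) b)) ?_
    refine (Ar.lt (AN.var 1) (AN.var 0)).and (Ar.and ?_ ?_)
    · exact Ar.s20 (R := Exn) Be1_exn_ar (AN.var 3) (Be1_ch_an (AN.var 2) (AN.var 1))
    · exact Ar.s20 (R := Exn) Be1_exn_ar (AN.var 4) (Be1_ch_an (AN.var 2) (AN.var 0))
  exact h1.or h2

private theorem Be1_mem {T : Set ℕ} {i j : ℕ} :
    Nat.pair i j ∈ KB T ↔ i ∈ T ∧ j ∈ T ∧ (i = j ∨ KBlt i j) := by
  unfold KB
  simp

theorem pBe1 (be0 : S_Be0) : S_Be1 := by
  have hirr : ∀ x, ¬ KBlt x x := by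
    intro x h
    have hx := be0.2.2.2.1 x
    rw [← hx, Be1_kb be0] at h
    exact Be1_irr _ _ h
  have htr : ∀ x y z, KBlt x y → KBlt y z → KBlt x z := by
    intro x y z h1 h2
    have hx := be0.2.2.2.1 x
    have hy := be0.2.2.2.1 y
    have hz := be0.2.2.2.1 z
    rw [← hx, ← hy, Be1_kb be0] at h1
    rw [← hy, ← hz, Be1_kb be0] at h2
    rw [← hx, ← hz, Be1_kb be0]
    exact Be1_tr h1 h2
  have htot : ∀ x y, x = y ∨ KBlt x y ∨ KBlt y x := by
    intro x y
    have hx := be0.2.2.2.1 x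
    have hy := be0.2.2.2.1 y
    rcases Be1_tot (en x) (ln x) (en y) (ln y) with h | h | h
    · left
      rw [← hx, ← hy, Be1_inj be0]
      exact h
    · right; left
      rw [← hx, ← hy, Be1_kb be0]
      exact h
    · right; right
      rw [← hx, ← hy, Be1_kb be0]
      exact h
  refine ⟨?_, ?_, ?_, hirr⟩
  · intro T
    refine ⟨?_, ?_, ?_, ?_⟩
    · intro i j h
      rw [Be1_mem] at h
      rw [Be1_mem, Be1_mem]
      exact ⟨⟨h.1, h.1, Or.inl rfl⟩, ⟨h.2.1, h.2.1, Or.inl rfl⟩⟩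
    · intro i j h h'
      rw [Be1_mem] at h h'
      rcases h.2.2 with h1 | h1
      · exact h1
      · rcases h'.2.2 with h2 | h2
        · exact h2.symm
        · exact absurd (htr _ _ _ h1 h2) (hirr i)
    · intro i j k h h'
      rw [Be1_mem] at h h' ⊢
      refine ⟨h.1, h'.2.1, ?_⟩
      rcases h.2.2 with h1 | h1
      · rw [h1]
        exact h'.2.2
      · rcases h'.2.2 with h2 | h2
        · rw [← h2]
          exact Or.inr h1
        · exact Or.inr (htr _ _ _ h1 h2)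
    · intro i j h h'
      rw [Be1_mem] at h h' ⊢
      rw [Be1_mem]
      rcases htot i j with h1 | h1 | h1
      · exact Or.inl ⟨h.1, h'.1, Or.inl h1⟩
      · exact Or.inl ⟨h.1, h'.1, Or.inr h1⟩
      · exact Or.inr ⟨h'.1, h.1, Or.inr h1⟩
  · refine AS.setOf (R := fun n v V => n.unpair.1 ∈ V 0 ∧ n.unpair.2 ∈ V 0 ∧
      (n.unpair.1 = n.unpair.2 ∨ KBlt n.unpair.1 n.unpair.2)) ?_
    refine (Ar.mem (AN.fst (AN.var 0)) (AS.var 0)).and ((Ar.mem (AN.snd (AN.var 0))
      (AS.var 0)).and (Ar.or (Ar.eqN (AN.fst (AN.var 0)) (AN.snd (AN.var 0))) ?_))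
    exact Ar.s20 (R := KBlt) Be1_kb_ar (AN.fst (AN.var 0)) (AN.snd (AN.var 0))
  · intro x y h h'
    exact hirr x (htr _ _ _ h h')

end B8d
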