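import Pool.Agent.Lib.MP_8dbd20_lc.Fi.Spec

/-!
# MP_8dbd20_lc, Fi, Be2: branches are descending sequences
-/

set_option linter.unusedVariables false

namespace B8d

theorem pBe2 : S_Be2 := by
  intro T f hT
  have hg : ∀ k x, Nat.pair k x ∈ gr (sq f) → x = sq f k := by
    intro k x h
    unfold gr at h
    simpa using h
  refine ⟨fun k => ⟨sq f k, by unfold gr; simp⟩, ?_⟩
  intro k x y hx hy
  have e1 := hg _ _ hx
  have e2 := hg _ _ hy
  subst e1 e2
  have e3 : sq f (k + 1) = ch (sq f k) (f k) := rfl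
  have hne : sq f (k + 1) ≠ sq f k := by
    rw [e3]
    unfold ch
    have := Nat.left_le_pair (sq f k) (f k)
    omega
  refine ⟨?_, hne⟩
  unfold KB
  simp only [Set.mem_setOf_eq, Nat.unpair_pair]
  refine ⟨hT _, hT _, Or.inr (Or.inl ⟨hne, 1, ?_⟩)⟩
  change pr (sq f (k + 1)) = sq f k
  rw [e3]
  simp [pr, ch]

end B8d
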