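import Pool.Agent.Lib.MP_8dbd20_lc.Fi.Spec

/-!
# MP_8dbd20_lc, Fi, Be3: descending sequences of the Kleene-Brouwer order give branches
-/

set_option linter.unusedVariables false

namespace B8d

private theorem Be3_prI_succ' (i x : ℕ) : prI (i + 1) x = prI i (pr x) := by
  induction i with
  | zero => rfl
  | succ i ih =>
    have e1 : prI (i + 1 + 1) x = pr (prI (i + 1) x) := rfl
    have e2 : prI (i + 1) (pr x) = pr (prI i (pr x)) := rfl
    rw [e1, ih, e2]

private theorem Be3_prI_sq (f : ℕ → ℕ) (m n : ℕ) : prI m (sq f (n + m)) = sq f n := by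
  induction m with
  | zero => rfl
  | succ m ih =>
    have e1 : sq f (n + (m + 1)) = ch (sq f (n + m)) (f (n + m)) := rfl
    have e2 : pr (ch (sq f (n + m)) (f (n + m))) = sq f (n + m) := by simp [pr, ch]
    rw [Be3_prI_succ', e1, e2]
    exact ih

private theorem Be3_prI_zero (m : ℕ) : prI m 0 = 0 := by
  induction m with
  | zero => rfl
  | succ m ih =>
    have e1 : prI (m + 1) 0 = pr (prI m 0) := rfl
    rw [e1, ih]
    simp [pr]

private theorem Be3_prI_add (i j x : ℕ) : prI (i + j) x = prI i (prI j x) := by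
  induction j generalizing x with
  | zero => rfl
  | succ j ih =>
    rw [← Nat.add_assoc, Be3_prI_succ', ih, ← Be3_prI_succ']

private theorem Be3_inj (be0 : S_Be0) {f g : ℕ → ℕ} {n m : ℕ} :
    sq f n = sq g m ↔ n = m ∧ ∀ i < n, f i = g i := by
  obtain ⟨h1, h2, h3, h4, h5, -⟩ := be0
  constructor
  · intro h
    have e1 : n = m := by rw [← h1 f n, h, h1]
    refine ⟨e1, fun i hi => ?_⟩
    rw [← h3 f n i hi, h, h3 g m i (by omega)]
  · rintro ⟨rfl, h⟩
    exact h5 f g n h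

private theorem Be3_exn (be0 : S_Be0) {f g : ℕ → ℕ} {n m : ℕ} :
    Exn (sq f n) (sq g m) ↔ m ≤ n ∧ ∀ i < m, f i = g i := by
  constructor
  · rintro ⟨i, hi⟩
    rcases Nat.le_total i n with h | h
    · obtain ⟨k, rfl⟩ := Nat.exists_eq_add_of_le h
      rw [Nat.add_comm, Be3_prI_sq, Be3_inj be0] at hi
      obtain ⟨rfl, h2⟩ := hi
      exact ⟨by omega, h2⟩
    · obtain ⟨k, rfl⟩ := Nat.exists_eq_add_of_le h
      rw [Nat.add_comm, Be3_prI_add] at hi
      have e1 : prI n (sq f n) = 0 := by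
        have := Be3_prI_sq f n 0
        rw [Nat.zero_add] at this
        exact this
      rw [e1, Be3_prI_zero, show (0 : ℕ) = sq f 0 from rfl, Be3_inj be0] at hi
      obtain ⟨rfl, -⟩ := hi
      exact ⟨Nat.zero_le _, fun i hi => absurd hi (Nat.not_lt_zero _)⟩
  · rintro ⟨h1, h2⟩
    obtain ⟨k, rfl⟩ := Nat.exists_eq_add_of_le h1
    refine ⟨k, ?_⟩
    rw [Be3_prI_sq, Be3_inj be0]
    exact ⟨rfl, h2⟩

private def Be3_KL (f : ℕ → ℕ) (n : ℕ) (g : ℕ → ℕ) (m : ℕ) : Prop :=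
  (m < n ∧ ∀ i < m, f i = g i) ∨ ∃ k, k < n ∧ k < m ∧ (∀ i < k, f i = g i) ∧ f k < g k

private theorem Be3_ch (be0 : S_Be0) (f : ℕ → ℕ) (n a : ℕ) :
    ch (sq f n) a = sq (fun i => if i = n then a else f i) (n + 1) := by
  have e1 : sq (fun i => if i = n then a else f i) (n + 1) =
      ch (sq (fun i => if i = n then a else f i) n) (if n = n then a else f n) := rfl
  rw [e1, if_pos rfl]
  congr 1
  rw [Be3_inj be0]
  refine ⟨rfl, fun i hi => ?_⟩
  rw [if_neg (by omega)]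

private theorem Be3_kb (be0 : S_Be0) (f : ℕ → ℕ) (n : ℕ) (g : ℕ → ℕ) (m : ℕ) :
    KBlt (sq f n) (sq g m) ↔ Be3_KL f n g m := by
  constructor
  · rintro (⟨h1, h2⟩ | ⟨z, a, b, hab, h1, h2⟩)
    · rw [Be3_exn be0] at h2
      left
      refine ⟨lt_of_le_of_ne h2.1 ?_, h2.2⟩
      intro he
      apply h1
      rw [Be3_inj be0]
      exact ⟨he.symm, by rw [← he]; exact h2.2⟩
    · right
      have hz := be0.2.2.2.1 z
      rw [← hz, Be3_ch be0, Be3_exn be0] at h1 h2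
      obtain ⟨a1, a2⟩ := h1
      obtain ⟨b1, b2⟩ := h2
      refine ⟨ln z, by omega, by omega, ?_, ?_⟩
      · intro i hi
        rw [a2 i (by omega), b2 i (by omega), if_neg (by omega), if_neg (by omega)]
      · rw [a2 (ln z) (Nat.lt_succ_self _), b2 (ln z) (Nat.lt_succ_self _), if_pos rfl, if_pos rfl]
        exact hab
  · rintro (⟨h1, h2⟩ | ⟨k, h1, h2, h3, h4⟩)
    · left
      refine ⟨?_, (Be3_exn be0).2 ⟨h1.le, h2⟩⟩
      intro he
      rw [Be3_inj be0] at he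
      omega
    · right
      refine ⟨sq f k, f k, g k, h4, ?_, ?_⟩
      · rw [Be3_ch be0, Be3_exn be0]
        refine ⟨h1, fun i hi => ?_⟩
        by_cases hik : i = k
        · rw [if_pos hik, hik]
        · simp only [if_neg hik]
      · rw [Be3_ch be0, Be3_exn be0]
        refine ⟨h2, fun i hi => ?_⟩
        by_cases hik : i = k
        · rw [if_pos hik, hik]
        · simp only [if_neg hik]
          exact (h3 i (by omega)).symm

private theorem Be3_irr (f : ℕ → ℕ) (n : ℕ) : ¬ Be3_KL f n f n := by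
  rintro (⟨h, -⟩ | ⟨k, -, -, -, h⟩)
  · exact lt_irrefl _ h
  · exact lt_irrefl _ h

private theorem Be3_tr {f g h : ℕ → ℕ} {n m l : ℕ} (h1 : Be3_KL f n g m) (h2 : Be3_KL g m h l) :
    Be3_KL f n h l := by
  rcases h1 with ⟨a1, a2⟩ | ⟨k, a1, a2, a3, a4⟩
  · rcases h2 with ⟨b1, b2⟩ | ⟨k', b1, b2, b3, b4⟩
    · left
      refine ⟨by omega, fun i hi => ?_⟩
      rw [a2 i (by omega), b2 i hi]
    · right
      refine ⟨k', by omega, b2, fun i hi => ?_, ?_⟩
      · rw [a2 i (by omega), b3 i hi]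
      · rw [a2 k' b1]
        exact b4
  · rcases h2 with ⟨b1, b2⟩ | ⟨k', b1, b2, b3, b4⟩
    · rcases Nat.lt_or_ge k l with hk | hk
      · right
        refine ⟨k, a1, hk, fun i hi => ?_, ?_⟩
        · rw [a3 i hi, b2 i (by omega)]
        · rw [← b2 k hk]
          exact a4
      · left
        refine ⟨by omega, fun i hi => ?_⟩
        rw [a3 i (by omega), b2 i hi]
    · rcases lt_trichotomy k k' with hk | hk | hk
      · right
        refine ⟨k, a1, by omega, fun i hi => ?_, ?_⟩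
        · rw [a3 i hi, b3 i (by omega)]
        · rw [← b3 k hk]
          exact a4
      · subst hk
        right
        refine ⟨k, a1, b2, fun i hi => ?_, lt_trans a4 b4⟩
        rw [a3 i hi, b3 i hi]
      · right
        refine ⟨k', by omega, b2, fun i hi => ?_, ?_⟩
        · rw [a3 i (by omega), b3 i hi]
        · rw [a3 k' hk]
          exact b4

private theorem Be3_exn_ar : Ar (fun v _ => Exn (v 0) (v 1)) := by
  have hp : AN (fun v _ => prI (v 0) (v 1)) :=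
    (AN.natRec (a := fun v _ => v 1) (h := fun _ x _ _ => pr x) (k := fun v _ => v 0) (AN.var 1)
      (AN.fst (AN.sub (AN.var 1) (AN.const 1))) (AN.var 0)).congr fun _ _ => rfl
  exact Ar.exN (R := fun i v _ => prI i (v 0) = v 1) (Ar.eqN hp (AN.var 2))

private theorem Be3_ch_an {f g : (ℕ → ℕ) → (ℕ → Set ℕ) → ℕ} (hf : AN f) (hg : AN g) :
    AN (fun v V => ch (f v V) (g v V)) := AN.add (AN.pair hf hg) (AN.const 1)

/-- the chosen values of the descending sequence -/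
private noncomputable def Be3_X (g : Set ℕ) (k : ℕ) : ℕ := sInf {x | Nat.pair k x ∈ g}

private def Be3_Gd (g : Set ℕ) (z : ℕ) : Prop := ∃ k₀, ∀ k, k₀ ≤ k → Exn (Be3_X g k) z

private noncomputable def Be3_f (g : Set ℕ) (n : ℕ) : ℕ :=
  sInf {a | ∃ z, ln z = n ∧ Be3_Gd g (ch z a)}

private theorem Be3_X_an : AN (fun v V => Be3_X (V 0) (v 0)) :=
  AN.sInf (R := fun x v V => Nat.pair (v 0) x ∈ V 0)
    (Ar.mem (AN.pair (AN.var 1) (AN.var 0)) (AS.var 0))

private theorem Be3_Gd_ar : Ar (fun v V => Be3_Gd (V 0) (v 0)) := by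
  refine Ar.exN (R := fun k₀ v V => ∀ k, k₀ ≤ k → Exn (Be3_X (V 0) k) (v 0)) ?_
  refine Ar.allN (R := fun k v V => v 0 ≤ k → Exn (Be3_X (V 0) k) (v 1)) ?_
  refine (Ar.le (AN.var 1) (AN.var 0)).imp ?_
  exact Ar.s20 (R := Exn) Be3_exn_ar
    (AN.s11 (R := fun k g => Be3_X g k) Be3_X_an (AN.var 0) (AS.var 0)) (AN.var 2)

private theorem Be3_f_an (be0 : S_Be0) : AN (fun v V => Be3_f (V 0) (v 0)) := by
  refine AN.sInf (R := fun a v V => ∃ z, ln z = v 0 ∧ Be3_Gd (V 0) (ch z a)) ?_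
  refine Ar.exN (R := fun z v V => ln z = v 1 ∧ Be3_Gd (V 0) (ch z (v 0))) ?_
  refine (Ar.eqN be0.2.2.2.2.2.2.2.1 (AN.var 2)).and ?_
  exact Ar.s11 (R := fun z g => Be3_Gd g z) Be3_Gd_ar (Be3_ch_an (AN.var 0) (AN.var 1)) (AS.var 0)

private theorem Be3_gr_as (be0 : S_Be0) : AS (fun v V => gr (Be3_f (V 0))) :=
  AS.setOf (R := fun n v V => n.unpair.2 = Be3_f (V 0) n.unpair.1)
    (Ar.eqN (AN.snd (AN.var 0)) (AN.s11 (R := fun k g => Be3_f g k) (Be3_f_an be0)
      (AN.fst (AN.var 0)) (AS.var 0)))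

/-- a decreasing sequence of numbers is eventually constant -/
private theorem Be3_const (a : ℕ → ℕ) (k1 : ℕ) (h : ∀ k, k1 ≤ k → a (k + 1) ≤ a k) :
    ∃ k2, k1 ≤ k2 ∧ ∀ k, k2 ≤ k → a k = a k2 := by
  have hne : ({x | ∃ k, k1 ≤ k ∧ a k = x} : Set ℕ).Nonempty := ⟨a k1, k1, le_rfl, rfl⟩
  obtain ⟨k2, h1, h2⟩ := Nat.sInf_mem hne
  refine ⟨k2, h1, fun k hk => ?_⟩
  apply le_antisymm
  · induction k, hk using Nat.le_induction with
    | base => exact le_rfl
    | succ k hk ih => exact (h k (by omega)).trans ih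
  · rw [h2]
    exact Nat.sInf_le ⟨k, by omega, rfl⟩

private theorem Be3_step (be0 : S_Be0) (F : ℕ → ℕ → ℕ) (N : ℕ → ℕ)
    (hd : ∀ k, Be3_KL (F (k + 1)) (N (k + 1)) (F k) (N k)) (h : ℕ → ℕ) (n k0 : ℕ)
    (hk : ∀ k, k0 ≤ k → n ≤ N k ∧ ∀ i < n, F k i = h i) :
    ∃ a k2, ∀ k, k2 ≤ k → n + 1 ≤ N k ∧ (∀ i < n, F k i = h i) ∧ F k n = a := by
  have hd' : ∀ k j, Be3_KL (F (k + (j + 1))) (N (k + (j + 1))) (F k) (N k) := by
    intro k j
    induction j with
    | zero => exact hd k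
    | succ j ih => exact Be3_tr (hd (k + (j + 1))) ih
  obtain ⟨k1, hk01, hk1⟩ : ∃ k1, k0 ≤ k1 ∧ ∀ k, k1 ≤ k → n + 1 ≤ N k := by
    by_cases hex : ∃ k, k0 ≤ k ∧ N k = n
    · obtain ⟨k, h1, h2⟩ := hex
      refine ⟨k + 1, by omega, fun j hj => ?_⟩
      have h3 := (hk j (by omega)).1
      by_contra hcon
      have h4 : N j = n := by omega
      obtain ⟨m, rfl⟩ : ∃ m, j = k + (m + 1) := ⟨j - k - 1, by omega⟩
      have h5 := hd' k m
      rcases h5 with ⟨h6, -⟩ | ⟨i, h6, h7, -, h8⟩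
      · omega
      · rw [(hk _ (by omega : k0 ≤ k + (m + 1))).2 i (by omega), (hk k h1).2 i (by omega)] at h8
        exact lt_irrefl _ h8
    · refine ⟨k0, le_rfl, fun k hkk => ?_⟩
      have h1 := (hk k hkk).1
      by_contra hcon
      exact hex ⟨k, hkk, by omega⟩
  have hmono : ∀ k, k1 ≤ k → F (k + 1) n ≤ F k n := by
    intro k hkk
    rcases hd k with ⟨h1, h2⟩ | ⟨i, h1, h2, h3, h4⟩
    · have := hk1 k hkk
      exact (h2 n (by omega)).le
    · rcases lt_trichotomy i n with h5 | h5 | h5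
      · rw [(hk (k + 1) (by omega)).2 i h5, (hk k (by omega)).2 i h5] at h4
        exact absurd h4 (lt_irrefl _)
      · subst h5
        exact h4.le
      · exact (h3 n h5).le
  obtain ⟨k2, h1, h2⟩ := Be3_const (fun k => F k n) k1 hmono
  exact ⟨F k2 n, k2, fun k hkk => ⟨hk1 k (by omega), (hk k (by omega)).2, h2 k hkk⟩⟩

theorem pBe3 (be0 : S_Be0) : S_Be3 := by
  intro K hK T hT hcl g hg hD
  obtain ⟨hD1, hD2⟩ := hD
  have hX : ∀ k, Nat.pair k (Be3_X g k) ∈ g := fun k =>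
    Nat.sInf_mem (s := {x | Nat.pair k x ∈ g}) (hD1 k)
  have hlt : ∀ k, KBlt (Be3_X g (k + 1)) (Be3_X g k) ∧ Be3_X g k ∈ T := by
    intro k
    obtain ⟨h1, h2⟩ := hD2 k _ _ (hX k) (hX (k + 1))
    unfold KB at h1
    simp only [Set.mem_setOf_eq, Nat.unpair_pair] at h1
    exact ⟨h1.2.2.resolve_left h2, h1.2.1⟩
  have hsq : ∀ k, sq (en (Be3_X g k)) (ln (Be3_X g k)) = Be3_X g k := fun k => be0.2.2.2.1 _
  have hd : ∀ k, Be3_KL (en (Be3_X g (k + 1))) (ln (Be3_X g (k + 1))) (en (Be3_X g k))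
      (ln (Be3_X g k)) := by
    intro k
    rw [← Be3_kb be0, hsq, hsq]
    exact (hlt k).1
  -- good nodes
  have hgood : ∀ (h : ℕ → ℕ) (n : ℕ), Be3_Gd g (sq h n) ↔
      ∃ k0, ∀ k, k0 ≤ k → n ≤ ln (Be3_X g k) ∧ ∀ i < n, en (Be3_X g k) i = h i := by
    intro h n
    unfold Be3_Gd
    have e : ∀ k, Exn (Be3_X g k) (sq h n) ↔
        (n ≤ ln (Be3_X g k) ∧ ∀ i < n, en (Be3_X g k) i = h i) := by
      intro k
      rw [← Be3_exn be0, hsq]
    simp only [e]
  have hstep : ∀ z, Be3_Gd g z → ∃ a, Be3_Gd g (ch z a) := by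
    intro z hz
    have hzz := be0.2.2.2.1 z
    rw [← hzz, hgood] at hz
    obtain ⟨k0, hk0⟩ := hz
    obtain ⟨a, k2, ha⟩ := Be3_step be0 (fun k => en (Be3_X g k)) (fun k => ln (Be3_X g k)) hd
      (en z) (ln z) k0 hk0
    refine ⟨a, ?_⟩
    rw [← hzz, Be3_ch be0, hgood]
    refine ⟨k2, fun k hk => ?_⟩
    obtain ⟨h1, h2, h3⟩ := ha k hk
    refine ⟨h1, fun i hi => ?_⟩
    by_cases hil : i = ln z
    · rw [if_pos hil, hil]
      exact h3
    · rw [if_neg hil]
      exact h2 i (by omega)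
  have huniq : ∀ z z', Be3_Gd g z → Be3_Gd g z' → ln z = ln z' → z = z' := by
    intro z z' hz hz' hl
    have hzz := be0.2.2.2.1 z
    have hzz' := be0.2.2.2.1 z'
    rw [← hzz, hgood] at hz
    rw [← hzz', hgood] at hz'
    obtain ⟨k0, hk0⟩ := hz
    obtain ⟨k0', hk0'⟩ := hz'
    rw [← hzz, ← hzz', Be3_inj be0]
    refine ⟨hl, fun i hi => ?_⟩
    rw [← (hk0 (max k0 k0') (le_max_left _ _)).2 i hi,
      ← (hk0' (max k0 k0') (le_max_right _ _)).2 i (by omega)]
  have hall : ∀ n, Be3_Gd g (sq (Be3_f g) n) := by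
    intro n
    induction n with
    | zero =>
      rw [hgood]
      exact ⟨0, fun k _ => ⟨Nat.zero_le _, fun i hi => absurd hi (Nat.not_lt_zero _)⟩⟩
    | succ n ih =>
      obtain ⟨a, ha⟩ := hstep _ ih
      have hne : ({a | ∃ z, ln z = n ∧ Be3_Gd g (ch z a)} : Set ℕ).Nonempty :=
        ⟨a, sq (Be3_f g) n, be0.1 _ _, ha⟩
      obtain ⟨z, hz1, hz2⟩ := Nat.sInf_mem hne
      have he : ch z (Be3_f g n) = ch (sq (Be3_f g) n) a := by
        refine huniq _ _ hz2 ha ?_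
        rw [(be0.2.2.2.2.2.1 _ _).1, (be0.2.2.2.2.2.1 _ _).1, hz1, be0.1]
      have hz3 : z = sq (Be3_f g) n := by
        have h1 : pr (ch z (Be3_f g n)) = pr (ch (sq (Be3_f g) n) a) := by rw [he]
        have h2 : ∀ x b, pr (ch x b) = x := fun x b => by simp [pr, ch]
        rw [h2, h2] at h1
        exact h1
      have e1 : sq (Be3_f g) (n + 1) = ch (sq (Be3_f g) n) (Be3_f g n) := rfl
      rw [e1, ← hz3]
      exact hz2
  have hTpr : ∀ x ∈ T, pr x ∈ T := by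
    intro x hx
    by_cases h0 : x = 0
    · subst h0
      simpa [pr] using hx
    · apply hcl (pr x) (lb x)
      have : ch (pr x) (lb x) = x := by
        unfold ch pr lb
        rw [Nat.pair_unpair]
        omega
      rw [this]
      exact hx
  have hTI : ∀ i x, x ∈ T → prI i x ∈ T := by
    intro i x hx
    induction i with
    | zero => exact hx
    | succ i ih => exact hTpr _ ih
  refine ⟨Be3_f g, ?_, fun n => ?_⟩
  · exact (Be3_gr_as be0).closed hK (fun _ => 0) (fun _ => g) (fun _ => hg)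
  · obtain ⟨k0, hk0⟩ := hall n
    obtain ⟨i, hi⟩ := hk0 k0 le_rfl
    rw [← hi]
    exact hTI i _ (hlt k0).2

end B8d
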