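import Pool.Agent.Lib.MP_8dbd20_lc.Fi.Spec

/-!
# `Fi/Be4`: atoms are representable
-/

namespace B8d

private theorem Be4_iff (hln : ∀ f n, ln (sq f n) = n) (hen : ∀ f n i, i < n → en (sq f n) i = f i)
    (p : ℕ → Prop) (f₀ : ℕ → ℕ) (k : ℕ) :
    p (f₀ k) ↔ ∃ _f₁ : ℕ → ℕ, ∀ n, k < ln (sq f₀ n) → p (en (sq f₀ n) k) := by
  constructor
  · intro h
    refine ⟨fun _ => 0, fun n hn => ?_⟩
    rw [hln] at hn
    rw [hen f₀ n k hn]
    exact h
  · rintro ⟨_, h⟩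
    have := h (k + 1) (by rw [hln]; exact Nat.lt_succ_self k)
    rwa [hen f₀ (k + 1) k (Nat.lt_succ_self k)] at this

theorem pBe4 (be0 : S_Be0) : S_Be4 := by
  obtain ⟨hln, -, hen, -, -, -, -, aln, -, aen⟩ := be0
  refine ⟨?_, ?_, ?_⟩
  · intro R hR
    refine ⟨fun _ _ v V => R v V, hR.ren (fun i => i + 2) (fun j => j), fun f₀ v V => ?_⟩
    exact ⟨fun h => ⟨fun _ => 0, fun _ => h⟩, fun ⟨_, h⟩ => h 0⟩
  · intro i
    refine ⟨fun s _ v _ => v i < ln s → en s (v i) ≠ 0, ?_, fun f₀ v V =>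
      Be4_iff hln hen (fun x => x ≠ 0) f₀ (v i)⟩
    have h1 : AN (fun v _ => en (v 0) (v (i + 2))) :=
      aen.ren (fun j => if j = 0 then 0 else i + 2) (fun j => j)
    exact (Ar.lt (AN.var (i + 2)) aln).imp (Ar.neN h1 (AN.const 0))
  · intro i
    refine ⟨fun s _ v _ => v i < ln s → en s (v i) = 0, ?_, fun f₀ v V =>
      Be4_iff hln hen (fun x => x = 0) f₀ (v i)⟩
    have h1 : AN (fun v _ => en (v 0) (v (i + 2))) :=
      aen.ren (fun j => if j = 0 then 0 else i + 2) (fun j => j)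
    exact (Ar.lt (AN.var (i + 2)) aln).imp (Ar.eqN h1 (AN.const 0))

end B8d
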