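import Pool.Agent.Lib.MP_8dbd20_lc.Fi.Spec

/-!
# MP_8dbd20_lc, Fi/Be5: conjunction and disjunction of representable relations (helper7)
-/

set_option linter.unusedVariables false

namespace B8d

/-- sequences with arithmetical entries are arithmetical terms -/
theorem Be5_sq {E : ℕ → (ℕ → ℕ) → (ℕ → Set ℕ) → ℕ} {N : (ℕ → ℕ) → (ℕ → Set ℕ) → ℕ}
    (hE : AN (fun v V => E (v 0) (fun i => v (i + 1)) V)) (hN : AN N) :
    AN (fun v V => sq (fun i => E i v V) (N v V)) := by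
  refine AN.natRec (a := fun _ _ => 0) (k := N) (h := fun i x v V => ch x (E i v V)) AN.zero ?_ hN
  refine AN.add (AN.pair (AN.var 1) ?_) AN.one
  exact AN.subst hE (f := fc (fun v _ => v 0) (fun i v _ => v (i + 2))) (t := fun j _ V => V j)
    (fc_all (p := AN) (AN.var 0) (fun i => AN.var (i + 2))) (fun j => AS.var j)

theorem Be5_sub {Q : ℕ → ℕ → (ℕ → ℕ) → (ℕ → Set ℕ) → Prop}
    (h : Ar (fun v V => Q (v 0) (v 1) (fun i => v (i + 2)) V)) {a b : (ℕ → ℕ) → (ℕ → Set ℕ) → ℕ}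
    {w : ℕ → (ℕ → ℕ) → (ℕ → Set ℕ) → ℕ} (ha : AN a) (hb : AN b) (hw : ∀ i, AN (w i)) :
    Ar (fun v V => Q (a v V) (b v V) (fun i => w i v V) V) :=
  Ar.subst h (f := fc a (fc b w)) (t := fun j _ V => V j)
    (fc_all (p := AN) ha (fc_all (p := AN) hb hw)) (fun j => AS.var j)

/-- the two projections of a sequence of pairs -/
noncomputable def Be5_p1 (t : ℕ) : ℕ := sq (fun i => (en t i).unpair.1) (ln t)
noncomputable def Be5_p2 (t : ℕ) : ℕ := sq (fun i => (en t i).unpair.2) (ln t)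

theorem Be5_an1 (be0 : S_Be0) {f : (ℕ → ℕ) → (ℕ → Set ℕ) → ℕ} (hf : AN f) :
    AN (fun v V => Be5_p1 (f v V)) := by
  have h1 : AN (fun v _ => Be5_p1 (v 0)) :=
    Be5_sq (E := fun i v _ => (en (v 0) i).unpair.1) (N := fun v _ => ln (v 0))
      (AN.fst (AN.s20 (R := en) be0.2.2.2.2.2.2.2.2.2 (AN.var 1) (AN.var 0))) be0.2.2.2.2.2.2.2.1
  exact AN.s10 (R := Be5_p1) h1 hf

theorem Be5_an2 (be0 : S_Be0) {f : (ℕ → ℕ) → (ℕ → Set ℕ) → ℕ} (hf : AN f) :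
    AN (fun v V => Be5_p2 (f v V)) := by
  have h1 : AN (fun v _ => Be5_p2 (v 0)) :=
    Be5_sq (E := fun i v _ => (en (v 0) i).unpair.2) (N := fun v _ => ln (v 0))
      (AN.snd (AN.s20 (R := en) be0.2.2.2.2.2.2.2.2.2 (AN.var 1) (AN.var 0))) be0.2.2.2.2.2.2.2.1
  exact AN.s10 (R := Be5_p2) h1 hf

theorem Be5_s1 (be0 : S_Be0) (f : ℕ → ℕ) (n : ℕ) :
    Be5_p1 (sq f n) = sq (fun i => (f i).unpair.1) n := by
  obtain ⟨h1, -, h3, -, h5, -⟩ := be0
  show sq (fun i => (en (sq f n) i).unpair.1) (ln (sq f n)) = _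
  rw [h1]
  exact h5 _ _ n (fun i hi => by rw [h3 f n i hi])

theorem Be5_s2 (be0 : S_Be0) (f : ℕ → ℕ) (n : ℕ) :
    Be5_p2 (sq f n) = sq (fun i => (f i).unpair.2) n := by
  obtain ⟨h1, -, h3, -, h5, -⟩ := be0
  show sq (fun i => (en (sq f n) i).unpair.2) (ln (sq f n)) = _
  rw [h1]
  exact h5 _ _ n (fun i hi => by rw [h3 f n i hi])

theorem pBe5 (be0 : S_Be0) : S_Be5 := by
  rintro P P' ⟨Q₁, hA₁, hQ₁⟩ ⟨Q₂, hA₂, hQ₂⟩
  obtain ⟨b1, b2, b3, b4, b5, b6, b7, b8, b9, b10⟩ := id be0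
  constructor
  · refine ⟨fun s t v V => Q₁ s (Be5_p1 t) v V ∧ Q₂ s (Be5_p2 t) v V, ?_, ?_⟩
    · exact (Be5_sub hA₁ (AN.var 0) (Be5_an1 be0 (AN.var 1)) (fun i => AN.var (i + 2))).and
        (Be5_sub hA₂ (AN.var 0) (Be5_an2 be0 (AN.var 1)) (fun i => AN.var (i + 2)))
    · intro f₀ v V
      constructor
      · rintro ⟨h1, h2⟩
        obtain ⟨g, hg⟩ := (hQ₁ f₀ v V).1 h1
        obtain ⟨h, hh⟩ := (hQ₂ f₀ v V).1 h2
        refine ⟨fun n => Nat.pair (g n) (h n), fun n => ?_⟩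
        show Q₁ (sq f₀ n) (Be5_p1 _) v V ∧ Q₂ (sq f₀ n) (Be5_p2 _) v V
        rw [Be5_s1 be0, Be5_s2 be0]
        simp only [Nat.unpair_pair]
        exact ⟨hg n, hh n⟩
      · rintro ⟨f₁, hf⟩
        refine ⟨(hQ₁ f₀ v V).2 ⟨fun i => (f₁ i).unpair.1, fun n => ?_⟩,
          (hQ₂ f₀ v V).2 ⟨fun i => (f₁ i).unpair.2, fun n => ?_⟩⟩
        · rw [← Be5_s1 be0]
          exact (hf n).1
        · rw [← Be5_s2 be0]
          exact (hf n).2
  · refine ⟨fun s t v V => 1 ≤ ln t → (((en t 0).unpair.1 = 0 → ∀ m, m ≤ ln t →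
        Q₁ (tc s m) (tc (Be5_p2 t) m) v V) ∧ ((en t 0).unpair.1 ≠ 0 → ∀ m, m ≤ ln t →
        Q₂ (tc s m) (tc (Be5_p2 t) m) v V)), ?_, ?_⟩
    · have hln : ∀ {f : (ℕ → ℕ) → (ℕ → Set ℕ) → ℕ}, AN f → AN (fun v V => ln (f v V)) :=
        fun hf => AN.s10 (R := ln) b8 hf
      have htc : ∀ {f g : (ℕ → ℕ) → (ℕ → Set ℕ) → ℕ}, AN f → AN g → AN (fun v V => tc (f v V) (g v V)) :=
        fun hf hg => AN.s20 (R := tc) b9 hf hg
      have hen : ∀ {f g : (ℕ → ℕ) → (ℕ → Set ℕ) → ℕ}, AN f → AN g → AN (fun v V => en (f v V) (g v V)) :=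
        fun hf hg => AN.s20 (R := en) b10 hf hg
      have key : ∀ {Q : ℕ → ℕ → (ℕ → ℕ) → (ℕ → Set ℕ) → Prop},
          Ar (fun v V => Q (v 0) (v 1) (fun i => v (i + 2)) V) →
          Ar (fun v V => ∀ m, m ≤ ln (v 1) → Q (tc (v 0) m) (tc (Be5_p2 (v 1)) m) (fun i => v (i + 2)) V) := by
        intro Q hQ
        refine Ar.allN (R := fun m v V => m ≤ ln (v 1) →
          Q (tc (v 0) m) (tc (Be5_p2 (v 1)) m) (fun i => v (i + 2)) V) ?_
        refine (Ar.le (AN.var 0) (hln (AN.var 2))).imp ?_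
        exact Be5_sub hQ (htc (AN.var 1) (AN.var 0)) (htc (Be5_an2 be0 (AN.var 2)) (AN.var 0))
          (fun i => AN.var (i + 3))
      refine (Ar.le AN.one (hln (AN.var 1))).imp (Ar.and ?_ ?_)
      · exact (Ar.eqN (AN.fst (hen (AN.var 1) AN.zero)) AN.zero).imp (key hA₁)
      · exact (Ar.neN (AN.fst (hen (AN.var 1) AN.zero)) AN.zero).imp (key hA₂)
    · intro f₀ v V
      constructor
      · rintro (h | h)
        · obtain ⟨g, hg⟩ := (hQ₁ f₀ v V).1 h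
          refine ⟨fun n => Nat.pair 0 (g n), fun n h1 => ?_⟩
          rw [b1] at h1
          rw [Be5_s2 be0, b1, b3 _ n 0 (by omega)]
          simp only [Nat.unpair_pair]
          refine ⟨fun _ m hm => ?_, fun h => absurd rfl h⟩
          rw [b2 f₀ n m hm, b2 _ n m hm]
          exact hg m
        · obtain ⟨g, hg⟩ := (hQ₂ f₀ v V).1 h
          refine ⟨fun n => Nat.pair 1 (g n), fun n h1 => ?_⟩
          rw [b1] at h1
          rw [Be5_s2 be0, b1, b3 _ n 0 (by omega)]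
          simp only [Nat.unpair_pair]
          refine ⟨fun h => absurd h one_ne_zero, fun _ m hm => ?_⟩
          rw [b2 f₀ n m hm, b2 _ n m hm]
          exact hg m
      · rintro ⟨f₁, hf⟩
        by_cases h0 : (f₁ 0).unpair.1 = 0
        · left
          refine (hQ₁ f₀ v V).2 ⟨fun i => (f₁ i).unpair.2, fun m => ?_⟩
          have h := (hf (m + 1) (by rw [b1]; omega)).1 (by rw [b3 _ _ 0 (by omega)]; exact h0) m (by rw [b1]; omega)
          rw [Be5_s2 be0, b2 _ _ m (by omega), b2 _ _ m (by omega)] at h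
          exact h
        · right
          refine (hQ₂ f₀ v V).2 ⟨fun i => (f₁ i).unpair.2, fun m => ?_⟩
          have h := (hf (m + 1) (by rw [b1]; omega)).2 (by rw [b3 _ _ 0 (by omega)]; exact h0) m (by rw [b1]; omega)
          rw [Be5_s2 be0, b2 _ _ m (by omega), b2 _ _ m (by omega)] at h
          exact h

end B8d
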