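import Pool.Agent.Lib.MP_8dbd20_lc.Fi.Be5

/-!
# MP_8dbd20_lc, Fi/Be6: number quantifiers of representable relations (helper7)
-/

set_option linter.unusedVariables false

namespace B8d

/-- the sequence without its first entry -/
noncomputable def Be6_sh (t : ℕ) : ℕ := sq (fun i => en t (i + 1)) (ln t - 1)

theorem Be6_an (be0 : S_Be0) {f : (ℕ → ℕ) → (ℕ → Set ℕ) → ℕ} (hf : AN f) :
    AN (fun v V => Be6_sh (f v V)) := by
  have h1 : AN (fun v _ => Be6_sh (v 0)) :=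
    Be5_sq (E := fun i v _ => en (v 0) (i + 1)) (N := fun v _ => ln (v 0) - 1)
      (AN.s20 (R := en) be0.2.2.2.2.2.2.2.2.2 (AN.var 1) (AN.add (AN.var 0) AN.one))
      (AN.sub be0.2.2.2.2.2.2.2.1 AN.one)
  exact AN.s10 (R := Be6_sh) h1 hf

theorem Be6_s (be0 : S_Be0) (f : ℕ → ℕ) (n : ℕ) (hn : 1 ≤ n) :
    Be6_sh (sq f n) = sq (fun i => f (i + 1)) (n - 1) := by
  obtain ⟨h1, -, h3, -, h5, -⟩ := be0
  show sq (fun i => en (sq f n) (i + 1)) (ln (sq f n) - 1) = _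
  rw [h1]
  exact h5 _ _ (n - 1) (fun i hi => h3 f n (i + 1) (by omega))

theorem pBe6 (be0 : S_Be0) : S_Be6 := by
  rintro P ⟨Q₀, hA, hQ⟩
  obtain ⟨b1, b2, b3, b4, b5, b6, b7, b8, b9, b10⟩ := id be0
  have hln : ∀ {f : (ℕ → ℕ) → (ℕ → Set ℕ) → ℕ}, AN f → AN (fun v V => ln (f v V)) :=
    fun hf => AN.s10 (R := ln) b8 hf
  have htc : ∀ {f g : (ℕ → ℕ) → (ℕ → Set ℕ) → ℕ}, AN f → AN g → AN (fun v V => tc (f v V) (g v V)) :=
    fun hf hg => AN.s20 (R := tc) b9 hf hg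
  have hen : ∀ {f g : (ℕ → ℕ) → (ℕ → Set ℕ) → ℕ}, AN f → AN g → AN (fun v V => en (f v V) (g v V)) :=
    fun hf hg => AN.s20 (R := en) b10 hf hg
  have hsub : ∀ {a b c : (ℕ → ℕ) → (ℕ → Set ℕ) → ℕ} (d : ℕ), AN a → AN b → AN c →
      Ar (fun v V => Q₀ (a v V) (b v V) (nc (c v V) (fun i => v (i + d))) V) := by
    intro a b c d ha hb hc
    refine (Be5_sub hA ha hb (w := fc c (fun i v _ => v (i + d)))
      (fc_all (p := AN) hc (fun i => AN.var (i + d)))).congr (fun v V => ?_)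
    have e : (nc (c v V) (fun i => v (i + d))) =
        fun i => (fc c (fun i v _ => v (i + d)) : ℕ → (ℕ → ℕ) → (ℕ → Set ℕ) → ℕ) i v V := by
      funext i
      rcases i with _ | i
      · rfl
      · rfl
    rw [e]
  constructor
  · refine ⟨fun s t v V => 1 ≤ ln t → ∀ m, m ≤ ln t - 1 →
      Q₀ (tc s m) (tc (Be6_sh t) m) (nc (en t 0) v) V, ?_, ?_⟩
    · refine (Ar.le AN.one (hln (AN.var 1))).imp ?_
      refine Ar.allN (R := fun m v V => m ≤ ln (v 1) - 1 →
        Q₀ (tc (v 0) m) (tc (Be6_sh (v 1)) m) (nc (en (v 1) 0) (fun i => v (i + 2))) V) ?_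
      refine (Ar.le (AN.var 0) (AN.sub (hln (AN.var 2)) AN.one)).imp ?_
      exact hsub 3 (htc (AN.var 1) (AN.var 0)) (htc (Be6_an be0 (AN.var 2)) (AN.var 0))
        (hen (AN.var 2) AN.zero)
    · intro f₀ v V
      constructor
      · rintro ⟨k, h⟩
        obtain ⟨g, hg⟩ := (hQ f₀ (nc k v) V).1 h
        refine ⟨nc k g, fun n h1 m hm => ?_⟩
        rw [b1] at h1 hm
        rw [Be6_s be0 _ n h1, b3 _ n 0 (by omega), b2 f₀ n m (by omega), b2 _ (n - 1) m hm]
        exact hg m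
      · rintro ⟨f₁, hf⟩
        refine ⟨f₁ 0, (hQ f₀ (nc (f₁ 0) v) V).2 ⟨fun i => f₁ (i + 1), fun m => ?_⟩⟩
        have h := hf (m + 1) (by rw [b1]; omega) m (by rw [b1]; omega)
        rw [Be6_s be0 _ (m + 1) (by omega), b3 _ _ 0 (by omega), b2 f₀ _ m (by omega),
          b2 _ (m + 1 - 1) m (by omega)] at h
        exact h
  · refine ⟨fun s t v V => ∀ k m w, m ≤ ln s → ln w = m →
      (∀ i, i < m → Nat.pair k i < ln t ∧ en w i = en t (Nat.pair k i)) →
      Q₀ (tc s m) w (nc k v) V, ?_, ?_⟩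
    · refine Ar.allN (R := fun k v V => ∀ m w, m ≤ ln (v 0) → ln w = m →
        (∀ i, i < m → Nat.pair k i < ln (v 1) ∧ en w i = en (v 1) (Nat.pair k i)) →
        Q₀ (tc (v 0) m) w (nc k (fun i => v (i + 2))) V) ?_
      refine Ar.allN (R := fun m v V => ∀ w, m ≤ ln (v 1) → ln w = m →
        (∀ i, i < m → Nat.pair (v 0) i < ln (v 2) ∧ en w i = en (v 2) (Nat.pair (v 0) i)) →
        Q₀ (tc (v 1) m) w (nc (v 0) (fun i => v (i + 3))) V) ?_
      refine Ar.allN (R := fun w v V => v 0 ≤ ln (v 2) → ln w = v 0 →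
        (∀ i, i < v 0 → Nat.pair (v 1) i < ln (v 3) ∧ en w i = en (v 3) (Nat.pair (v 1) i)) →
        Q₀ (tc (v 2) (v 0)) w (nc (v 1) (fun i => v (i + 4))) V) ?_
      refine (Ar.le (AN.var 1) (hln (AN.var 3))).imp ((Ar.eqN (hln (AN.var 0)) (AN.var 1)).imp
        (Ar.imp ?_ ?_))
      · refine Ar.allN (R := fun i v V => i < v 1 → Nat.pair (v 2) i < ln (v 4) ∧
          en (v 0) i = en (v 4) (Nat.pair (v 2) i)) ?_
        exact (Ar.lt (AN.var 0) (AN.var 2)).imp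
          ((Ar.lt (AN.pair (AN.var 3) (AN.var 0)) (hln (AN.var 5))).and
            (Ar.eqN (hen (AN.var 1) (AN.var 0)) (hen (AN.var 5) (AN.pair (AN.var 3) (AN.var 0)))))
      · exact hsub 5 (htc (AN.var 3) (AN.var 1)) (AN.var 0) (AN.var 2)
    · intro f₀ v V
      constructor
      · intro h
        have h' : ∀ k, ∃ g : ℕ → ℕ, ∀ n, Q₀ (sq f₀ n) (sq g n) (nc k v) V :=
          fun k => (hQ f₀ (nc k v) V).1 (h k)
        choose g hg using h'
        refine ⟨fun x => g x.unpair.1 x.unpair.2, fun n k m w hm hw hi => ?_⟩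
        rw [b1] at hm
        have hwe : w = sq (g k) m := by
          rw [← b4 w, hw]
          refine b5 _ _ m (fun i him => ?_)
          obtain ⟨h1, h2⟩ := hi i him
          rw [b1] at h1
          rw [h2, b3 _ n _ h1]
          simp only [Nat.unpair_pair]
        rw [b2 f₀ n m hm, hwe]
        exact hg k m
      · rintro ⟨f₁, hf⟩ k
        refine (hQ f₀ (nc k v) V).2 ⟨fun i => f₁ (Nat.pair k i), fun m => ?_⟩
        have hlt : ∀ i, i < m → Nat.pair k i < Nat.pair k m := fun i hi => Nat.pair_lt_pair_right k hi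
        have h := hf (Nat.pair k m + m) k m (sq (fun i => f₁ (Nat.pair k i)) m) (by rw [b1]; omega)
          (b1 _ _) (fun i hi => by
            have h3 := hlt i hi
            refine ⟨by rw [b1]; omega, ?_⟩
            rw [b3 _ m i hi, b3 _ _ _ (by omega)])
        rw [b2 f₀ _ m (by omega)] at h
        exact h

end B8d
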