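import Pool.Agent.Lib.MP_8dbd20_lc.Fi.Be5

/-!
# MP_8dbd20_lc, Fi/Be7: Kleene normal form (helper7)
-/

set_option linter.unusedVariables false

namespace B8d

theorem Be7_congr {P P' : (ℕ → ℕ) → (ℕ → ℕ) → (ℕ → Set ℕ) → Prop} (h : Rep P)
    (e : ∀ f₀ v V, P' f₀ v V ↔ P f₀ v V) : Rep P' := by
  obtain ⟨Q, hA, hQ⟩ := h
  exact ⟨Q, hA, fun f₀ v V => (e f₀ v V).trans (hQ f₀ v V)⟩

theorem Be7_ind (be4 : S_Be4) (be5 : S_Be5) (be6 : S_Be6) (φ : F) : φ.arith →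
    Rep (fun f₀ v V => eval ∅ ∅ φ v (sc {k | f₀ k ≠ 0} V)) ∧
    Rep (fun f₀ v V => ¬ eval ∅ ∅ φ v (sc {k | f₀ k ≠ 0} V)) := by
  induction φ with
  | fls =>
    intro _
    exact ⟨be4.1 _ Ar.fls, be4.1 _ Ar.fls.not⟩
  | add i j k =>
    intro _
    exact ⟨be4.1 _ (Ar.addv i j k), be4.1 _ (Ar.addv i j k).not⟩
  | mul i j k =>
    intro _
    exact ⟨be4.1 _ (Ar.mulv i j k), be4.1 _ (Ar.mulv i j k).not⟩
  | mem i j =>
    intro _
    rcases j with _ | j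
    · exact ⟨Be7_congr (be4.2.1 i) (fun f₀ v V => Iff.rfl),
        Be7_congr (be4.2.2 i) (fun f₀ v V => not_not)⟩
    · exact ⟨be4.1 _ (Ar.memv i j), be4.1 _ (Ar.memv i j).not⟩
  | cc j => intro h; exact h.elim
  | neg φ ih =>
    intro h
    exact ⟨(ih h).2, Be7_congr (ih h).1 (fun f₀ v V => not_not)⟩
  | and φ ψ ih1 ih2 =>
    intro h
    refine ⟨(be5 _ _ (ih1 h.1).1 (ih2 h.2).1).1,
      Be7_congr (be5 _ _ (ih1 h.1).2 (ih2 h.2).2).2 (fun f₀ v V => ?_)⟩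
    exact not_and_or
  | allN φ ih =>
    intro h
    exact ⟨(be6 _ (ih h).1).2, Be7_congr (be6 _ (ih h).2).1 (fun f₀ v V => not_forall)⟩
  | allS φ ih => intro h; exact h.elim

theorem pBe7 (be0 : S_Be0) (be4 : S_Be4) (be5 : S_Be5) (be6 : S_Be6) : S_Be7 := by
  rintro R ⟨φ, ha, hφ⟩
  obtain ⟨Q, hA, hQ⟩ := (Be7_ind be4 be5 be6 φ ha).1
  refine ⟨fun x v V => Q (Be5_p1 x) (Be5_p2 x) v V, ?_, fun v V => ⟨?_, ?_⟩⟩
  · exact Be5_sub hA (Be5_an1 be0 (AN.var 0)) (Be5_an2 be0 (AN.var 0)) (fun i => AN.var (i + 1))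
  · rintro ⟨X, hX⟩
    classical
    have hset : {k | (if k ∈ X then 1 else 0 : ℕ) ≠ 0} = X := by
      ext k
      by_cases h : k ∈ X
      · simp [h]
      · simp [h]
    obtain ⟨f₁, hf⟩ := (hQ (fun k => if k ∈ X then 1 else 0) v V).1 (by
      show eval ∅ ∅ φ v (sc {k | (if k ∈ X then 1 else 0 : ℕ) ≠ 0} V)
      rw [hset]
      exact (hφ v (sc X V)).1 hX)
    refine ⟨fun n => Nat.pair (if n ∈ X then 1 else 0) (f₁ n), fun n => ?_⟩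
    show Q (Be5_p1 _) (Be5_p2 _) v V
    rw [Be5_s1 be0, Be5_s2 be0]
    simp only [Nat.unpair_pair]
    exact hf n
  · intro f hf
    refine (hφ v _).2 ((hQ (fun k => (f k).unpair.1) v V).2 ⟨fun k => (f k).unpair.2, fun n => ?_⟩)
    rw [← Be5_s1 be0, ← Be5_s2 be0]
    exact hf n

end B8d
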