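import Pool.Agent.Lib.MP_8dbd20_lc.Fi.Spec

/-!
# MP_8dbd20_lc, Fi, Be8: β-ness
-/

set_option linter.unusedVariables false

namespace B8d

private theorem Be8_arc {K : Set (Set ℕ)} (h : Mod2 K) : ArClosed K := by
  intro R hR v V hV
  obtain ⟨φ, ha, hφ⟩ := hR
  have h1 := h.2 φ v V hV
  have h2 : {n | R (nc n v) V} = {n | eval K ∅ φ (nc n v) V} := by
    ext n
    exact (hφ _ _).trans (eval_arith ha _ _ _ _ _ _)
  rw [h2]
  exact h1

private theorem Be8_tc (be0 : S_Be0) (x a m : ℕ) (hm : m ≤ ln x) : tc (ch x a) m = tc x m := by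
  obtain ⟨h1, h2, h3, h4, h5, -⟩ := be0
  obtain ⟨f, n, rfl⟩ : ∃ f n, x = sq f n := ⟨en x, ln x, (h4 x).symm⟩
  rw [h1] at hm
  have e1 : ch (sq f n) a = sq (fun i => if i = n then a else f i) (n + 1) := by
    have e2 : sq (fun i => if i = n then a else f i) (n + 1) =
        ch (sq (fun i => if i = n then a else f i) n) (if n = n then a else f n) := rfl
    rw [e2, if_pos rfl]
    congr 1
    exact h5 _ _ _ (fun i hi => by rw [if_neg (by omega)])
  rw [e1, h2 _ _ _ (by omega), h2 _ _ _ hm]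
  exact h5 _ _ _ (fun i hi => by rw [if_neg (by omega)])

theorem pBe8 (l0b : S_L0b) (lemE : S_LemE) (be0 : S_Be0) (be1 : S_Be1) (be2 : S_Be2)
    (be3 : S_Be3) (be7 : S_Be7) : S_Be8 := by
  intro M U C K hKH hM R hR v V hV hex
  obtain ⟨hU, hUK, hK2, hpres, hnl⟩ := hKH
  have hK := Be8_arc hK2
  obtain ⟨Q, hQ, hQQ⟩ := be7 R hR
  obtain ⟨f, hf⟩ := (hQQ v V).1 hex
  -- the tree
  obtain ⟨T, hTd⟩ : ∃ T : Set ℕ, T = {x | ∀ m, m ≤ ln x → Q (tc x m) v V} := ⟨_, rfl⟩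
  have hTm : ∀ x, x ∈ T ↔ ∀ m, m ≤ ln x → Q (tc x m) v V := fun x => by rw [hTd]; exact Iff.rfl
  have hTK : T ∈ K := by
    have har : Ar (fun v V => ∀ m, m ≤ ln (v 0) → Q (tc (v 0) m) (fun i => v (i + 1)) V) := by
      refine Ar.allN (R := fun m v V => m ≤ ln (v 0) → Q (tc (v 0) m) (fun i => v (i + 1)) V) ?_
      refine (Ar.le (AN.var 0) (AN.s10 (R := ln) be0.2.2.2.2.2.2.2.1 (AN.var 1))).imp ?_
      have h1 := Ar.subst hQ (f := fc (fun v _ => tc (v 1) (v 0)) (fun i v _ => v (i + 2)))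
        (t := fun j _ V => V j)
        (fc_all (p := AN) (AN.s20 (R := tc) be0.2.2.2.2.2.2.2.2.1 (AN.var 1) (AN.var 0))
          (fun i => AN.var (i + 2))) (fun j => AS.var j)
      exact h1
    have h2 := hK _ har v V hV
    rw [hTd]
    exact h2
  have hTcl : ∀ x a, ch x a ∈ T → x ∈ T := by
    intro x a h
    rw [hTm] at h ⊢
    intro m hm
    have h1 := h m (by rw [(be0.2.2.2.2.2.1 x a).1]; omega)
    rw [Be8_tc be0 x a m hm] at h1
    exact h1
  have hTf : ∀ n, sq f n ∈ T := by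
    intro n
    rw [hTm]
    intro m hm
    rw [be0.1] at hm
    rw [be0.2.1 _ _ _ hm]
    exact hf m
  have hKB : KB T ∈ K := be1.2.1.closed hK (fun _ => 0) (fun _ => T) (fun _ => hTK)
  have hlin := be1.1 T
  by_cases hg : ∃ g ∈ K, Desc g (KB T)
  · obtain ⟨g, hgK, hgD⟩ := hg
    obtain ⟨f', hf'K, hf'T⟩ := be3 K hK T hTK hTcl g hgK hgD
    have hQ' : ∀ n, Q (sq f' n) v V := by
      intro n
      have h1 := (hTm _).1 (hf'T n) n (by rw [be0.1])
      rw [be0.2.1 _ _ _ le_rfl] at h1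
      exact h1
    refine ⟨{k | (f' k).unpair.1 ≠ 0}, ?_, (hQQ v V).2 f' hQ'⟩
    have has : AS (fun _ V => {k | ∃ y, Nat.pair k y ∈ V 0 ∧ y.unpair.1 ≠ 0}) := by
      refine AS.setOf (R := fun k _ V => ∃ y, Nat.pair k y ∈ V 0 ∧ y.unpair.1 ≠ 0) ?_
      refine Ar.exN (R := fun y v V => Nat.pair (v 0) y ∈ V 0 ∧ y.unpair.1 ≠ 0) ?_
      exact (Ar.mem (AN.pair (AN.var 1) (AN.var 0)) (AS.var 0)).and
        (Ar.neN (AN.fst (AN.var 0)) (AN.const 0))
    have h1 := has.closed hK (fun _ => 0) (fun _ => gr f') (fun _ => hf'K)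
    have h2 : {k | (f' k).unpair.1 ≠ 0} =
        {k | ∃ y, Nat.pair k y ∈ gr f' ∧ y.unpair.1 ≠ 0} := by
      ext k
      simp only [Set.mem_setOf_eq, gr, Nat.unpair_pair]
      constructor
      · intro h
        exact ⟨f' k, rfl, h⟩
      · rintro ⟨y, rfl, h⟩
        exact h
    rw [h2]
    exact h1
  · exfalso
    have hno : ∀ g ∈ K, ¬ Desc g (KB T) := fun g h1 h2 => hg ⟨g, h1, h2⟩
    obtain ⟨Z, hZU, hHC, h, hhK, h1, h2, h3⟩ := lemE M U C hU K hUK hK2 hpres hnl (KB T) hKB hlin hno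
    have hD := be2 T f hTf
    have hinj : ∀ i j, Nat.pair i i ∈ KB T → Nat.pair j j ∈ KB T → h i = h j → i = j := by
      intro i j hi hj he
      have e1 : Nat.pair (h i) (h i) ∈ sec Z 0 := (h2 i i hi hi).1 hi
      have e2 : Nat.pair (h i) (h j) ∈ sec Z 0 := by rw [← he]; exact e1
      have e3 : Nat.pair (h j) (h i) ∈ sec Z 0 := by rw [← he]; exact e1
      exact hlin.2.1 i j ((h2 i j hi hj).2 e2) ((h2 j i hj hi).2 e3)
    have hgr : ∀ k x, Nat.pair k x ∈ gr (sq f) ↔ x = sq f k := by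
      intro k x
      simp only [gr, Set.mem_setOf_eq, Nat.unpair_pair]
    have hDZ : Desc (gr (fun k => h (sq f k))) (sec Z 0) := by
      refine ⟨fun k => ⟨h (sq f k), by simp only [gr, Set.mem_setOf_eq, Nat.unpair_pair]⟩, ?_⟩
      intro k x y hx hy
      simp only [gr, Set.mem_setOf_eq, Nat.unpair_pair] at hx hy
      subst hx hy
      obtain ⟨a1, a2⟩ := hD.2 k (sq f k) (sq f (k + 1)) ((hgr _ _).2 rfl) ((hgr _ _).2 rfl)
      obtain ⟨b1, b2⟩ := hlin.1 _ _ a1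
      refine ⟨(h2 _ _ b1 b2).1 a1, fun he => a2 (hinj _ _ b1 b2 he)⟩
    have har : Ar (fun _ V => Desc (V 0) (sec (V 1) 0)) :=
      Ar.s02 (R := Desc) l0b.2.2.1 (AS.var 0) (AS.sec (AS.var 1) (AN.const 0))
    obtain ⟨X, hXM, hX⟩ := hM _ har (fun _ => 0) (fun _ => Z) (fun _ => hU.um hZU)
      ⟨gr (fun k => h (sq f k)), hDZ⟩
    exact hHC.2 X hXM hX

end B8d
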