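import Pool.Agent.Lib.MP_8dbd20_lc.Br.Spec
import Pool.Agent.Lib.Z2.Fo.SpecC

/-! C45: the bridge `S_Brg` used in the proof of the choice scheme (MP_8dbd20_lc) -/

set_option linter.unusedVariables false

namespace B8d

open Pool.Agent.Lib.Z2 (Str Dfn DF Fm IsZ2 IsBeta HasAC HasPi12DC Node inn Cond IsI NT NN gen Uni Gen sg tr)

private theorem Brg_ar {M : Set (Set ℕ)} (hM : Mod2 M) : ArClosed M := by
  rintro R ⟨φ, ha, hφ⟩ v V hV
  have h := hM.2 φ v V hV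
  have e : {n | R (nc n v) V} = {n | eval M ∅ φ (nc n v) V} := by
    ext n
    simp only [Set.mem_ofPred_eq]
    exact (hφ _ _).trans (eval_arith ha _ _ _ _ _ _)
  rw [e]; exact h

theorem pBrg (br5 : S_Br5) (br6 : S_Br6) (br8 : S_Br8) : Pool.Agent.Lib.Z2.S_Brg := by
  intro M hne hM
  have hM2 : Mod2 M := (br8 M hne).1.1 hM
  have hG : Good M ∅ := ⟨Set.empty_subset _, hne, Brg_ar hM2⟩
  refine ⟨br5 M ∅ hG, fun P hP => ?_⟩
  obtain ⟨ψ, A, hA, h⟩ := (br6 M ∅ hG).1 P hP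
  have h2 := hM2.2 ψ (fun _ => 0) (fun _ => A) (fun _ => hA)
  have e : {n | P n} = {n | eval M ∅ ψ (nc n fun _ => 0) (fun _ => A)} := by
    ext n; exact h n
  rw [e]; exact h2

end B8d
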