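import Pool.Agent.Lib.MP_8dbd20_lc.Fi.Un
import Pool.Agent.Lib.MP_8dbd20_lc.Br.Br3
import Pool.Agent.Lib.MP_8dbd20_lc.Br.Br4
import Pool.Agent.Lib.MP_8dbd20_lc.Hi.L0b

/-!
# MP_8dbd20_lc: the canonical Cohen reals are definable over every good structure
-/

namespace B8d

open Pool.Agent.Lib.Z2 (Str Dfn DF)

theorem pdfnGam (h4 : S_Br4) (h0 : S_L0b) : S_dfnGam := by
  intro S _
  have h : Ar (fun v V => v 0 ∈ Gam (V 0)) := Ar.mem (AN.var 0) h0.2.2.2.2.2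
  exact h4 S _ h (fun x : ℕ × Set ℕ => fun _ => x.1) (fun x : ℕ × Set ℕ => fun _ => x.2)
    (fun _ => Pool.Agent.Lib.Z2.Smp.id.fst.df) (fun _ => Pool.Agent.Lib.Z2.Smp.id.snd.df)

end B8d
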