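import Pool.Agent.Lib.MP_8dbd20_lc.Fi.Spec

/-! C45, block Fi: Fi0 (MP_8dbd20_lc) -/

set_option linter.unusedVariables false

namespace B8d

open Pool.Agent.Lib.Z2 (sg tr)

/-- append an element to a coded list -/
private def Fi0_app (w : ℕ) : ℕ :=
  Encodable.encode (((Encodable.decode (α := List ℕ) w.unpair.1).getD []) ++ [w.unpair.2])

private theorem Fi0_prim : Primrec Fi0_app := by
  refine Primrec.encode.comp ?_
  refine Primrec.list_append.comp ?_ ?_
  · exact Primrec.option_getD.comp (Primrec.decode.comp Pool.Agent.Lib.Z2.prim_left) (Primrec.const [])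
  · exact Primrec.list_cons.comp Pool.Agent.Lib.Z2.prim_right (Primrec.const [])

theorem pFi0 (br1 : S_Br1) : S_Fi0 := by
  have h1 : ∀ g : ℕ → ℕ, Primrec g → AN (fun v _ => g (v 0)) := by
    intro g hg
    obtain ⟨c, hc⟩ := Pool.Agent.Lib.Z2.exists_code_nat hg
    refine (br1 c).congr (fun v V => ?_)
    rw [hc]
    exact Part.mem_some_iff.symm
  refine ⟨h1, ?_⟩
  classical
  have h2 : AN (fun v V => Encodable.encode (tr (V 0) (v 0))) := by
    have h3 : AN (fun v V => Nat.rec (motive := fun _ => ℕ) (Encodable.encode ([] : List ℕ))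
        (fun n x => if n ∈ V 0 then Fi0_app (Nat.pair x n) else x) (v 0)) := by
      refine AN.natRec (a := fun _ _ => Encodable.encode ([] : List ℕ))
        (h := fun n x v V => if n ∈ V 0 then Fi0_app (Nat.pair x n) else x) (k := fun v _ => v 0)
        (AN.const _) ?_ (AN.var 0)
      refine AN.ite (c := fun v V => v 0 ∈ V 0) (Ar.mem (AN.var 0) (AS.var 0)) ?_ (AN.var 1)
      exact AN.s10 (R := Fi0_app) (h1 _ Fi0_prim) (AN.pair (AN.var 1) (AN.var 0))
    refine h3.congr (fun v V => ?_)
    generalize v 0 = k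
    induction k with
    | zero => simp [tr]
    | succ k ih =>
      have e : tr (V 0) (k + 1) = if k ∈ V 0 then tr (V 0) k ++ [k] else tr (V 0) k := by
        simp only [tr, List.range_succ, List.filter_append]
        split_ifs with h
        · simp [h]
        · simp [h]
      show Encodable.encode (tr (V 0) (k + 1)) = if k ∈ V 0 then Fi0_app (Nat.pair (Nat.rec _ _ k) k) else Nat.rec _ _ k
      rw [e, ← ih]
      split_ifs with h
      · simp [Fi0_app]
      · rfl
  have h4 : AN (fun v V => Encodable.encode (tr (V 1) (v 0))) :=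
    h2.ren (fun i => i) (fun j => j + 1)
  exact AN.pair (AN.var 0) (AN.pair h2 h4)

end B8d
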