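import Pool.Agent.Lib.MP_8dbd20_lc.Fi.Spec

set_option linter.unusedVariables false

namespace B8d

open Pool.Agent.Lib.Z2 (sg)

theorem Fi1_Bd : Ar (fun _ V => Bd (V 0)) := by
  show Ar (fun _ V => ∃ b, ∀ k, k ∈ V 0 → k < b)
  aesop (config := { enableSimp := false })

theorem Fi1_bad (l0b : S_L0b) (fi0 : S_Fi0) : AS (fun _ V => bad (V 0) (V 1) (V 2)) := by
  refine AS.setOf (R := fun k _ V => k ∈ V 2 ∧ sg k (V 2) (V 1) ∈ Gam (V 0)) ?_
  refine Ar.and (Ar.memv 0 2) (Ar.mem ?_ l0b.2.2.2.2.2)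
  exact AN.s12 (R := fun k z y => sg k z y) fi0.2 (AN.var 0) (AS.var 2) (AS.var 1)

theorem Fi1_badt (l0b : S_L0b) (fi0 : S_Fi0) {s t u : (ℕ → ℕ) → (ℕ → Set ℕ) → Set ℕ}
    (hs : AS s) (ht : AS t) (hu : AS u) : Ar (fun v V => Bd (bad (s v V) (t v V) (u v V))) :=
  Ar.s01 (R := Bd) Fi1_Bd (AS.s03 (R := bad) (Fi1_bad l0b fi0) hs ht hu)

theorem Fi1_AA (l0 : S_L0) (l0b : S_L0b) (fi0 : S_Fi0) :
    Ar (fun _ V => AA (V 0) (V 1) (V 2) (V 3)) := by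
  refine Ar.or ?_ (Ar.or (Ar.not l0) ?_)
  · exact Ar.s02 (R := Desc) l0b.2.2.1 (AS.var 1) (AS.sec (AS.var 0) (AN.const 0))
  · refine Ar.allN (R := fun i _ V => i ∈ fld (V 0) →
      Bd (bad (sec (V 0) (i + 1)) (V 2) (V 3))) ?_
    refine Ar.imp ?_ ?_
    · show Ar (fun v V => Nat.pair (v 0) (v 0) ∈ sec (V 0) 0)
      aesop (config := { enableSimp := false })
    · refine Fi1_badt l0b fi0 ?_ (AS.var 2) (AS.var 3)
      aesop (config := { enableSimp := false })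

theorem pFi1 (l0 : S_L0) (l0b : S_L0b) (fi0 : S_Fi0) : S_Fi1 := by
  have hsec : ∀ i n : ℕ, AS (fun _ V => sec (V i) n) := fun i n => AS.sec (AS.var i) (AN.const n)
  have hA := Fi1_AA l0 l0b fi0
  have hAt : ∀ a b c d a' b' c' d' : ℕ,
      Ar (fun _ V => AA (sec (V a) a') (sec (V b) b') (sec (V c) c') (sec (V d) d')) :=
    fun a b c d a' b' c' d' =>
      Ar.s04 (R := AA) hA (hsec a a') (hsec b b') (hsec c c') (hsec d d')
  have hBd : ∀ i n : ℕ, Ar (fun _ V => Bd (sec (V i) n)) := fun i n =>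
    Ar.s01 (R := Bd) Fi1_Bd (hsec i n)
  refine Ar.and (hBd 2 1).not (Ar.and (hAt 1 0 2 2 0 0 0 1) (Ar.or ?_ (Ar.or (hBd 3 1) ?_)))
  · exact Ar.and (Ar.eqS (hsec 2 0) (hsec 3 1)) (Ar.and (hBd 3 1).not (hAt 1 0 3 3 1 1 0 1))
  · refine Ar.and ?_ (Ar.and (Ar.not ?_) ?_)
    · exact Ar.s01 (R := Local) l0 (hsec 2 2)
    · exact Ar.s02 (R := Desc) l0b.2.2.1 (hsec 1 2) (AS.sec (hsec 2 2) (AN.const 0))
    · refine Ar.exN (R := fun i _ V => i ∈ fld (sec (V 2) 2) ∧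
        ¬ Bd (bad (sec (sec (V 2) 2) (i + 1)) (sec (V 3) 0) (sec (V 3) 1))) ?_
      refine Ar.and ?_ (Ar.not ?_)
      · show Ar (fun v V => Nat.pair (v 0) (v 0) ∈ sec (sec (V 2) 2) 0)
        aesop (config := { enableSimp := false })
      · refine Fi1_badt l0b fi0 ?_ (hsec 3 0) (hsec 3 1)
        aesop (config := { enableSimp := false })

end B8d
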