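import Pool.Agent.Lib.MP_8dbd20_lc.Fi.Spec

/-!
# MP_8dbd20_lc, `Fi/Fi10`: height
-/

set_option linter.unusedVariables false

namespace B8d

open Pool.Agent.Lib.Z2 (Cond)

private theorem Fi10_desc {R : Set ℕ} (h : CodesWO R) (f : Set ℕ) : ¬ Desc f R := by
  rintro ⟨h1, h2⟩
  obtain ⟨i, ⟨k, hk⟩, hi⟩ := h.2 {x | ∃ k, Nat.pair k x ∈ f} (by
    obtain ⟨x, hx⟩ := h1 0
    exact ⟨x, 0, hx⟩) (by
    rintro i ⟨k, hk⟩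
    obtain ⟨y, hy⟩ := h1 (k + 1)
    exact (h.1.1 _ _ (h2 k i y hk hy).1).2)
  obtain ⟨y, hy⟩ := h1 (k + 1)
  have h3 := h2 k i y hk hy
  exact h3.2 (h.1.2.1 _ _ h3.1 (hi y ⟨k + 1, hy⟩))

theorem pFi10 (lemE : S_LemE) (fi3 : S_Fi3) : S_Fi10 := by
  intro M U C G hS R hR hWO
  obtain ⟨k1, k2, k3, k4, k5⟩ := fi3 M U C G hS
  obtain ⟨Z, hZ, hHC, h, -, h1, h2, h3⟩ := lemE M U C k1 _ k2 k3 k4 k5 R hR hWO.1
    (fun f _ => Fi10_desc hWO f)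
  have hZM : sec Z 0 ∈ M := by
    obtain ⟨c, hc, hZc⟩ := k1.uSs Z hZ
    have hAS : AS (fun _ V => sec (V 0) 0) := by
      aesop (config := { enableSimp := false })
    exact k1.um (k1.ssU c hc (AS.closed hAS (k1.ssAr c hc) (fun _ => 0) (fun _ => Z)
      (fun _ => hZc)))
  refine ⟨sec Z 0, hZM, ⟨hHC.1.1, ?_⟩, h, h1, h2, h3⟩
  intro A hA hAf
  obtain ⟨i, ⟨hi1, hi2⟩, hi3⟩ := hWO.2 {i | Nat.pair i i ∈ R ∧ h i ∈ A} (by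
    obtain ⟨a, ha⟩ := hA
    obtain ⟨i, hi, rfl⟩ := h3 a (hAf a ha)
    exact ⟨i, hi, ha⟩) (fun i hi => hi.1)
  refine ⟨h i, hi2, fun j hj => ?_⟩
  obtain ⟨i', hi', rfl⟩ := h3 j (hAf j hj)
  exact (h2 i i' hi1 hi').1 (hi3 i' ⟨hi', hj⟩)

end B8d
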