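import Pool.Agent.Lib.MP_8dbd20_lc.Fi.Spec

/-! # MP_8dbd20_lc, block Fi: `S_Fi11`, the assembly -/

namespace B8d

open Pool.Agent.Lib.Z2 (Str Dfn DF Fm IsZ2 IsBeta HasAC HasPi12DC Node inn Cond IsI NT NN gen Uni Gen sg tr)

theorem pFi11 (br8 : S_Br8) (lS : S_LS) (univ : S_Univ) (fi3 : S_Fi3) (fi8 : S_Fi8)
    (fi9 : S_Fi9) (fi10 : S_Fi10) (be8 : S_Be8) (zGenEx : Pool.Agent.Lib.Z2.S_GenEx)
    (zTriv : Pool.Agent.Lib.Z2.S_Triv) (zZ2 : Pool.Agent.Lib.Z2.S_Z2)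
    (zAc : Pool.Agent.Lib.Z2.S_Ac) : S_Fi11 := by
  intro hU M hMne hMz
  have hM2 : Mod2 M := (br8 M hMne).1.1 hMz
  obtain ⟨M', hsub, hcnt, hM2', hbet⟩ := lS M hM2
  have hu : Univ M' (UM M') (CM M') := univ M' hM2'
  have huc : (UM M').Countable := hcnt.mono hu.um
  have huni : Uni (SU (UM M') (CM M')) Gam := fi9 M' (UM M') (CM M') hu huc
  haveI : GoodS (SU (UM M') (CM M')) := hu.good
  obtain ⟨G, hG, -⟩ := zGenEx (SU (UM M') (CM M')) Gam huni Pool.Agent.Lib.Z2.triv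
    (zTriv (SU (UM M') (CM M')) Gam).1
  have hedges : Edges (UM M') (CM M') G := hU M' (UM M') (CM M') G hu huni hG
  have hsit : Sit M' (UM M') (CM M') G := ⟨hu, huni, hG, hedges⟩
  have hkh : KH M' (UM M') (CM M') (NN (SU (UM M') (CM M')) G) := fi3 M' _ _ G hsit
  have hNne : (NN (SU (UM M') (CM M')) G).Nonempty := hkh.2.2.1.1
  refine ⟨NN (SU (UM M') (CM M')) G, hNne, zZ2 _ Gam huni G hG, zAc _ Gam huni G hG,
    fi8 M' _ _ G hsit, ?_, ?_⟩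
  · intro hb
    have h1 : BetaI M := (br8 M hMne).2.1 hb
    have h2 : BetaI M' := hbet h1
    exact (br8 _ hNne).2.2 (be8 M' _ _ _ hkh h2)
  · intro R hR hwo
    obtain ⟨R', hR', h1, h2⟩ := fi10 M' _ _ G hsit R hR hwo
    exact ⟨R', hsub hR', h1, h2⟩

end B8d
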