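import Pool.Agent.Lib.MP_8dbd20_lc.Fi.Spec2

/-!
# MP_8dbd20_lc, `Fi/Fi12`: the well-orders of the generic model
-/

set_option linter.unusedVariables false

namespace B8d

open Pool.Agent.Lib.Z2 (NN)

theorem tFi12 (h3 : S_Fi3) (hE : S_LemE) (hU : S_E5U) : S_Fi12 := by
  intro M U C G hS R hR hl hd
  obtain ⟨hv, hsub, hM2, hpr, hnl⟩ := h3 M U C G hS
  obtain ⟨Z, hZ, hZc, h, hg, h1, h2, h4⟩ := hE M U C hv _ hsub hM2 hpr hnl R hR hl hd
  obtain ⟨hac, -⟩ := hU M U C hv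
  refine ⟨sec Z 0, ?_, hZc.1.1, hZc.2, h, hg, h1, h2, h4⟩
  have h5 : AS (fun _ V => sec (V 0) 0) := by
    unfold sec
    aesop (config := { enableSimp := false })
  exact h5.closed hac (fun _ => 0) (fun _ => Z) (fun _ => hZ)

end B8d
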