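import Pool.Agent.Lib.MP_8dbd20_lc.Fi.Spec2

/-!
# MP_8dbd20_lc, `Fi/Fi13`: the final theorem from the statements of the blocks
-/

set_option linter.unusedVariables false

namespace B8d

open Pool.Agent.Lib.Z2 (Str Dfn DF Fm IsZ2 IsBeta HasAC HasPi12DC Node inn Cond IsI NT NN gen Uni Gen
  sg tr Nm evl triv)

/-- no descending sequence in an elementary submodel implies no descending sequence in the model -/
theorem Fi13_desc (l0b : S_L0b) {M M' : Set (Set ℕ)} (hsub : M' ⊆ M)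
    (hel : ∀ (φ : F) (v : ℕ → ℕ) (V : ℕ → Set ℕ), (∀ i, V i ∈ M') →
      (eval M' ∅ φ v V ↔ eval M ∅ φ v V)) {R : Set ℕ} (hR : R ∈ M')
    (hd : ∀ f ∈ M', ¬ Desc f R) : ∀ f ∈ M, ¬ Desc f R := by
  obtain ⟨-, -, ⟨φ, ha, hφ⟩, -⟩ := l0b
  have key : ∀ (K : Set (Set ℕ)), eval K ∅ (.allS (.neg φ)) (fun _ => 0) (fun _ => R) ↔
      ∀ f ∈ K, ¬ Desc f R := by
    intro K
    refine forall_congr' fun f => forall_congr' fun hf => not_congr ?_
    have h1 := hφ (fun _ => 0) (sc f (fun _ => R))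
    have h2 := eval_arith ha K ∅ ∅ ∅ (fun _ => 0) (sc f (fun _ => R))
    exact h2.trans h1.symm
  exact (key M).1 ((hel _ _ _ (fun _ => hR)).1 ((key M').2 hd))

theorem tFi13 (br8 : S_Br8) (ls : S_LS2) (huni : S_Univ) (f9 : S_Fi9) (f3 : S_Fi3) (be8 : S_Be8)
    (f8 : S_Fi8) (f12 : S_Fi12) (l0b : S_L0b) (tv : Pool.Agent.Lib.Z2.S_Triv)
    (ge : Pool.Agent.Lib.Z2.S_GenEx) (z2 : Pool.Agent.Lib.Z2.S_Z2) (ac : Pool.Agent.Lib.Z2.S_Ac)
    (nms : Pool.Agent.Lib.Z2.S_Nms) : S_Fi13 := by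
  intro hUn M hne hM
  have hM2 : Mod2 M := ((br8 M hne).1).1 hM
  obtain ⟨M', hsub, hcnt, hM2', hbe, hel⟩ := ls M hM2
  have hU := huni M' hM2'
  have hUc : (UM M').Countable := hcnt.mono hU.um
  have hS := f9 M' _ _ hU hUc
  have : Pool.Agent.Lib.Z2.Good (SU (UM M') (CM M')) := hU.good
  obtain ⟨G, hG, -⟩ := ge (SU (UM M') (CM M')) Gam hS triv (tv _ Gam).1
  have hE := hUn M' _ _ G hU hS hG
  have sit : Sit M' (UM M') (CM M') G := ⟨hU, hS, hG, hE⟩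
  have hKH := f3 _ _ _ _ sit
  set N := NN (SU (UM M') (CM M')) G with hN
  have hNne : N.Nonempty := hKH.2.2.1.1
  refine ⟨N, hNne, ?_, z2 _ Gam hS G hG, ac _ Gam hS G hG, f8 _ _ _ _ sit, ?_, ?_⟩
  · refine (hUc.image (evl (SU (UM M') (CM M')) G)).mono ?_
    rintro X ⟨σ, hσ, rfl⟩
    exact ⟨σ, hσ.1, rfl⟩
  · intro hb
    exact ((br8 N hNne).2).2 (be8 _ _ _ _ hKH (hbe (((br8 M hne).2).1 hb)))
  · intro R hR hl hd
    obtain ⟨R', hR', hl', hd', h, hg, hi⟩ := f12 _ _ _ _ sit R hR hl hd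
    exact ⟨R', hsub (hU.um hR'), hKH.2.1 hR', hl',
      Fi13_desc l0b hsub hel (hU.um hR') hd', h, hg, hi⟩

end B8d
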