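import Pool.Agent.Lib.MP_8dbd20_lc.Fi.Spec

set_option linter.unusedVariables false

namespace B8d

theorem Fi2_arc {M : Set (Set ℕ)} (h : Mod2 M) : ArClosed M := by
  rintro R ⟨φ, ha, hφ⟩ v V hV
  have h1 := h.2 φ v V hV
  have e : {n | R (nc n v) V} = {n | eval M ∅ φ (nc n v) V} := by
    ext n
    exact (hφ _ _).trans (eval_arith ha _ _ _ _ _ _)
  rw [e]
  exact h1

theorem Fi2_sec {K : Set (Set ℕ)} (hK : ArClosed K) {Z : Set ℕ} (hZ : Z ∈ K) (i : ℕ) :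
    sec Z i ∈ K := by
  have h1 : AS (fun v V => sec (V 0) (v 0)) := by aesop (config := { enableSimp := false })
  exact AS.closed h1 hK (fun _ => i) (fun _ => Z) (fun _ => hZ)

theorem Fi2_join {K : Set (Set ℕ)} (hK : ArClosed K) {P Q R : Set ℕ} (hP : P ∈ K) (hQ : Q ∈ K)
    (hR : R ∈ K) : ∃ A ∈ K, sec A 0 = P ∧ sec A 1 = Q ∧ sec A 2 = R := by
  have h : AS (fun _ V => join4 (V 0) (V 1) (V 2) (V 3)) := by
    unfold join4
    aesop (config := { enableSimp := false })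
  refine ⟨join4 P Q R R, AS.closed h hK (fun _ => 0) (sc P (sc Q (fun _ => R))) ?_, ?_, ?_, ?_⟩
  · intro i
    rcases i with _ | _ | i
    · exact hP
    · exact hQ
    · exact hR
  · ext m
    show Nat.pair 0 m ∈ join4 P Q R R ↔ m ∈ P
    simp [join4]
  · ext m
    show Nat.pair 1 m ∈ join4 P Q R R ↔ m ∈ Q
    simp [join4]
  · ext m
    show Nat.pair 2 m ∈ join4 P Q R R ↔ m ∈ R
    simp [join4]

theorem pFi2 : S_Fi2 := by
  intro K hM X hX Y hY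
  have hK := Fi2_arc hM
  constructor
  · intro H
    have hc1 : CertN K (sec Y 0) (sec Y 1) := by
      constructor
      · obtain ⟨B, -, hB⟩ := H X hX
        exact hB.1
      · intro Z hZ
        obtain ⟨A, hA, e0, -, -⟩ := Fi2_join hK hZ hZ hZ
        obtain ⟨B, hB, hm⟩ := H A hA
        refine ⟨sec B 0, Fi2_sec hK hB 0, ?_⟩
        have h1 := hm.2.1
        rw [e0] at h1
        exact h1
    refine ⟨hc1, ?_⟩
    by_cases hb : Bd (sec X 1)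
    · exact Or.inr (Or.inl hb)
    by_cases hc2 : sec Y 0 = sec X 1 ∧ CertN K (sec X 0) (sec X 1)
    · exact Or.inl hc2
    right
    right
    have hZ1 : ∃ Z₁ ∈ K, ¬ (sec Y 0 = sec X 1 ∧ ∃ W ∈ K, AA Z₁ W (sec X 0) (sec X 1)) := by
      by_contra hcon
      push Not at hcon
      refine hc2 ⟨(hcon X hX).1, hb, fun Z hZ => (hcon Z hZ).2⟩
    obtain ⟨Z₁, hZ₁, hn⟩ := hZ1
    have key : ∀ f ∈ K, Local (sec Y 2) ∧ ¬ Desc f (sec (sec Y 2) 0) ∧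
        ∃ i ∈ fld (sec Y 2), ¬ Bd (bad (sec (sec Y 2) (i + 1)) (sec X 0) (sec X 1)) := by
      intro f hf
      obtain ⟨A, hA, -, e1, e2⟩ := Fi2_join hK hZ₁ hZ₁ hf
      obtain ⟨B, hB, hm⟩ := H A hA
      rcases hm.2.2 with h | h | h
      · rw [e1] at h
        exact absurd ⟨h.1, sec B 1, Fi2_sec hK hB 1, h.2.2⟩ hn
      · exact absurd h hb
      · rw [e2] at h
        exact h
    exact ⟨⟨(key X hX).1, fun f hf => (key f hf).2.1⟩, (key X hX).2.2⟩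
  · rintro ⟨⟨hb, hc⟩, h2⟩ A hA
    obtain ⟨W₀, hW₀, h0⟩ := hc (sec A 0) (Fi2_sec hK hA 0)
    rcases h2 with ⟨e, hb2, hc2⟩ | h | ⟨h, h'⟩
    · obtain ⟨W₁, hW₁, h1⟩ := hc2 (sec A 1) (Fi2_sec hK hA 1)
      obtain ⟨B, hB, e0, e1, -⟩ := Fi2_join hK hW₀ hW₁ hW₁
      refine ⟨B, hB, hb, ?_, Or.inl ⟨e, hb2, ?_⟩⟩
      · rw [e0]
        exact h0
      · rw [e1]
        exact h1
    · obtain ⟨B, hB, e0, -, -⟩ := Fi2_join hK hW₀ hW₀ hW₀
      refine ⟨B, hB, hb, ?_, Or.inr (Or.inl h)⟩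
      rw [e0]
      exact h0
    · obtain ⟨B, hB, e0, -, -⟩ := Fi2_join hK hW₀ hW₀ hW₀
      refine ⟨B, hB, hb, ?_, Or.inr (Or.inr ⟨h.1, h.2 _ (Fi2_sec hK hA 2), h'⟩)⟩
      rw [e0]
      exact h0

end B8d
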