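import Pool.Agent.Lib.MP_8dbd20_lc.Fi.Spec

set_option linter.unusedVariables false

namespace B8d

open Pool.Agent.Lib.Z2 (Str Dfn DF Fm IsZ2 IsBeta HasAC HasPi12DC Node inn Cond IsI NT NN gen Uni Gen sg tr)

/-- the strict part -/
def Fi3_str (R : Set ℕ) : Set ℕ := {x | x.unpair.1 ≠ x.unpair.2 ∧ x ∈ R}

theorem Fi3_str_as : AS (fun _ V => Fi3_str (V 0)) := by
  unfold Fi3_str
  aesop (config := { enableSimp := false })

theorem Fi3_mem (R : Set ℕ) (y x : ℕ) : Nat.pair y x ∈ Fi3_str R ↔ ltR R y x := by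
  simp only [Fi3_str, Set.mem_setOf_eq, Nat.unpair_pair, ltR]
  tauto

/-- the next element of the descending sequence -/
noncomputable def Fi3_nx (B R : Set ℕ) (x : ℕ) : ℕ := sInf {y | y ∈ B ∧ Nat.pair y x ∈ R}

noncomputable def Fi3_seq (B R : Set ℕ) (n : ℕ) : ℕ :=
  Nat.rec (sInf {y | y ∈ B}) (fun _ x => Fi3_nx B R x) n

theorem Fi3_seq_an : AN (fun v V => Fi3_seq (V 0) (V 1) (v 0)) := by
  unfold Fi3_seq
  refine AN.natRec (a := fun _ V => sInf {y | y ∈ V 0}) (h := fun _ x _ V => Fi3_nx (V 0) (V 1) x)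
    ?_ ?_ (AN.var 0)
  · aesop (config := { enableSimp := false })
  · unfold Fi3_nx
    aesop (config := { enableSimp := false })

theorem Fi3_fund {U : Set (Set ℕ)} (hU : ArClosed U) {R : Set ℕ} (hR : R ∈ U)
    (h : ∀ f ∈ U, ¬ Desc f R) {B : Set ℕ} (hB : B ∈ U) (hne : B.Nonempty) :
    ∃ x ∈ B, ∀ y ∈ B, Nat.pair y x ∉ Fi3_str R := by
  by_contra hcon
  push Not at hcon
  set R' := Fi3_str R with hR'
  have hR'U : R' ∈ U := AS.closed Fi3_str_as hU (fun _ => 0) (fun _ => R) (fun _ => hR)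
  have hnx : ∀ x ∈ B, Fi3_nx B R' x ∈ B ∧ Nat.pair (Fi3_nx B R' x) x ∈ R' := by
    intro x hx
    obtain ⟨y, hy, hyx⟩ := hcon x hx
    exact Nat.sInf_mem (s := {y | y ∈ B ∧ Nat.pair y x ∈ R'}) ⟨y, hy, hyx⟩
  have hseq : ∀ n, Fi3_seq B R' n ∈ B := by
    intro n
    induction n with
    | zero => exact Nat.sInf_mem (s := {y | y ∈ B}) hne
    | succ n ih => exact (hnx _ ih).1
  have hgU : {x : ℕ | x.unpair.2 = Fi3_seq B R' x.unpair.1} ∈ U := by
    have h1 : AS (fun _ V => {x : ℕ | x.unpair.2 = Fi3_seq (V 0) (V 1) x.unpair.1}) := by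
      refine AS.setOf (R := fun x _ V => x.unpair.2 = Fi3_seq (V 0) (V 1) x.unpair.1) ?_
      refine Ar.eqN (AN.snd (AN.var 0)) ?_
      exact AN.s12 (R := fun n B R => Fi3_seq B R n) Fi3_seq_an (AN.fst (AN.var 0)) (AS.var 0)
        (AS.var 1)
    refine AS.closed h1 hU (fun _ => 0) (sc B (fun _ => R')) ?_
    intro i
    cases i
    · exact hB
    · exact hR'U
  refine h _ hgU ⟨fun k => ⟨Fi3_seq B R' k, ?_⟩, ?_⟩
  · show (Nat.pair k _).unpair.2 = Fi3_seq B R' (Nat.pair k _).unpair.1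
    rw [Nat.unpair_pair]
  · intro k x y hx hy
    have hx' : x = Fi3_seq B R' k := by
      have := hx
      simp only [Set.mem_setOf_eq, Nat.unpair_pair] at this
      exact this
    have hy' : y = Fi3_seq B R' (k + 1) := by
      have := hy
      simp only [Set.mem_setOf_eq, Nat.unpair_pair] at this
      exact this
    rw [hx', hy', ← Fi3_mem]
    exact (hnx _ (hseq k)).2

theorem pFi3 (br8 : S_Br8) (e5U : S_E5U) (zNms : Pool.Agent.Lib.Z2.S_Nms)
    (zZ2 : Pool.Agent.Lib.Z2.S_Z2) (zNoL : Pool.Agent.Lib.Z2.S_NoL)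
    (zPres : Pool.Agent.Lib.Z2.S_Pres) : S_Fi3 := by
  rintro M U C G ⟨hu, huni, hgen, -⟩
  haveI hg : GoodS (SU U C) := hu.good
  obtain ⟨hUar, X0, hX0⟩ := e5U M U C hu
  have hT : IsI (SU U C) {0} := by
    have hinn : ∀ s : Node, inn {0} s → s = [] := by
      intro s hs
      have h1 : Encodable.encode s = Encodable.encode ([] : Node) := hs
      exact Encodable.encode_injective h1
    refine ⟨?_, ?_, ?_, ?_, ?_⟩
    · have h1 : AS (fun _ _ => ({0} : Set ℕ)) := AS.singleton (AN.const 0)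
      exact AS.closed h1 hUar (fun _ => 0) (fun _ => X0) (fun _ => hX0)
    · rfl
    · intro s hs
      rw [hinn s hs]
      rfl
    · intro s
      refine ⟨0, fun a ha => ?_⟩
      exact absurd (hinn _ ha) (List.cons_ne_nil _ _)
    · rintro B hB hBT ⟨s, hs⟩
      refine ⟨s, hs, fun a ha => ?_⟩
      exact absurd (hinn _ (hBT _ ha)) (List.cons_ne_nil _ _)
  obtain ⟨n1, n2, n3, n4, n5⟩ := zNms (SU U C) Gam huni G hgen
  have hUN : U ⊆ NN (SU U C) G := fun X hX => n1 _ hT X (n3 _ X hX)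
  have hne : (NN (SU U C) G).Nonempty := ⟨X0, hUN hX0⟩
  have hM2 : Mod2 (NN (SU U C) G) := (br8 _ hne).1.1 (zZ2 (SU U C) Gam huni G hgen)
  have hNar : ArClosed (NN (SU U C) G) := by
    rintro R ⟨φ, ha, hφ⟩ v V hV
    have h1 := hM2.2 φ v V hV
    have e : {n | R (nc n v) V} = {n | eval (NN (SU U C) G) ∅ φ (nc n v) V} := by
      ext n
      exact (hφ _ _).trans (eval_arith ha _ _ _ _ _ _)
    rw [e]
    exact h1
  refine ⟨hu, hUN, hM2, ?_, ?_⟩
  · intro R hR hnd f hf hfd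
    have hR'U : Fi3_str R ∈ U := AS.closed Fi3_str_as hUar (fun _ => 0) (fun _ => R) (fun _ => hR)
    have hB : {x | ∃ k, Nat.pair k x ∈ f} ∈ NN (SU U C) G := by
      have h1 : AS (fun _ V => {x : ℕ | ∃ k, Nat.pair k x ∈ V 0}) := by
        aesop (config := { enableSimp := false })
      exact AS.closed h1 hNar (fun _ => 0) (fun _ => f) (fun _ => hf)
    obtain ⟨x, ⟨k, hkx⟩, hmin⟩ := zPres (SU U C) Gam huni G hgen (Fi3_str R) hR'U
      (fun B hB hBne => Fi3_fund hUar hR hnd hB hBne) _ hB (by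
        obtain ⟨x, hx⟩ := hfd.1 0
        exact ⟨x, 0, hx⟩)
    obtain ⟨y, hy⟩ := hfd.1 (k + 1)
    exact hmin y ⟨k + 1, hy⟩ ((Fi3_mem R y x).2 (hfd.2 k x y hkx hy))
  · rintro ⟨L, hL, h⟩
    obtain ⟨c, hc, hcn⟩ := zNoL (SU U C) Gam huni G hgen L hL
    obtain ⟨n, hn⟩ := h c hc
    exact hcn n hn.symm

end B8d
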