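import Pool.Agent.Lib.MP_8dbd20_lc.Fi.Spec

set_option linter.unusedVariables false

namespace B8d

theorem pFi4 (lemEC : S_LemEC) : S_Fi4 := by
  rintro M U C K ⟨hu, hUK, hM2, hpres, hno⟩ y hy z hz
  have hC := lemEC M U C hu K hUK hM2 hpres hno
  constructor
  · rintro ⟨hb, h⟩
    refine ⟨hb, fun c hc => ?_⟩
    obtain ⟨Z, hZ, hH, i, hi, rfl⟩ := (hC c).1 hc
    obtain ⟨W, hW, h1⟩ := h Z hZ
    rcases h1 with h1 | h1 | h1
    · exact absurd h1 (hH.2 W hW)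
    · exact absurd hH.1 h1
    · exact h1 i hi
  · rintro ⟨hb, h⟩
    refine ⟨hb, fun Z hZ => ?_⟩
    by_cases hd : ∃ W ∈ K, Desc W (sec Z 0)
    · obtain ⟨W, hW, h1⟩ := hd
      exact ⟨W, hW, Or.inl h1⟩
    · refine ⟨Z, hZ, Or.inr ?_⟩
      by_cases hl : Local Z
      · right
        intro i hi
        refine h _ ((hC _).2 ⟨Z, hZ, ⟨hl, fun f hf hfd => hd ⟨f, hf, hfd⟩⟩, i, hi, rfl⟩)
      · exact Or.inl hl

end B8d
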