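import Pool.Agent.Lib.MP_8dbd20_lc.Fi.Spec

/-! C45, block Fi: Fi5 (MP_8dbd20_lc) -/

set_option linter.unusedVariables false

namespace B8d

open Pool.Agent.Lib.Z2 (Str Dfn DF Fm IsZ2 IsBeta HasAC HasPi12DC Node inn Cond IsI NT NN gen Uni Gen sg tr)

private theorem Fi5_ar {M : Set (Set ℕ)} (hM : Mod2 M) : ArClosed M := by
  rintro R ⟨φ, ha, hφ⟩ v V hV
  have h := hM.2 φ v V hV
  have e : {n | R (nc n v) V} = {n | eval M ∅ φ (nc n v) V} := by
    ext n
    simp only [Set.mem_ofPred_eq]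
    exact (hφ _ _).trans (eval_arith ha _ _ _ _ _ _)
  rw [e]; exact h

private theorem Fi5_join : AS (fun _ V => join4 (V 0) (V 1) (V 2) (V 3)) := by
  have h : Ar (fun v V => ((v 0).unpair.1 = 0 ∧ (v 0).unpair.2 ∈ V 0) ∨ ((v 0).unpair.1 = 1 ∧ (v 0).unpair.2 ∈ V 1) ∨
      ((v 0).unpair.1 = 2 ∧ (v 0).unpair.2 ∈ V 2) ∨ ((v 0).unpair.1 = 3 ∧ (v 0).unpair.2 ∈ V 3)) := by
    aesop (config := { enableSimp := false })
  exact h

private theorem Fi5_s0 (A B D H : Set ℕ) : sec (join4 A B D H) 0 = A := by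
  ext m; simp [sec, join4]
private theorem Fi5_s1 (A B D H : Set ℕ) : sec (join4 A B D H) 1 = B := by
  ext m; simp [sec, join4]
private theorem Fi5_s2 (A B D H : Set ℕ) : sec (join4 A B D H) 2 = D := by
  ext m; simp [sec, join4]

private theorem Fi5_mem {N : Set (Set ℕ)} (hN : ArClosed N) {A B D : Set ℕ} (hA : A ∈ N) (hB : B ∈ N)
    (hD : D ∈ N) : join4 A B D D ∈ N := by
  have h := AS.closed Fi5_join hN (fun _ => 0) (sc A (sc B (fun _ => D))) (by
    intro i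
    rcases i with _ | i
    · exact hA
    · rcases i with _ | i
      · exact hB
      · exact hD)
  exact h

theorem pFi5 (lemEC : S_LemEC) (fi3 : S_Fi3) (fi4 : S_Fi4) (zNms : Pool.Agent.Lib.Z2.S_Nms)
    (zNTs : Pool.Agent.Lib.Z2.S_NTs) (zGenR : Pool.Agent.Lib.Z2.S_GenR)
    (zIFin : Pool.Agent.Lib.Z2.S_IFin) : S_Fi5 := by
  intro M U C G hS X hX
  have hKH := fi3 M U C G hS
  haveI : GoodS (SU U C) := hS.univ.good
  set N := NN (SU U C) G with hN
  obtain ⟨hUK, hMod, hpres, hnl⟩ := hKH.2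
  have hAr : ArClosed N := Fi5_ar hMod
  have hemp : (∅ : Set ℕ) ∈ N := AS.closed AS.empty hAr (fun _ => 0) (fun _ => X) (fun _ => hX)
  obtain ⟨n1, n2, -, -, -⟩ := zNms (SU U C) Gam hS.uni G hS.gn
  obtain ⟨T, hT, hXT⟩ := n2 X hX
  have hgen : ∀ s : Node, gen G s ∈ N := by
    intro s
    obtain ⟨T', hT', h1, -⟩ := zIFin (SU U C) [s]
    exact n1 T' hT' _ (zGenR (SU U C) Gam hS.uni G hS.gn T' hT' s (h1 s (by simp)))
  have hsec : ∀ n, sec X n ∈ NT (SU U C) G T := (zNTs (SU U C) Gam hS.uni G hS.gn T hT).1 X hXT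
  have hsecN : ∀ n, sec X n ∈ N := fun n => n1 T hT _ (hsec n)
  by_cases hc : CertC C (sec X 0) (sec X 1)
  · obtain ⟨s, hs, hz, hy⟩ := hS.edges.uniq T hT _ (hsec 0) _ (hsec 1) hc
    refine ⟨join4 (gen G s) (gen G (0 :: s)) (gen G s) (gen G s), Fi5_mem hAr (hgen _) (hgen _) (hgen _), ?_, ?_⟩
    · rw [Fi5_s0, Fi5_s1]
      rw [fi4 M U C N hKH _ (hgen _) _ (hgen _)]
      have h := hS.edges.cert (0 :: s)
      have e : {k | (0 :: s : Node) ≠ [] ∧ k ∈ gen G (0 :: s : Node).tail} = gen G s := by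
        ext k; simp
      rw [e] at h
      exact h
    · left
      rw [Fi5_s0]
      exact ⟨hz.symm, (fi4 M U C N hKH _ (hsecN 0) _ (hsecN 1)).2 hc⟩
  · have hW : ∃ W ∈ N, Wit N (sec X 0) (sec X 1) W := by
      by_cases hb : Bd (sec X 1)
      · exact ⟨∅, hemp, Or.inl hb⟩
      · have h1 : ∃ c ∈ C, ¬ Bd (bad c (sec X 0) (sec X 1)) := by
          by_contra hcon
          push Not at hcon
          exact hc ⟨hb, hcon⟩
        obtain ⟨c, hcC, hcb⟩ := h1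
        obtain ⟨W, hW, hHC, hE⟩ := (lemEC M U C hS.univ N hUK hMod hpres hnl c).1 hcC
        obtain ⟨i, hi, rfl⟩ := hE
        exact ⟨W, hW, Or.inr ⟨hHC, i, hi, hcb⟩⟩
    obtain ⟨W, hWN, hW⟩ := hW
    refine ⟨join4 ∅ (gen G []) W W, Fi5_mem hAr hemp (hgen _) hWN, ?_, ?_⟩
    · rw [Fi5_s0, Fi5_s1]
      rw [fi4 M U C N hKH _ hemp _ (hgen _)]
      have h := hS.edges.cert []
      have e : {k | ([] : Node) ≠ [] ∧ k ∈ gen G ([] : Node).tail} = ∅ := by
        ext k; simp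
      rw [e] at h
      exact h
    · right
      rw [Fi5_s2]
      exact hW

end B8d
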