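import Pool.Agent.Lib.MP_8dbd20_lc.Fi.Spec

/-!
# The sequence of all generic reals of a support has a name
-/

namespace B8d

open Pool.Agent.Lib.Z2 (Str Dfn DF Fm IsZ2 IsBeta HasAC HasPi12DC Node inn Cond IsI NT NN gen Uni Gen sg tr
  Ty IsCond Le nds bts ht fs Sup evl cdc InT Smp)

/-- The condition on the entries. -/
private def Fi6_Q (S : Str) (T : Set ℕ) (s : Node) (k : ℕ) (t : Ty) : Prop :=
  IsCond S (t, []) ∧ inn T s ∧ (∀ r ∈ nds (t, []), ∃ u : List ℕ, u ++ r = s) ∧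
    (s, k) ∈ bts (t, [])

private def Fi6_r (S : Str) (T : Set ℕ) : Set ℕ :=
  {x | ∃ (s : Node) (k : ℕ) (t : Ty), x.unpair.1 = Nat.pair (Nat.pair (Encodable.encode s) k)
    (Encodable.encode t) ∧ Fi6_Q S T s k t ∧ x.unpair.2 ∈ cdc (t, [])}

private theorem Fi6_mem (S : Str) (T : Set ℕ) (n i y : ℕ) :
    y ∈ sec (Fi6_r S T) (Nat.pair n i) ↔ ∃ (s : Node) (k : ℕ) (t : Ty),
      n = Nat.pair (Encodable.encode s) k ∧ i = Encodable.encode t ∧ Fi6_Q S T s k t ∧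
      y ∈ cdc (t, []) := by
  rw [Pool.Agent.Lib.Z2.mem_sec]
  show (∃ (s : Node) (k : ℕ) (t : Ty), (Nat.pair (Nat.pair n i) y).unpair.1 =
    Nat.pair (Nat.pair (Encodable.encode s) k) (Encodable.encode t) ∧ Fi6_Q S T s k t ∧
    (Nat.pair (Nat.pair n i) y).unpair.2 ∈ cdc (t, [])) ↔ _
  rw [Nat.unpair_pair]
  simp only [Nat.pair_eq_pair, and_assoc]

private theorem Fi6_sec (S : Str) (T : Set ℕ) (s : Node) (k : ℕ) (t : Ty) (h : Fi6_Q S T s k t) :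
    sec (Fi6_r S T) (Nat.pair (Nat.pair (Encodable.encode s) k) (Encodable.encode t)) =
      cdc (t, []) := by
  ext y
  rw [Fi6_mem]
  constructor
  · rintro ⟨s', k', t', e, e', -, hy⟩
    rw [Encodable.encode_injective e']
    exact hy
  · intro hy
    exact ⟨s, k, t, rfl, rfl, h, hy⟩

private theorem Fi6_ent (zCdc : Pool.Agent.Lib.Z2.S_Cdc) (S : Str) (T : Set ℕ) (n : ℕ) (w : Cond) :
    Pool.Agent.Lib.Z2.Ent S (Fi6_r S T) n w ↔ ∃ (s : Node) (k : ℕ) (t : Ty), n = Nat.pair (Encodable.encode s) k ∧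
      w = (t, []) ∧ Fi6_Q S T s k t := by
  constructor
  · rintro ⟨hw, i, hi⟩
    obtain ⟨y, hy⟩ := Set.nonempty_iff_ne_empty.2 (zCdc.2.1 w)
    rw [← hi, Fi6_mem] at hy
    obtain ⟨s, k, t, rfl, rfl, hQ, -⟩ := hy
    rw [Fi6_sec S T s k t hQ] at hi
    exact ⟨s, k, t, rfl, (zCdc.1 _ _ hi).symm, hQ⟩
  · rintro ⟨s, k, t, rfl, rfl, hQ⟩
    exact ⟨hQ.1, _, Fi6_sec S T s k t hQ⟩

private theorem Fi6_suf {T : Set ℕ} (hT : ∀ s : Node, inn T s → inn T s.tail) :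
    ∀ (u : List ℕ) (r : Node), inn T (u ++ r) → inn T r := by
  intro u
  induction u with
  | nil => exact fun r h => h
  | cons a u ih => exact fun r h => ih r (hT _ h)

private theorem Fi6_dfn (zCdc : Pool.Agent.Lib.Z2.S_Cdc) (zIc : Pool.Agent.Lib.Z2.S_Ic)
    (zInn : Pool.Agent.Lib.Z2.S_Inn) (S : Str) [GoodS S] (Gm : Set ℕ → Set ℕ) (hU : Uni S Gm)
    (T : Set ℕ) (hT : T ∈ S.U) :
    Dfn S (fun x : ℕ => ∃ (s : Node) (k : ℕ) (t : Ty), x.unpair.1 =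
      Nat.pair (Nat.pair (Encodable.encode s) k) (Encodable.encode t) ∧ Fi6_Q S T s k t ∧
      x.unpair.2 ∈ cdc (t, [])) := by
  have v1 : DF S (fun x : ((ℕ × Node) × ℕ) × Ty => x.1.1.1) := Smp.id.fst.fst.fst.df
  have v2 : DF S (fun x : ((ℕ × Node) × ℕ) × Ty => x.1.1.2) := Smp.id.fst.fst.snd.df
  have v3 : DF S (fun x : ((ℕ × Node) × ℕ) × Ty => x.1.2) := Smp.id.fst.snd.df
  have v4 : DF S (fun x : ((ℕ × Node) × ℕ) × Ty => x.2) := Smp.id.snd.df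
  have v5 : DF S (fun x : ((ℕ × Node) × ℕ) × Ty => ((x.2, []) : Cond)) := v4.pair DF.nil
  obtain ⟨i1, -, i3, -, i5⟩ := zIc S (((ℕ × Node) × ℕ) × Ty) (fun x => ((x.2, []) : Cond)) v5
  have hTP : T ∈ S.Pm := by rw [hU.pm]; exact hT
  have e1 : Dfn S (fun x : ((ℕ × Node) × ℕ) × Ty => x.1.1.1.unpair.1 =
      Nat.pair (Nat.pair (Encodable.encode x.1.1.2) x.1.2) (Encodable.encode x.2)) :=
    Dfn.eq (DF.unp1 v1) (DF.natPair (DF.natPair (DF.enc v2) v3) (DF.enc v4))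
  have e2 : Dfn S (fun x : ((ℕ × Node) × ℕ) × Ty => inn T x.1.1.2) :=
    zInn S _ (fun _ => T) _ (DF.constR hTP) v2
  have e3 : Dfn S (fun x : ((ℕ × Node) × ℕ) × Ty =>
      ∀ r ∈ nds ((x.2, []) : Cond), ∃ u : List ℕ, u ++ r = x.1.1.2) := by
    refine Dfn.allP (P := fun (x : ((ℕ × Node) × ℕ) × Ty) (r : Node) =>
      ∃ u : List ℕ, u ++ r = x.1.1.2) i1 ?_
    refine Dfn.exN (P := fun (x : (((ℕ × Node) × ℕ) × Ty) × Node) (u : List ℕ) =>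
      u ++ x.2 = x.1.1.1.2) ?_
    refine Dfn.eq (f := fun x : ((((ℕ × Node) × ℕ) × Ty) × Node) × List ℕ => x.2 ++ x.1.2)
      (g := fun x : ((((ℕ × Node) × ℕ) × Ty) × Node) × List ℕ => x.1.1.1.1.2) ?_ ?_
    · exact DF.prim₂ (F := fun a b : List ℕ => a ++ b) Primrec.list_append Smp.id.snd.df
        Smp.id.fst.snd.df
    · exact Smp.id.fst.fst.fst.fst.snd.df
  have e4 : Dfn S (fun x : ((ℕ × Node) × ℕ) × Ty =>
      (x.1.1.2, x.1.2) ∈ bts ((x.2, []) : Cond)) := Dfn.pmem (v2.pair v3) i3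
  have e5 : DF S (fun x : ((ℕ × Node) × ℕ) × Ty => cdc ((x.2, []) : Cond)) :=
    (zCdc.2.2 S).2.2 _ _ v5
  have e6 : Dfn S (fun x : ((ℕ × Node) × ℕ) × Ty => x.1.1.1.unpair.2 ∈ cdc ((x.2, []) : Cond)) :=
    Dfn.mem (DF.unp2 v1) e5
  have e7 : Dfn S (fun x : ((ℕ × Node) × ℕ) × Ty => Fi6_Q S T x.1.1.2 x.1.2 x.2) :=
    i5.and (e2.and (e3.and e4))
  have e8 := e1.and (e7.and e6)
  have e9 : Dfn S (fun x : (ℕ × Node) × ℕ => ∃ t : Ty, x.1.1.unpair.1 =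
      Nat.pair (Nat.pair (Encodable.encode x.1.2) x.2) (Encodable.encode t) ∧
      Fi6_Q S T x.1.2 x.2 t ∧ x.1.1.unpair.2 ∈ cdc (t, [])) :=
    Dfn.exN (P := fun (x : (ℕ × Node) × ℕ) (t : Ty) => x.1.1.unpair.1 =
      Nat.pair (Nat.pair (Encodable.encode x.1.2) x.2) (Encodable.encode t) ∧
      Fi6_Q S T x.1.2 x.2 t ∧ x.1.1.unpair.2 ∈ cdc (t, [])) e8
  have e10 : Dfn S (fun x : ℕ × Node => ∃ (k : ℕ) (t : Ty), x.1.unpair.1 =
      Nat.pair (Nat.pair (Encodable.encode x.2) k) (Encodable.encode t) ∧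
      Fi6_Q S T x.2 k t ∧ x.1.unpair.2 ∈ cdc (t, [])) :=
    Dfn.exN (P := fun (x : ℕ × Node) (k : ℕ) => ∃ (t : Ty), x.1.unpair.1 =
      Nat.pair (Nat.pair (Encodable.encode x.2) k) (Encodable.encode t) ∧
      Fi6_Q S T x.2 k t ∧ x.1.unpair.2 ∈ cdc (t, [])) e9
  exact Dfn.exN (P := fun (x : ℕ) (s : Node) => ∃ (k : ℕ) (t : Ty), x.unpair.1 =
      Nat.pair (Nat.pair (Encodable.encode s) k) (Encodable.encode t) ∧
      Fi6_Q S T s k t ∧ x.unpair.2 ∈ cdc (t, [])) e10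

open Classical in
/-- The part of a condition at the suffixes of a node. -/
private noncomputable def Fi6_p (p : Cond) (s : Node) : Ty :=
  ((nds p).filter (fun r => ∃ u : List ℕ, u ++ r = s), ht p,
    (bts p).filter (fun x => ∃ u : List ℕ, u ++ x.1 = s))

open Classical in
private theorem Fi6_nds (p : Cond) (s r : Node) :
    r ∈ nds (Fi6_p p s, []) ↔ r ∈ nds p ∧ ∃ u : List ℕ, u ++ r = s := by
  show r ∈ (nds p).filter _ ↔ _
  rw [List.mem_filter, decide_eq_true_eq]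

open Classical in
private theorem Fi6_bts (p : Cond) (s : Node) (x : Node × ℕ) :
    x ∈ bts (Fi6_p p s, []) ↔ x ∈ bts p ∧ ∃ u : List ℕ, u ++ x.1 = s := by
  show x ∈ (bts p).filter _ ↔ _
  rw [List.mem_filter, decide_eq_true_eq]

private theorem Fi6_tail {r s : Node} (h : ∃ u : List ℕ, u ++ r = s) :
    ∃ u : List ℕ, u ++ r.tail = s := by
  obtain ⟨u, hu⟩ := h
  cases r with
  | nil => exact ⟨u, hu⟩
  | cons a r => exact ⟨u ++ [a], by rw [List.append_assoc]; exact hu⟩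

private theorem Fi6_cond {S : Str} {p : Cond} (hp : IsCond S p) (s : Node) :
    IsCond S (Fi6_p p s, []) := by
  refine ⟨fun r hr => ?_, fun x hx => ?_, fun c hc => absurd hc List.not_mem_nil⟩
  · rw [Fi6_nds] at hr ⊢
    exact ⟨hp.1 r hr.1, Fi6_tail hr.2⟩
  · rw [Fi6_bts] at hx
    obtain ⟨h1, h2⟩ := hp.2.1 x hx.1
    exact ⟨(Fi6_nds p s x.1).2 ⟨h1, hx.2⟩, h2⟩

private theorem Fi6_le (Gm : Set ℕ → Set ℕ) (p : Cond) (s : Node) :
    Le Gm p (Fi6_p p s, []) := by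
  refine ⟨fun r hr => ((Fi6_nds p s r).1 hr).1, le_rfl, fun r hr k _ => ?_,
    fun c hc => absurd hc List.not_mem_nil, fun r _ k _ _ c hc => absurd hc List.not_mem_nil⟩
  rw [Fi6_bts]
  exact ⟨fun h => ⟨h, ((Fi6_nds p s r).1 hr).2⟩, fun h => h.1⟩

theorem pFi6 (zCdc : Pool.Agent.Lib.Z2.S_Cdc) (zIc : Pool.Agent.Lib.Z2.S_Ic)
    (zInn : Pool.Agent.Lib.Z2.S_Inn) : S_Fi6 := by
  intro S _ Gm hU G hG T hT
  refine ⟨Fi6_r S T, hU.comp _ (Fi6_dfn zCdc zIc zInn S Gm hU T hT.1), ?_, ?_⟩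
  · intro n w hw
    obtain ⟨s, k, t, rfl, rfl, hQ⟩ := (Fi6_ent zCdc S T n w).1 hw
    intro r hr
    obtain ⟨u, hu⟩ := hQ.2.2.1 r hr
    refine Fi6_suf hT.2.2.1 u r ?_
    rw [hu]
    exact hQ.2.1
  · ext x
    constructor
    · rintro ⟨s, k, rfl, hs, p, hp, hk⟩
      refine ⟨(Fi6_p p s, []), ?_, hG.up p _ hp (Fi6_cond (hG.cond p hp) s) (Fi6_le Gm p s)⟩
      rw [Fi6_ent zCdc]
      refine ⟨s, k, Fi6_p p s, rfl, rfl, Fi6_cond (hG.cond p hp) s, hs, fun r hr => ?_, ?_⟩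
      · exact ((Fi6_nds p s r).1 hr).2
      · exact (Fi6_bts p s (s, k)).2 ⟨hk, [], rfl⟩
    · rintro ⟨w, hw, hwG⟩
      obtain ⟨s, k, t, rfl, rfl, hQ⟩ := (Fi6_ent zCdc S T x w).1 hw
      exact ⟨s, k, rfl, hQ.2.1, _, hwG, hQ.2.2.2⟩

end B8d
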