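import Pool.Agent.Lib.MP_8dbd20_lc.Fi.Spec

/-! C45, block Fi: Fi7 (MP_8dbd20_lc): no chain of the relation `Phi` in the generic model -/

set_option linter.unusedVariables false

namespace B8d

open Pool.Agent.Lib.Z2 (Str Dfn DF Fm IsZ2 IsBeta HasAC HasPi12DC Node inn Cond IsI NT NN gen Uni Gen sg tr)

private theorem Fi7_ar {M : Set (Set ℕ)} (hM : Mod2 M) : ArClosed M := by
  rintro R ⟨φ, ha, hφ⟩ v V hV
  have h := hM.2 φ v V hV
  have e : {n | R (nc n v) V} = {n | eval M ∅ φ (nc n v) V} := by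
    ext n
    simp only [Set.mem_ofPred_eq]
    exact (hφ _ _).trans (eval_arith ha _ _ _ _ _ _)
  rw [e]; exact h

/-- the set of nodes of the chain -/
private def Fi7_B (T D Z : Set ℕ) : Set ℕ :=
  {x | x ∈ T ∧ ∃ n, ∀ k, (Nat.pair x k ∈ D ↔ Nat.pair (n + 1) (Nat.pair 1 k) ∈ Z)}

private theorem Fi7_as : AS (fun _ V => Fi7_B (V 0) (V 1) (V 2)) := by
  have h : Ar (fun v V => v 0 ∈ V 0 ∧ ∃ n, ∀ k, (Nat.pair (v 0) k ∈ V 1 ↔ Nat.pair (n + 1) (Nat.pair 1 k) ∈ V 2)) := by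
    aesop (config := { enableSimp := false })
  exact h

private theorem Fi7_cl {N : Set (Set ℕ)} (hN : ArClosed N) {T D Z : Set ℕ} (hT : T ∈ N) (hD : D ∈ N)
    (hZ : Z ∈ N) : Fi7_B T D Z ∈ N := by
  have h := AS.closed Fi7_as hN (fun _ => 0) (sc T (sc D (fun _ => Z))) (by
    intro i
    rcases i with _ | i
    · exact hT
    · rcases i with _ | i
      · exact hD
      · exact hZ)
  exact h

theorem pFi7 (lemEC : S_LemEC) (fi3 : S_Fi3) (fi4 : S_Fi4) (fi6 : S_Fi6) (zNms : Pool.Agent.Lib.Z2.S_Nms)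
    (zNTs : Pool.Agent.Lib.Z2.S_NTs) (zPresT : Pool.Agent.Lib.Z2.S_PresT) : S_Fi7 := by
  intro M U C G hS
  have hKH := fi3 M U C G hS
  haveI : GoodS (SU U C) := hS.univ.good
  set N := NN (SU U C) G with hN
  rintro ⟨Z, hZ, hP⟩
  obtain ⟨hUK, hMod, hpres, hnl⟩ := hKH.2
  have hAr : ArClosed N := Fi7_ar hMod
  obtain ⟨n1, n2, -, -, -⟩ := zNms (SU U C) Gam hS.uni G hS.gn
  obtain ⟨T, hT, hZT⟩ := n2 Z hZ
  have hs := (zNTs (SU U C) Gam hS.uni G hS.gn T hT).1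
  have hsec : ∀ n i, sec (sec Z n) i ∈ NT (SU U C) G T := fun n i => hs _ (hs Z hZT n) i
  have hsecN : ∀ n i, sec (sec Z n) i ∈ N := fun n i => n1 T hT _ (hsec n i)
  -- certified pairs
  have hcert : ∀ n, CertC C (sec (sec Z (n + 1)) 0) (sec (sec Z (n + 1)) 1) := fun n =>
    (fi4 M U C N hKH _ (hsecN _ 0) _ (hsecN _ 1)).1 (hP n).1
  have hnode : ∀ n, ∃ s, inn T s ∧ sec (sec Z (n + 1)) 1 = gen G s ∧
      sec (sec Z (n + 1)) 0 = {k | s ≠ [] ∧ k ∈ gen G s.tail} := fun n =>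
    hS.edges.uniq T hT _ (hsec _ 0) _ (hsec _ 1) (hcert n)
  choose s hsT hs1 hs0 using hnode
  have hstep : ∀ n, ∃ a, s (n + 1) = a :: s n := by
    intro n
    have h0 : sec (sec Z (n + 2)) 0 = sec (sec Z (n + 1)) 1 := by
      rcases (hP (n + 1)).2 with h | h
      · exact h.1
      · exfalso
        rcases h with h | ⟨h, i, hi, hb⟩
        · exact (hcert n).1 h
        · have hc : sec (sec (sec Z (n + 1 + 1)) 2) (i + 1) ∈ C :=
            (lemEC M U C hS.univ N hUK hMod hpres hnl _).2 ⟨_, hsecN _ 2, h, i, hi, rfl⟩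
          exact hb ((hcert n).2 _ hc)
    have h1 : {k | s (n + 1) ≠ [] ∧ k ∈ gen G (s (n + 1)).tail} = gen G (s n) := by
      rw [← hs0 (n + 1), ← hs1 n]
      exact h0
    have h2 : ¬ Bd (gen G (s n)) := by
      rw [← hs1 n]; exact (hcert n).1
    have h3 : s (n + 1) ≠ [] := by
      intro h
      apply h2
      refine ⟨0, fun k hk => ?_⟩
      rw [← h1] at hk
      exact absurd h hk.1
    have h4 : gen G (s (n + 1)).tail = gen G (s n) := by
      rw [← h1]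
      ext k
      exact ⟨fun hk => ⟨h3, hk⟩, fun hk => hk.2⟩
    have h5 := hS.edges.inj _ _ h4
    refine ⟨(s (n + 1)).head h3, ?_⟩
    rw [← h5]
    exact (List.cons_head_tail h3).symm
  -- the set of nodes of the chain
  obtain ⟨D, hD⟩ : ∃ D, D = {x | ∃ (s : Node) (k : ℕ), x = Nat.pair (Encodable.encode s) k ∧ inn T s ∧ k ∈ gen G s} :=
    ⟨_, rfl⟩
  have hDN : D ∈ N := by
    rw [hD]; exact n1 T hT _ (fi6 (SU U C) Gam hS.uni G hS.gn T hT)
  have hTN : T ∈ N := hUK hT.1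
  have hDs : ∀ t : Node, inn T t → ∀ k, (Nat.pair (Encodable.encode t) k ∈ D ↔ k ∈ gen G t) := by
    intro t htT k
    rw [hD]
    simp only [Set.mem_ofPred_eq]
    constructor
    · rintro ⟨t', k', he, -, hk⟩
      obtain ⟨e1, e2⟩ := Nat.pair_eq_pair.1 he
      rw [Encodable.encode_injective e1, e2]
      exact hk
    · intro hk
      exact ⟨t, k, rfl, htT, hk⟩
  have hB := Fi7_cl hAr hTN hDN hZ
  have hBi : ∀ t : Node, inn (Fi7_B T D Z) t ↔ inn T t ∧ ∃ n, t = s n := by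
    intro t
    constructor
    · rintro ⟨h1, n, h2⟩
      refine ⟨h1, n, hS.edges.inj _ _ ?_⟩
      ext k
      rw [← hDs t h1 k, h2 k, ← hs1 n]
      exact Iff.rfl
    · rintro ⟨h1, n, rfl⟩
      refine ⟨h1, n, fun k => ?_⟩
      rw [hDs _ h1 k, ← hs1 n]
      exact Iff.rfl
  obtain ⟨t, ht1, ht2⟩ := zPresT (SU U C) Gam hS.uni G hS.gn T hT _ hB (fun t h => ((hBi t).1 h).1)
    ⟨s 0, (hBi _).2 ⟨hsT 0, 0, rfl⟩⟩
  obtain ⟨-, n, rfl⟩ := (hBi t).1 ht1
  obtain ⟨a, ha⟩ := hstep n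
  exact ht2 a (ha ▸ (hBi _).2 ⟨hsT (n + 1), n + 1, rfl⟩)

end B8d
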