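import Pool.Agent.Lib.MP_8dbd20_lc.Fi.Spec

/-!
# Dependent choice fails in the generic model
-/

namespace B8d

open Pool.Agent.Lib.Z2 (Str Dfn DF Fm IsZ2 IsBeta HasAC HasPi12DC Node inn Cond IsI NT NN gen Uni Gen sg tr)

private theorem Fi8_arClosed {K : Set (Set ℕ)} (h : Mod2 K) : ArClosed K := by
  rintro R ⟨φ, ha, hφ⟩ v V hV
  have h1 : {n | R (nc n v) V} = {n | eval K ∅ φ (nc n v) V} := by
    ext n
    exact (hφ _ _).trans (eval_arith ha _ _ _ _ _ _)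
  rw [h1]
  exact h.2 φ v V hV

private theorem Fi8_sat {θ : Fm} {φ : F} {K : Set (Set ℕ)} (ha : φ.arith)
    (hφ : ∀ (v : ℕ → ℕ) (V : ℕ → Set ℕ), Mx (V 3) (V 2) (V 1) (V 0) ↔ eval ∅ ∅ φ v V)
    (hθ : ∀ (M : Set (Set ℕ)) (v : ℕ → ℕ) (V : ℕ → Set ℕ), θ.Sat M v V ↔ eval M ∅ φ v V)
    (e : ℕ → ℕ) (E : ℕ → Set ℕ) (X Y : Set ℕ) :
    (Fm.allS (Fm.exS θ)).Sat K e (Pool.Agent.Lib.Z2.ex Y (Pool.Agent.Lib.Z2.ex X E)) ↔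
      ∀ A ∈ K, ∃ B ∈ K, Mx X Y A B := by
  show (∀ A ∈ K, ¬ ∀ B ∈ K, ¬ θ.Sat K e (Pool.Agent.Lib.Z2.ex B (Pool.Agent.Lib.Z2.ex A
    (Pool.Agent.Lib.Z2.ex Y (Pool.Agent.Lib.Z2.ex X E))))) ↔ _
  refine forall_congr' fun A => imp_congr_right fun _ => ?_
  rw [not_forall]
  refine exists_congr fun B => ?_
  rw [Classical.not_imp, not_not]
  refine and_congr_right fun _ => ?_
  rw [hθ, eval_arith ha K ∅ ∅ ∅, ← hφ]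
  exact Iff.rfl

theorem pFi8 (br7 : S_Br7) (fi1 : S_Fi1) (fi2 : S_Fi2) (fi3 : S_Fi3) (fi5 : S_Fi5)
    (fi7 : S_Fi7) : S_Fi8 := by
  intro M U C G hS hDC
  have hM : Mod2 (NN (SU U C) G) := (fi3 M U C G hS).2.2.1
  have hA := Fi8_arClosed hM
  obtain ⟨φ, ha, hφ⟩ := fi1
  obtain ⟨θ, hθa, hθ⟩ := br7.2 φ
  obtain ⟨X₀, hX₀⟩ := hM.1
  have key := fun X Y => Fi8_sat (K := NN (SU U C) G) ha (fun v V => hφ v V) hθ
    (fun _ => 0) (fun _ => X₀) X Y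
  obtain ⟨Z, hZ, hn⟩ := hDC θ (fun _ => 0) (fun _ => X₀) (hθa ha) (fun _ => hX₀) (by
    intro X hX
    obtain ⟨Y, hY, hP⟩ := fi5 M U C G hS X hX
    exact ⟨Y, hY, (key X Y).2 ((fi2 _ hM X hX Y hY).2 hP)⟩)
  have hsec : ∀ n, sec Z n ∈ NN (SU U C) G := fun n =>
    (AS.sec (AS.var 0) (AN.const n)).closed hA (fun _ => 0) (fun _ => Z) (fun _ => hZ)
  exact fi7 M U C G hS ⟨Z, hZ, fun n => (fi2 _ hM _ (hsec n) _ (hsec (n + 1))).1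
    ((key (sec Z n) (sec Z (n + 1))).1 (hn n))⟩

end B8d
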