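import Pool.Agent.Lib.MP_8dbd20_lc.Fi.Spec

/-! C45, block Fi: Fi9 (MP_8dbd20_lc) -/

set_option linter.unusedVariables false

namespace B8d

open Pool.Agent.Lib.Z2 (Str Dfn DF Uni)

theorem pFi9 (br4 : S_Br4) (l0b : S_L0b) (e5U : S_E5U) : S_Fi9 := by
  intro M U C h hc
  haveI : GoodS (SU U C) := h.good
  obtain ⟨hAr, hne⟩ := e5U M U C h
  have hemp : (∅ : Set ℕ) ∈ (SU U C).Pm := Pool.Agent.Lib.Z2.Good.pe
  have hempU : (∅ : Set ℕ) ∈ U := hemp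
  refine ⟨rfl, hc, h.comp, ?_, ?_, ?_⟩
  · intro P hP
    have hd : Dfn (SU U C) (fun x : ℕ × Set ℕ => P x.1 x.2 ∨ ((¬ ∃ Y ∈ (SU U C).U, P x.1 Y) ∧ x.2 = ∅)) := by
      refine hP.or ((Dfn.not ?_).and (Pool.Agent.Lib.Z2.Dfn.eq DF.id.snd (Pool.Agent.Lib.Z2.DF.constR hemp)))
      refine Pool.Agent.Lib.Z2.Dfn.exR (P := fun (x : ℕ × Set ℕ) (Y : Set ℕ) => P x.1 Y) ?_
      exact hP.comp (f := fun x : (ℕ × Set ℕ) × Set ℕ => (x.1.1, x.2)) (DF.id.fst.fst.pair DF.id.snd)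
    obtain ⟨Z, hZ, hZ'⟩ := h.ac (fun n X => P n X ∨ ((¬ ∃ Y ∈ (SU U C).U, P n Y) ∧ X = ∅)) hd (by
      intro n
      by_cases hn : ∃ Y ∈ U, P n Y
      · obtain ⟨Y, hY, hPY⟩ := hn
        exact ⟨Y, hY, Or.inl hPY⟩
      · exact ⟨∅, hempU, Or.inr ⟨hn, rfl⟩⟩)
    exact ⟨Z, hZ, fun n hn => (hZ' n).resolve_right (fun hcon => hcon.1 hn)⟩
  · intro P hP hf
    have h1 := h.noSurj P hP hf
    push Not at h1
    exact h1
  · refine DF.set (fun X hX => ?_) ?_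
    · exact AS.closed l0b.2.2.2.2.2 hAr (fun _ => 0) (fun _ => X) (fun _ => hX)
    · exact br4 (SU U C) (fun v V => v 0 ∈ Gam (V 0)) l0b.2.2.2.2.2 (α := Set ℕ × ℕ) (fun x _ => x.2) (fun x _ => x.1)
        (fun _ => DF.id.snd) (fun _ => DF.id.fst)

end B8d
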