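import Pool.Agent.Lib.MP_8dbd20_lc.Fi.Spec2

/-!
# MP_8dbd20_lc, `Fi/LS2`: countable elementary submodels, with elementarity

The proof is that of `Hi/LS.lean` (helper93), with the elementarity kept in the conclusion.
-/

set_option linter.unusedVariables false

namespace B8d

open Classical in
private noncomputable def LS2_w (M : Set (Set ℕ)) (X₀ : Set ℕ) (k m : ℕ) (L : List (Set ℕ)) : Set ℕ :=
  if h : ∃ X ∈ M, ¬ eval M ∅ (dec k) (fun i => get i m) (sc X (fun j => L.getD j X₀))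
    then h.choose else X₀

private noncomputable def LS2_A (M : Set (Set ℕ)) (X₀ : Set ℕ) : ℕ → Set (Set ℕ)
  | 0 => {X₀}
  | n + 1 => LS2_A M X₀ n ∪ Set.range (fun p : ℕ × ℕ × List (LS2_A M X₀ n) =>
      LS2_w M X₀ p.1 p.2.1 (p.2.2.map Subtype.val))

private theorem LS2_w_mem {M : Set (Set ℕ)} {X₀ : Set ℕ} (h0 : X₀ ∈ M) (k m : ℕ) (L : List (Set ℕ)) :
    LS2_w M X₀ k m L ∈ M := by
  unfold LS2_w
  split_ifs with h
  · exact h.choose_spec.1
  · exact h0

private theorem LS2_cnt (M : Set (Set ℕ)) (X₀ : Set ℕ) (n : ℕ) : (LS2_A M X₀ n).Countable := by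
  induction n with
  | zero => exact Set.countable_singleton X₀
  | succ n ih =>
    haveI : Countable (LS2_A M X₀ n) := ih.to_subtype
    exact ih.union (Set.countable_range _)

private theorem LS2_sub {M : Set (Set ℕ)} {X₀ : Set ℕ} (h0 : X₀ ∈ M) (n : ℕ) : LS2_A M X₀ n ⊆ M := by
  induction n with
  | zero => rintro X rfl; exact h0
  | succ n ih =>
    rintro X (hX | ⟨p, rfl⟩)
    · exact ih hX
    · exact LS2_w_mem h0 _ _ _

private theorem LS2_mono (M : Set (Set ℕ)) (X₀ : Set ℕ) {n m : ℕ} (h : n ≤ m) :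
    LS2_A M X₀ n ⊆ LS2_A M X₀ m := by
  induction h with
  | refl => exact fun X hX => hX
  | step _ ih => exact fun X hX => Or.inl (ih hX)

private theorem LS2_list (M : Set (Set ℕ)) (X₀ : Set ℕ) (L : List (Set ℕ))
    (hL : ∀ X ∈ L, X ∈ ⋃ n, LS2_A M X₀ n) : ∃ n, ∀ X ∈ L, X ∈ LS2_A M X₀ n := by
  induction L with
  | nil => exact ⟨0, fun X hX => absurd hX (by simp)⟩
  | cons Y L ih =>
    obtain ⟨n, hn⟩ := ih (fun X hX => hL X (by simp [hX]))
    obtain ⟨m, hm⟩ := Set.mem_iUnion.1 (hL Y (by simp))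
    refine ⟨max n m, fun X hX => ?_⟩
    rcases List.mem_cons.1 hX with rfl | hX
    · exact LS2_mono M X₀ (le_max_right n m) hm
    · exact LS2_mono M X₀ (le_max_left n m) (hn X hX)

private theorem LS2_closed (M : Set (Set ℕ)) (X₀ : Set ℕ) (k m : ℕ) (L : List (Set ℕ))
    (hL : ∀ X ∈ L, X ∈ ⋃ n, LS2_A M X₀ n) : LS2_w M X₀ k m L ∈ ⋃ n, LS2_A M X₀ n := by
  obtain ⟨n, hn⟩ := LS2_list M X₀ L hL
  refine Set.mem_iUnion.2 ⟨n + 1, Or.inr ⟨(k, m, L.attach.map (fun X => ⟨X.1, hn X.1 X.2⟩)), ?_⟩⟩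
  show LS2_w M X₀ k m ((L.attach.map _).map Subtype.val) = _
  congr 1
  rw [List.map_map]
  exact List.attach_map_subtype_val L

private theorem LS2_elem (t1 : S_T1) (t2 : S_T2) (t3 : S_T3) (M : Set (Set ℕ)) (X₀ : Set ℕ) (h0 : X₀ ∈ M)
    (φ : F) : ∀ v V, (∀ i, V i ∈ ⋃ n, LS2_A M X₀ n) →
      (eval (⋃ n, LS2_A M X₀ n) ∅ φ v V ↔ eval M ∅ φ v V) := by
  have hsub : ∀ X ∈ ⋃ n, LS2_A M X₀ n, X ∈ M := by
    intro X hX
    obtain ⟨n, hn⟩ := Set.mem_iUnion.1 hX
    exact LS2_sub h0 n hn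
  have hsc : ∀ X ∈ ⋃ n, LS2_A M X₀ n, ∀ V : ℕ → Set ℕ, (∀ i, V i ∈ ⋃ n, LS2_A M X₀ n) →
      ∀ i, sc X V i ∈ ⋃ n, LS2_A M X₀ n := by
    intro X hX V hV i
    rcases i with _ | i
    · exact hX
    · exact hV i
  induction φ with
  | fls => intro v V hV; exact Iff.rfl
  | add i j k => intro v V hV; exact Iff.rfl
  | mul i j k => intro v V hV; exact Iff.rfl
  | mem i j => intro v V hV; exact Iff.rfl
  | cc j => intro v V hV; exact Iff.rfl
  | neg φ ih => intro v V hV; exact not_congr (ih v V hV)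
  | and φ ψ ih1 ih2 => intro v V hV; exact and_congr (ih1 v V hV) (ih2 v V hV)
  | allN φ ih => intro v V hV; exact forall_congr' fun n => ih (nc n v) V hV
  | allS φ ih =>
    intro v V hV
    constructor
    · intro h X hX
      by_contra hcon
      obtain ⟨k, hk⟩ := t1 φ
      obtain ⟨b, hb⟩ := t2 φ
      obtain ⟨m, hm⟩ := t3 v b
      set L : List (Set ℕ) := (List.range b).map V with hL
      have hLV : ∀ j < b, L.getD j X₀ = V j := by
        intro j hj
        simp [hL, List.getD, hj]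
      have heq : ∀ Y, eval M ∅ φ (fun i => get i m) (sc Y (fun j => L.getD j X₀)) ↔
          eval M ∅ φ v (sc Y V) := by
        intro Y
        refine hb M ∅ _ _ _ _ (fun i hi => hm i hi) ?_
        intro i hi
        rcases i with _ | i
        · rfl
        · exact hLV i (by omega)
      have hex : ∃ X ∈ M, ¬ eval M ∅ (dec k) (fun i => get i m) (sc X (fun j => L.getD j X₀)) := by
        refine ⟨X, hX, ?_⟩
        rw [hk, heq]; exact hcon
      have hw : LS2_w M X₀ k m L ∈ ⋃ n, LS2_A M X₀ n := by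
        apply LS2_closed
        intro Y hY
        obtain ⟨j, -, rfl⟩ := List.mem_map.1 hY
        exact hV j
      have hw2 : ¬ eval M ∅ φ v (sc (LS2_w M X₀ k m L) V) := by
        have e : LS2_w M X₀ k m L = hex.choose := by
          unfold LS2_w
          rw [dif_pos hex]
        have h2 := hex.choose_spec.2
        rw [← e, hk, heq] at h2
        exact h2
      exact hw2 ((ih v _ (hsc _ hw V hV)).1 (h _ hw))
    · intro h X hX
      exact (ih v _ (hsc X hX V hV)).2 (h X (hsub X hX))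

theorem tLS2 (t1 : S_T1) (t2 : S_T2) (t3 : S_T3) : S_LS2 := by
  intro M hM
  obtain ⟨X₀, h0⟩ := hM.1
  have hel := LS2_elem t1 t2 t3 M X₀ h0
  set M' : Set (Set ℕ) := ⋃ n, LS2_A M X₀ n with hM'
  have hsub : M' ⊆ M := by
    intro X hX
    obtain ⟨n, hn⟩ := Set.mem_iUnion.1 hX
    exact LS2_sub h0 n hn
  refine ⟨M', hsub, Set.countable_iUnion (fun n => LS2_cnt M X₀ n), ⟨⟨X₀, Set.mem_iUnion.2 ⟨0, rfl⟩⟩, ?_⟩, ?_, hel⟩
  · intro φ v V hV
    set Y : Set ℕ := {n | eval M ∅ φ (nc n v) V} with hY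
    have hYM : Y ∈ M := hM.2 φ v V (fun i => hsub (hV i))
    set ψ : F := F.ren (fun i => i) (fun j => j + 1) φ with hψ
    set χ : F := .allN (.and (.neg (.and (.mem 0 0) (.neg ψ))) (.neg (.and ψ (.neg (.mem 0 0))))) with hχ
    have hren : ∀ U n X, eval U ∅ ψ (nc n v) (sc X V) ↔ eval U ∅ φ (nc n v) V := by
      intro U n X
      exact eval_ren U ∅ φ _ _ _ _
    have h1 : ¬ eval M ∅ (.allS (.neg χ)) v V := by
      intro h
      refine h Y hYM ?_
      intro n
      refine ⟨?_, ?_⟩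
      · rintro ⟨h2, h3⟩
        exact h3 ((hren M n Y).2 h2)
      · rintro ⟨h2, h3⟩
        exact h3 ((hren M n Y).1 h2)
    rw [← hel _ v V hV] at h1
    have h2 : ∃ X ∈ M', eval M' ∅ χ v (sc X V) := by
      by_contra hcon
      push Not at hcon
      exact h1 (fun X hX => hcon X hX)
    obtain ⟨X, hX, h3⟩ := h2
    have e : {n | eval M' ∅ φ (nc n v) V} = X := by
      ext n
      obtain ⟨h4, h5⟩ := h3 n
      constructor
      · intro h6
        by_contra h7
        exact h5 ⟨(hren M' n X).2 h6, h7⟩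
      · intro h6
        by_contra h7
        exact h4 ⟨h6, fun h8 => h7 ((hren M' n X).1 h8)⟩
    rw [e]; exact hX
  · rintro hB R ⟨φ, ha, hφ⟩ v V hV hex
    obtain ⟨X, hX, hR⟩ := hB R ⟨φ, ha, hφ⟩ v V (fun i => hsub (hV i)) hex
    by_contra hcon
    push Not at hcon
    have h1 : eval M' ∅ (.allS (.neg φ)) v V := by
      intro Y hY h2
      exact hcon Y hY ((hφ _ _).2 ((eval_arith ha _ _ _ _ _ _).1 h2))
    rw [hel _ v V hV] at h1
    exact h1 X hX ((eval_arith ha _ _ _ _ _ _).1 ((hφ _ _).1 hR))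

end B8d
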