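import Pool.Agent.Lib.MP_8dbd20_lc.Hi.Spec2
import Pool.Agent.Lib.Z2.Fo.SpecC

/-!
# MP_8dbd20_lc, block Fi: β-ness, failure of Π¹₂-dependent choice, final theorem

Framework 1 = Frame.lean to Frame4.lean (`F`, `eval`, `Ar`, `AN`, `AS`, `UD`; automation
`aesop (config := { enableSimp := false })`).  `x.1, x.2` in the proofs = components of `unpair`.
-/

set_option linter.unusedVariables false

namespace B8d

open Pool.Agent.Lib.Z2 (Str Dfn DF Fm IsZ2 IsBeta HasAC HasPi12DC Node inn Cond IsI NT NN gen Uni Gen sg tr)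

/-! ## Be: from well-orders to Σ¹₁ formulas (Kleene-Brouwer) -/

/-- nodes of the tree of finite sequences are numbers: `0` is the root, `ch x a` the child `a` -/
def ch (x a : ℕ) : ℕ := Nat.pair x a + 1
/-- parent -/
def pr (x : ℕ) : ℕ := (x - 1).unpair.1
/-- last label -/
def lb (x : ℕ) : ℕ := (x - 1).unpair.2
/-- iterated parent -/
def prI (i x : ℕ) : ℕ := Nat.rec x (fun _ y => pr y) i
/-- length of the sequence coded by `x` -/
noncomputable def ln (x : ℕ) : ℕ := sInf {i | prI i x = 0}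
/-- truncation to length `m` -/
noncomputable def tc (x m : ℕ) : ℕ := prI (ln x - m) x
/-- entry number `i` -/
noncomputable def en (x i : ℕ) : ℕ := lb (tc x (i + 1))
/-- code of the sequence `f 0, …, f (n-1)` -/
def sq (f : ℕ → ℕ) (n : ℕ) : ℕ := Nat.rec 0 (fun i x => ch x (f i)) n
/-- `x` extends `y` -/
def Exn (x y : ℕ) : Prop := ∃ i, prI i x = y
/-- Kleene-Brouwer order -/
def KBlt (x y : ℕ) : Prop := (x ≠ y ∧ Exn x y) ∨ ∃ z a b, a < b ∧ Exn x (ch z a) ∧ Exn y (ch z b)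
/-- Kleene-Brouwer order of the set of nodes `T`, as a reflexive order -/
def KB (T : Set ℕ) : Set ℕ :=
  {w | w.unpair.1 ∈ T ∧ w.unpair.2 ∈ T ∧ (w.unpair.1 = w.unpair.2 ∨ KBlt w.unpair.1 w.unpair.2)}
/-- graph of a function -/
def gr (f : ℕ → ℕ) : Set ℕ := {x | x.unpair.2 = f x.unpair.1}

/-- Be0. Basic computations with sequences.
PROOF. `pr (ch x a) = x`, `lb (ch x a) = a`, `pr x < x` for `0 < x` (so iterated parents reach `0`),
`prI (i+1) x = pr (prI i x) = prI i (pr x)`, `prI m (sq f n) = sq f (n - m)`; hence `ln (sq f n) = n` (the values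
`sq f m`, `m > 0`, are not `0`), `tc (sq f n) m = sq f m` for `m ≤ n`, `en (sq f n) i = f i` for `i < n`.
Every `x` is `sq f (ln x)` for `f = en x`. Definability: `prI` by `AN.natRec`, `ln` by `AN.sInf`. -/
def S_Be0 : Prop :=
  (∀ f n, ln (sq f n) = n) ∧ (∀ f n m, m ≤ n → tc (sq f n) m = sq f m) ∧
  (∀ f n i, i < n → en (sq f n) i = f i) ∧ (∀ x, sq (en x) (ln x) = x) ∧
  (∀ f g n, (∀ i < n, f i = g i) → sq f n = sq g n) ∧
  (∀ x a, ln (ch x a) = ln x + 1 ∧ tc (ch x a) (ln x) = x) ∧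
  AN (fun v _ => prI (v 0) (v 1)) ∧ AN (fun v _ => ln (v 0)) ∧ AN (fun v _ => tc (v 0) (v 1)) ∧
  AN (fun v _ => en (v 0) (v 1))

/-- Be1. The Kleene-Brouwer order is linear, and an arithmetical set term.
PROOF. Every node is `sq f n` (Be0). `Exn (sq f n) (sq g m)` iff `m ≤ n` and `f i = g i` for `i < m`. For two
different sequences either one extends the other properly or there is a first difference; this
gives exactly one of `KBlt x y`, `x = y`, `KBlt y x`; transitivity by comparing the places of the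
first differences. -/
def S_Be1 : Prop := (∀ T, LinO (KB T)) ∧ AS (fun _ V => KB (V 0)) ∧
  (∀ x y, KBlt x y → ¬ KBlt y x) ∧ ∀ x, ¬ KBlt x x

/-- Be2. A branch is a descending sequence. PROOF. `g = gr (sq f)`; `sq f (n+1)` extends `sq f n` properly. -/
def S_Be2 : Prop := ∀ (T : Set ℕ) (f : ℕ → ℕ), (∀ n, sq f n ∈ T) → Desc (gr (sq f)) (KB T)

/-- Be3. A descending sequence gives a branch.
PROOF. Let `x k` be the least `x` with `⟨k,x⟩ ∈ g`, so `KBlt (x (k+1)) (x k)`, all `x k ∈ T`. Call `z` good if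
`∃ k₀, ∀ k ≥ k₀, Exn (x k) z`. The root is good; two good nodes are comparable (extensions of each
other); claim: a good node `z` has exactly one good child. For `k ≥ k₀` the `x k` extend `z`; they are
pairwise different (the order is strict), and if `x k = z` for some `k ≥ k₀` then `x (k+1)` extends `z`
properly and no later `x j` equals `z` (linearity); so for `k ≥ k₁` the `x k` extend a child `ch z (a k)`. By
`KBlt (x (k+1)) (x k)` (both extend `z` properly) `a (k+1) ≤ a k`. So `a k` is eventually constant. Let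
`f n =` the label `a` such that some good node of length `n` has the good child with label `a`
(`sInf`). Then `sq f n` is good for every `n`, hence in `T` (closure under parents). `f` is arithmetical in
`g`, so `gr f ∈ K`. -/
def S_Be3 : Prop := ∀ K : Set (Set ℕ), ArClosed K → ∀ T ∈ K, (∀ x a, ch x a ∈ T → x ∈ T) →
  ∀ g ∈ K, Desc g (KB T) → ∃ f : ℕ → ℕ, gr f ∈ K ∧ ∀ n, sq f n ∈ T

/-- representable relations: `P f₀ v V ↔ ∃ f₁ ∀ n, Q (f₀|n) (f₁|n) v V` with arithmetical `Q` -/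
def Rep (P : (ℕ → ℕ) → (ℕ → ℕ) → (ℕ → Set ℕ) → Prop) : Prop :=
  ∃ Q : ℕ → ℕ → (ℕ → ℕ) → (ℕ → Set ℕ) → Prop, Ar (fun v V => Q (v 0) (v 1) (fun i => v (i + 2)) V) ∧
    ∀ f₀ v V, P f₀ v V ↔ ∃ f₁ : ℕ → ℕ, ∀ n, Q (sq f₀ n) (sq f₁ n) v V

/-- Be4. Atoms are representable.
PROOF. First: `Q` = the relation itself (`R` does not depend on `f₀`). Second: `Q s t v V :=
(v i < ln s → en s (v i) ≠ 0)`, third: `… = 0`. -/
def S_Be4 : Prop := (∀ R, Ar R → Rep (fun _ v V => R v V)) ∧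
  (∀ i : ℕ, Rep (fun f₀ v _ => f₀ (v i) ≠ 0)) ∧ (∀ i : ℕ, Rep (fun f₀ v _ => f₀ (v i) = 0))

/-- Be5. Conjunction and disjunction of representable relations.
PROOF. `f₁ n = ⟨g n, h n⟩` codes two functions. The codes `sq g n`, `sq h n` are arithmetical functions
of `sq f₁ n`: let `p1 t` be the code `w` with `ln w = ln t` and `en w i = (en t i).1` for `i < ln t` (the least
such `w`, `AN.sInf`, exists by Be0), `p2 t` in the same way; `p1 (sq f₁ n) = sq (fun i => (f₁ i).1) n`.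
Conjunction: `Q s t := Q₁ s (p1 t) ∧ Q₂ s (p2 t)`. Disjunction: `f₁ n = ⟨flag, g n⟩`:
`Q s t := 1 ≤ ln t → ((en t 0).1 = 0 → ∀ m ≤ ln t, Q₁ (tc s m) (tc (p2 t) m)) ∧
((en t 0).1 ≠ 0 → ∀ m ≤ ln t, Q₂ (tc s m) (tc (p2 t) m))`. -/
def S_Be5 : Prop := ∀ P P', Rep P → Rep P' →
  Rep (fun f₀ v V => P f₀ v V ∧ P' f₀ v V) ∧ Rep (fun f₀ v V => P f₀ v V ∨ P' f₀ v V)

/-- Be6. Number quantifiers.
PROOF. `∃ k`: `f₁ 0 = k`, `f₁ (n+1) = g n`. Let `sh t` be the code with `ln (sh t) = ln t - 1`,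
`en (sh t) i = en t (i+1)` (least such, `AN.sInf`); `Q s t := 1 ≤ ln t → ∀ m ≤ ln t - 1,
Q₀ (tc s m) (tc (sh t) m) (nc (en t 0) v) V`. `∀ k`: `f₁ ⟨k, n⟩ = g_k n`. `Q s t := ∀ k m w, m ≤ ln s → ln w = m →
(∀ i < m, ⟨k,i⟩ < ln t ∧ en w i = en t ⟨k,i⟩) → Q₀ (tc s m) w (nc k v) V` (choice of the functions `g_k` for
the direction from left to right). -/
def S_Be6 : Prop := ∀ P : (ℕ → ℕ) → (ℕ → ℕ) → (ℕ → Set ℕ) → Prop, Rep P →
  Rep (fun f₀ v V => ∃ k, P f₀ (nc k v) V) ∧ Rep (fun f₀ v V => ∀ k, P f₀ (nc k v) V)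

/-- Be7. Kleene normal form.
PROOF. For arithmetical `φ : F` both `P f₀ v V = eval ∅ ∅ φ v (sc {k | f₀ k ≠ 0} V)` and its negation are
representable: induction on `φ` with Be4, Be5, Be6 (`mem i 0` is the second and third item of Be4,
`mem i (j+1)`, `add`, `mul` the first; `neg` swaps; `allN`: `¬ ∀` is `∃ ¬`). For `R` with `Ar R` get `Q` for
`P = R v (sc {k | f₀ k ≠ 0} V)`. Put `Q' x v V := Q (p1 x) (p2 x) v V` where `p1 x`, `p2 x` are the codes of
length `ln x` with entries `(en x i).1`, `(en x i).2` (see Be5). For `f` with `f k = ⟨f₀ k, f₁ k⟩`: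
`p1 (sq f n) = sq f₀ n`. -/
def S_Be7 : Prop := ∀ R, Ar R → ∃ Q : ℕ → (ℕ → ℕ) → (ℕ → Set ℕ) → Prop,
  Ar (fun v V => Q (v 0) (fun i => v (i + 1)) V) ∧ ∀ v V,
    ((∃ X, R v (sc X V)) → ∃ f : ℕ → ℕ, ∀ n, Q (sq f n) v V) ∧
    (∀ f : ℕ → ℕ, (∀ n, Q (sq f n) v V) → R v (sc {k | (f k).unpair.1 ≠ 0} V))

/-- Be8. β-ness.
PROOF. Let `R` be arithmetical, `V i ∈ K`, `∃ X, R v (sc X V)`; `Q` from Be7, `f` a function with
`Q (sq f n) v V` for all `n`. `T = {x | ∀ m ≤ ln x, Q (tc x m) v V} ∈ K` is closed under parents (Be0) and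
contains all `sq f n`. Suppose no `g ∈ K` is a descending sequence of `KB T`. Lemma E (`KB T ∈ K`, `LinO`
by Be1) gives `Z ∈ U`, `HCin M Z`, and an isomorphism `h` of the orders `KB T`, `sec Z 0`. The true
descending sequence `gr (sq f)` of `KB T` (Be2) gives the true descending sequence
`{⟨k, h x⟩ | ⟨k,x⟩ ∈ gr (sq f)}` of `sec Z 0`; as `Desc` is arithmetical (L0b) and `M` satisfies
`BetaI` there is one in `M`: contradiction to `HCin M Z`. So some `g ∈ K` is a descending sequence,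
Be3 gives `f'` with `gr f' ∈ K` and `sq f' n ∈ T`, so `Q (sq f' n) v V` (`m = n`), and
`X = {k | (f' k).1 ≠ 0} ∈ K` satisfies `R v (sc X V)`. -/
def S_Be8 : Prop := ∀ M U C K, KH M U C K → BetaI M → BetaI K

/-! ## Fi: the failure of dependent choice -/

/-- bounded (finite) set of numbers -/
def Bd (A : Set ℕ) : Prop := ∃ b, ∀ k ∈ A, k < b
/-- the places where `(y,z)` is bad for the code `c` -/
def bad (c y z : Set ℕ) : Set ℕ := {k | k ∈ z ∧ sg k z y ∈ Gam c}
/-- certified pair -/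
def CertC (C : Set (Set ℕ)) (y z : Set ℕ) : Prop := ¬ Bd z ∧ ∀ c ∈ C, Bd (bad c y z)
def AA (Z W y z : Set ℕ) : Prop :=
  Desc W (sec Z 0) ∨ ¬ Local Z ∨ ∀ i ∈ fld Z, Bd (bad (sec Z (i + 1)) y z)
def CertN (N : Set (Set ℕ)) (y z : Set ℕ) : Prop := ¬ Bd z ∧ ∀ Z ∈ N, ∃ W ∈ N, AA Z W y z
/-- `W` is a witness that `(y,z)` is not certified -/
def Wit (N : Set (Set ℕ)) (y z W : Set ℕ) : Prop :=
  Bd z ∨ (HCin N W ∧ ∃ i ∈ fld W, ¬ Bd (bad (sec W (i + 1)) y z))
/-- the relation which has no chain -/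
def Phi (N : Set (Set ℕ)) (X Y : Set ℕ) : Prop :=
  CertN N (sec Y 0) (sec Y 1) ∧
    ((sec Y 0 = sec X 1 ∧ CertN N (sec X 0) (sec X 1)) ∨ Wit N (sec X 0) (sec X 1) (sec Y 2))
/-- arithmetical matrix of `Phi` -/
def Mx (X Y A B : Set ℕ) : Prop :=
  ¬ Bd (sec Y 1) ∧ AA (sec A 0) (sec B 0) (sec Y 0) (sec Y 1) ∧
  ((sec Y 0 = sec X 1 ∧ ¬ Bd (sec X 1) ∧ AA (sec A 1) (sec B 1) (sec X 0) (sec X 1)) ∨
    Bd (sec X 1) ∨
    (Local (sec Y 2) ∧ ¬ Desc (sec A 2) (sec (sec Y 2) 0) ∧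
      ∃ i ∈ fld (sec Y 2), ¬ Bd (bad (sec (sec Y 2) (i + 1)) (sec X 0) (sec X 1))))

/-- Fi0. Primitive recursive functions are arithmetical terms; `sg` is an arithmetical term.
PROOF. First part: a code `c` with `c.eval n = Part.some (g n)` (`Z2.exists_code_nat`) and Br1. For `sg`:
`encode (tr z k)` by recursion on `k` (`AN.natRec`): `tr z (k+1) = tr z k ++ [k]` if `k ∈ z`, else `tr z k`; the
map `x, k ↦ encode (decode x ++ [k])` is primitive recursive (`Primrec.decode`, `Primrec.list_append`,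
`Primrec.encode`; take `(decode x).getD []`), as a function of `Nat.pair x k`; `AN.ite`. -/
def S_Fi0 : Prop := (∀ g : ℕ → ℕ, Primrec g → AN (fun v _ => g (v 0))) ∧
  AN (fun v V => sg (v 0) (V 0) (V 1))

/-- Fi1. The matrix is arithmetical.
PROOF. `Local` L0, `Desc` and `Gam` L0b, `sg` Fi0; `Bd`, `bad`, `fld` unfold; then aesop. -/
def S_Fi1 : Prop := Ar (fun _ V => Mx (V 3) (V 2) (V 1) (V 0))

/-- Fi2. Prenex form.
PROOF. `K` is closed under arithmetical operations, so three sets of `K` are sections of one set of `K`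
and sections of sets of `K` are in `K`. (→) choose `A` with the sections needed; (←) given `A` choose
witnesses for `CertN` for `sec A 0` (and `sec A 1` in the first case) and put them in one `B`. For the last
disjunct: `¬ Desc f (sec (sec Y 2) 0)` for all `f ∈ K`. If neither `Bd (sec X 1)` nor the first
disjunct of `Phi` holds, there is `Z₁ ∈ K` without `W₁` (or `sec Y 0 ≠ sec X 1`, or …); use it as
`sec A 1` together with an arbitrary `sec A 2 = f` to see that the third disjunct holds for `f`. -/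
def S_Fi2 : Prop := ∀ K, Mod2 K → ∀ X ∈ K, ∀ Y ∈ K,
  ((∀ A ∈ K, ∃ B ∈ K, Mx X Y A B) ↔ Phi K X Y)

/-- Fi4. Certificates in `K`.
PROOF. By `S_LemEC`, `c ∈ C ↔ ∃ Z ∈ K, HCin K Z ∧ c ∈ Ent Z`. (→) Let `c ∈ C` be the entry `i` of `Z ∈ K`,
`HCin K Z`; the `W ∈ K` with `AA Z W y z` is not a descending sequence, `Local Z`, so `bad c y z` is
bounded. (←) Let `Z ∈ K`. If `Z` has a descending sequence `W ∈ K` take it; else any `W ∈ K` (e.g. `Z`): if
`Local Z` then `HCin K Z`, so all entries are in `C`. -/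
def S_Fi4 : Prop := ∀ M U C K, KH M U C K → ∀ y ∈ K, ∀ z ∈ K, (CertN K y z ↔ CertC C y z)

/-- The results on the generic tree (block Un, helper33): every edge is certified, certified pairs
with names supported in `T` are edges of `T`, the generic reals are pairwise different. -/
structure Edges (U C : Set (Set ℕ)) (G : Cond → Prop) : Prop where
  cert : ∀ s : Node, CertC C {k | s ≠ [] ∧ k ∈ gen G s.tail} (gen G s)
  uniq : ∀ T, IsI (SU U C) T → ∀ y ∈ NT (SU U C) G T, ∀ z ∈ NT (SU U C) G T, CertC C y z →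
    ∃ s, inn T s ∧ z = gen G s ∧ y = {k | s ≠ [] ∧ k ∈ gen G s.tail}
  inj : ∀ s t : Node, gen G s = gen G t → s = t

/-- The situation of the final part. -/
structure Sit (M U C : Set (Set ℕ)) (G : Cond → Prop) : Prop where
  univ : Univ M U C
  uni : Uni (SU U C) Gam
  gn : Gen (SU U C) Gam G
  edges : Edges U C G

/-- Fi3. The generic model satisfies the hypotheses of Lemma E.
PROOF. `haveI := Univ.good`. `U ⊆ N` and `N` nonempty: `Z2.S_Nms`. `Mod2 N`: `Z2.S_Z2` and Br8. No list: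
`Z2.S_NoL`. Preservation: let `R ∈ U` have no descending sequence in `U`. `R° = {x | x.1 ≠ x.2 ∧ x ∈ R} ∈ U` (so
`⟨y,x⟩ ∈ R° ↔ ltR R y x`) is well-founded for nonempty `B ∈ U`: otherwise define `f 0 ∈ B`, `f (n+1)` = least
`y ∈ B` with `⟨y, f n⟩ ∈ R°`; the graph is arithmetical in `B, R` (`AN.natRec`), so in `U` (S_E5U), a descending
sequence. `Z2.S_Pres`: the same for `B ∈ N`. If `f ∈ N` were a descending sequence of `R` then
`B = {x | ∃ k, ⟨k,x⟩ ∈ f} ∈ N` (arithmetical) has no minimal element. -/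
def S_Fi3 : Prop := ∀ M U C G, Sit M U C G → KH M U C (NN (SU U C) G)

/-- Fi5. Totality.
PROOF. `N = NN (SU U C) G`, `KH` by Fi3. Let `X ∈ N`, `y = sec X 0`, `z = sec X 1`. Case 1: `CertC C y z`. By
`Z2.S_Nms` and `Z2.S_NTs`, `y, z ∈ NT T` for some `T` in the ideal, `Edges.uniq`: `z = gen G s`. Let
`Y` have the sections `gen G s`, `gen G (0 :: s)`, `∅` (in `N`: `Z2.S_GenR` with the suffixes of the node,
`Z2.S_IFin`); `CertN N` of both pairs by `Edges.cert` and Fi4. Case 2: not certified: `z` bounded or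
`¬ Bd (bad c y z)` for some `c ∈ C`; take `W ∈ N`, `HCin N W`, `c ∈ Ent W` (`S_LemEC`); `Y` has the sections
`∅`, `gen G []`, `W`. -/
def S_Fi5 : Prop := ∀ M U C G, Sit M U C G → ∀ X ∈ NN (SU U C) G, ∃ Y ∈ NN (SU U C) G,
  Phi (NN (SU U C) G) X Y

/-- Fi6. The sequence of all generic reals of a support has a name.
PROOF. As for `Z2.S_GenR`, simultaneously for all `s`: name `ρ`, `sec ρ ⟨⟨encode s, k⟩, i⟩ = cdc (t, [])` if
`encode t = i`, `IsCond S (t, [])`, `inn T s`, all nodes of `t` are suffixes of `s`, `(s, k)` is a bit of `t`;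
`∅` otherwise. `ρ ∈ U` by `Uni.comp` (definability: `Z2.S_Cdc`, `Z2.S_Ic`, `Z2.S_Inn`). Supported in `T`
(closure under parents). -/
def S_Fi6 : Prop := ∀ (S : Str) [GoodS S] (Gm : Set ℕ → Set ℕ), Uni S Gm → ∀ G, Gen S Gm G →
  ∀ T, IsI S T →
  {x | ∃ (s : Node) (k : ℕ), x = Nat.pair (Encodable.encode s) k ∧ inn T s ∧ k ∈ gen G s} ∈ NT S G T

/-- Fi7. No chain.
PROOF. Let `Z ∈ N` with `Phi N (Z)_n (Z)_{n+1}` for all `n`, `Z ∈ NT T`, `T` in the ideal (`Z2.S_Nms`); all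
sections are in `NT T` (`Z2.S_NTs`). For `n ≥ 1` the pair `((Z)_n)_0, ((Z)_n)_1` is certified (`CertN`, so
`CertC` by Fi4), hence an edge: node `s_n ∈ T`, `((Z)_n)_1 = gen G s_n`. For `n ≥ 1` the witness clause
`Wit N` for `X = (Z)_n` fails (the second component is unbounded; an `N`-hierarchy code has entries in
`C`, `S_LemEC`), so `((Z)_{n+1})_0 = ((Z)_n)_1 = gen G s_n`. It is also
`{k | s_{n+1} ≠ [] ∧ k ∈ gen G s_{n+1}.tail}`; `gen G s_n` is not empty (unbounded), so `s_{n+1} ≠ []` and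
`s_{n+1}.tail = s_n` (`Edges.inj`): `s_{n+1} = a :: s_n`. Let `B_T ∈ NT T ⊆ N` be the real of Fi6 (its section
at `encode s`, `s ∈ T`, is `gen G s`) and `B = {x ∈ T | ∃ n ≥ 1, sec B_T x = sec (sec Z n) 1} ∈ N`
(arithmetical). For a node `s`: `encode s ∈ B` iff `s ∈ T` and `s = s_n` for some `n ≥ 1`. `B` is a nonempty set
of nodes of `T`, closed under having a child: contradiction to `Z2.S_PresT`. -/
def S_Fi7 : Prop := ∀ M U C G, Sit M U C G →
  ¬ ∃ Z ∈ NN (SU U C) G, ∀ n, Phi (NN (SU U C) G) (sec Z n) (sec Z (n + 1))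

/-- Fi8. `Π¹₂`-DC fails in the generic model.
PROOF. By Fi1 and Br7 (b) there is an arithmetical `θ : Fm` with
`θ.Sat M e (ex B (ex A (ex Y (ex X E)))) ↔ Mx X Y A B`. The formula `allS (exS θ)` at `(ex Y (ex X E))` says
`∀ A ∈ N, ∃ B ∈ N, Mx X Y A B`, i.e. `Phi N X Y` by Fi2. The instance of DC (parameters: `e = 0`,
`E i` any member of `N`) has a true hypothesis (Fi5) and a false conclusion (Fi7). -/
def S_Fi8 : Prop := ∀ M U C G, Sit M U C G → ¬ HasPi12DC (NN (SU U C) G)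

/-- Fi9. Definability and closure needed for `Uni`.
PROOF. `pm` rfl, `cnt` hypothesis, `comp`: `Univ.comp`. `ac` (partial version): apply `Univ.ac` to
`P' n X := P n X ∨ ((¬ ∃ Y ∈ U, P n Y) ∧ X = ∅)`. `noSurj`: `Univ.noSurj`. `gm : DF S Gam`: values: `Gam X ∈ U` for
`X ∈ U` (S_E5U, L0b); graph: `Z2.DF.set` with membership `Dfn` by Br4 and L0b. -/
def S_Fi9 : Prop := ∀ M U C, Univ M U C → U.Countable → Uni (SU U C) Gam

/-- coded well-orders, defined without reference to a model -/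
def CodesWO (R : Set ℕ) : Prop := LinO R ∧
  ∀ A : Set ℕ, A.Nonempty → (∀ i ∈ A, Nat.pair i i ∈ R) → ∃ i ∈ A, ∀ j ∈ A, Nat.pair i j ∈ R

/-- isomorphism of the orders coded by `R` and `R'` -/
def IsoO (R R' : Set ℕ) : Prop := ∃ h : ℕ → ℕ, (∀ i, Nat.pair i i ∈ R → Nat.pair (h i) (h i) ∈ R') ∧
  (∀ i j, Nat.pair i i ∈ R → Nat.pair j j ∈ R → (Nat.pair i j ∈ R ↔ Nat.pair (h i) (h j) ∈ R')) ∧
  (∀ j, Nat.pair j j ∈ R' → ∃ i, Nat.pair i i ∈ R ∧ h i = j)

/-- Fi10. Height.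
PROOF. A true well-order has no descending sequence (the range of a descending sequence has no least
element). S_LemE for `N` (`KH` by Fi3): `Z ∈ U ⊆ M`, `R' = sec Z 0 ∈ M`, isomorphic to `R`, hence a
well-order, too. -/
def S_Fi10 : Prop := ∀ M U C G, Sit M U C G → ∀ R ∈ NN (SU U C) G, CodesWO R →
  ∃ R' ∈ M, CodesWO R' ∧ IsoO R R'

/-- Fi11. Assembly.
PROOF. `Mod2 M` (Br8). LS: countable `M' ⊆ M`, `Mod2 M'`, and `BetaI M'` if `BetaI M`. `U = UM M'`,
`C = CM M'`, `Univ M' U C` (S_Univ), `U ⊆ M'` countable, `Uni` (Fi9), a generic `G` (`Z2.S_GenEx` below the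
trivial condition `Z2.triv`, `Z2.S_Triv`), `Edges` (hypothesis `hU`). `N = NN (SU U C) G`: `IsZ2` (`Z2.S_Z2`),
`HasAC` (`Z2.S_Ac`), not `HasPi12DC` (Fi8), well-orders (Fi10), and `BetaI N` by Be8 and Fi3 if
`BetaI M`; Br8. -/
def S_Fi11 : Prop := (∀ M U C G, Univ M U C → Uni (SU U C) Gam → Gen (SU U C) Gam G → Edges U C G) →
  ∀ M : Set (Set ℕ), M.Nonempty → IsZ2 M → ∃ N : Set (Set ℕ), N.Nonempty ∧ IsZ2 N ∧ HasAC N ∧
    ¬ HasPi12DC N ∧ (IsBeta M → IsBeta N) ∧
    ∀ R ∈ N, CodesWO R → ∃ R' ∈ M, CodesWO R' ∧ IsoO R R'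

end B8d
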