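import Pool.Agent.Lib.MP_8dbd20_lc.Fi.Spec
import Pool.Agent.Lib.Z2.Un.V
import Pool.Agent.Lib.Z2.Un.W

/-!
# MP_8dbd20_lc, block Un: the edges of the generic tree are exactly the certified pairs
-/

set_option linter.unusedVariables false

namespace B8d

open Pool.Agent.Lib.Z2 (Str Dfn DF Fm IsZ2 IsBeta HasAC HasPi12DC Node inn Cond IsI NT NN gen Uni Gen sg tr evl sec jn)

theorem bd_iff {A : Set ℕ} : Bd A ↔ A.Finite := by
  constructor
  · rintro ⟨b, hb⟩
    exact (Set.finite_lt_nat b).subset (fun k hk => hb k hk)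
  · intro h
    obtain ⟨b, hb⟩ := h.bddAbove
    exact ⟨b + 1, fun k hk => Nat.lt_succ_of_le (hb hk)⟩

section
variable {M U C : Set (Set ℕ)} {G : Cond → Prop}

theorem exists_min (hU : Univ M U C) (F : List (Set ℕ)) (hF : ∀ c ∈ F, c ∈ C) (hne : F ≠ []) :
    ∃ d ∈ F, ∀ c ∈ F, c = d ∨ d ∈ Ss c := by
  induction F with
  | nil => exact absurd rfl hne
  | cons x F ih =>
    by_cases hF0 : F = []
    · subst hF0
      exact ⟨x, by simp, fun c hc => Or.inl (by simpa using hc)⟩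
    · obtain ⟨d, hd, h⟩ := ih (fun c hc => hF c (by simp [hc])) hF0
      have hx : x ∈ C := hF x (by simp)
      have hdC : d ∈ C := hF d (by simp [hd])
      rcases hU.lin x hx d hdC with h1 | h1 | h1
      · refine ⟨d, by simp [hd], fun c hc => ?_⟩
        rcases List.mem_cons.1 hc with h2 | h2
        · exact Or.inl (h2.trans h1)
        · exact h c h2
      · refine ⟨x, by simp, fun c hc => ?_⟩
        rcases List.mem_cons.1 hc with h2 | h2
        · exact Or.inl h2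
        · right
          rcases h c h2 with h3 | h3
          · rw [h3]; exact h1
          · exact hU.trans d hdC c (hF c (by simp [h2])) h3 h1
      · refine ⟨d, by simp [hd], fun c hc => ?_⟩
        rcases List.mem_cons.1 hc with h2 | h2
        · right; rw [h2]; exact h1
        · exact h c h2

theorem fs_two_pow (n : ℕ) : Fs (2 ^ n) = {n} := by
  ext i
  simp [Fs, Nat.testBit_two_pow, eq_comm]

theorem mg0 (hU : Univ M U C) : Pool.Agent.Lib.Z2.Un.MG0 (SU U C) Gam := by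
  intro F hF P hP hinf
  by_cases hne : F = []
  · obtain ⟨e, he, -⟩ := hinf 0
    exact ⟨e, he, fun c hc => by rw [hne] at hc; exact absurd hc (by simp)⟩
  obtain ⟨d, hd, hmin⟩ := exists_min hU F hF hne
  have hB : PrimrecPred (fun e : ℕ => ∃ n < e, 2 ^ n = e ∧ P n) := by
    have hR : PrimrecRel (fun (n e : ℕ) => 2 ^ n = e ∧ P n) := by
      have h2 : Primrec₂ (fun a b : ℕ => a ^ b) := Primrec₂.unpaired'.1 Nat.Primrec.pow
      have h3 : PrimrecRel (fun (n e : ℕ) => 2 ^ n = e) :=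
        Primrec.eq.comp (h2.comp (Primrec.const 2) Primrec.fst) Primrec.snd
      have h4 : PrimrecRel (fun (n e : ℕ) => P n) := hP.comp Primrec.fst
      exact PrimrecPred.and h3 h4
    exact (hR.exists_lt).comp Primrec.id Primrec.id
  obtain ⟨e, ⟨n, -, rfl, hn⟩, he⟩ := hU.mg1 d (hF d hd) {c | c ∈ F} (List.finite_toSet F) (fun c hc => hF c hc)
    (fun c hc => hmin c hc) _ (hU.ssPrim d (hF d hd) _ hB) (by
    intro L
    obtain ⟨n, hn, hL⟩ := hinf L
    refine ⟨2 ^ n, ⟨n, Nat.lt_two_pow_self, rfl, hn⟩, ?_⟩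
    intro i hi
    rw [fs_two_pow] at hi
    rw [Set.mem_singleton_iff] at hi
    omega)
  refine ⟨n, hn, fun c hc => he c hc n ?_⟩
  rw [fs_two_pow]; rfl

theorem lv_of (hU : Univ M U C) {d : Set ℕ} (hd : Lim C d) :
    Pool.Agent.Lib.Z2.Un.Lv (SU U C) (SU (Ud d) (Cd C d)) Gam d := by
  have := hU.good
  have := hU.limGood d hd
  have hlow : ∀ c, c ∈ C → c ∉ Cd C d → c = d ∨ d ∈ Ss c := by
    intro c hc hn
    rcases hU.lin c hc d hd.1 with h | h | h
    · exact Or.inl h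
    · exact absurd ⟨hc, h⟩ hn
    · exact Or.inr h
  refine ⟨rfl, rfl, hd.1, fun h => hU.irr d hd.1 h.2, fun X hX => hU.ssU d hd.1 (hU.limSub d hd hX),
    ⟨sec d 1, Pool.Agent.Lib.Z2.Good.sec_mem (SU U C) (Pool.Agent.Lib.Z2.Good.cu d hd.1) 1, fun X => Iff.rfl⟩, ?_, ?_, ?_⟩
  · intro X
    constructor
    · intro h
      exact ⟨h.1, (hU.limC d hd X h.1).2 h.2⟩
    · intro h
      exact ⟨h.1, (hU.limC d hd X h.1).1 h.2⟩
  · intro F hF P hP hinf
    obtain ⟨e, he, h⟩ := hU.mg1 d hd.1 {c | c ∈ F} (List.finite_toSet F) (fun c hc => (hF c hc).1)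
      (fun c hc => hlow c (hF c hc).1 (hF c hc).2) _ (hU.limComp d hd P hP) hinf
    exact ⟨e, he, fun c hc => h c hc⟩
  · intro F hF P hP hinf
    have hP' : Dfn (SU (Ud d) (Cd C d)) (fun x : ℕ => P x.unpair.1 x.unpair.2) :=
      Dfn.comp₂ (R := P) hP (Pool.Agent.Lib.Z2.DF.unp1 DF.id) (Pool.Agent.Lib.Z2.DF.unp2 DF.id)
    obtain ⟨e, w, he, hw, h⟩ := hU.mg2 d hd.1 {c | c ∈ F} (List.finite_toSet F) (fun c hc => (hF c hc).1)
      (fun c hc => hlow c (hF c hc).1 (hF c hc).2) _ (hU.limComp d hd _ hP') (by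
      intro L
      obtain ⟨e, w, h1, h2, h3, h4⟩ := hinf L
      refine ⟨e, w, ?_, h2, h3, h4⟩
      simpa using h1)
    refine ⟨e, w, by simpa using he, hw, fun c hc => h c hc⟩

/-- BLOCK Un (section 7) -/
theorem edges_of (hGam : S_dfnGam) (hU : Univ M U C) (hG : Gen (SU U C) Gam G) : Edges U C G := by
  have := hU.good
  have hg := hGam (SU U C)
  refine ⟨?_, ?_, fun s t h => Pool.Agent.Lib.Z2.Un.gen_inj (mg0 hU) hG h⟩
  · intro s
    refine ⟨fun h => Pool.Agent.Lib.Z2.Un.gen_inf (mg0 hU) hG s (bd_iff.1 h), fun c hc => bd_iff.2 ?_⟩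
    exact Pool.Agent.Lib.Z2.Un.edge (S := SU U C) rfl hG s hc
  · rintro T hT y ⟨σ, hσ, hsσ, rfl⟩ z ⟨τ, hτ, hsτ, rfl⟩ hc
    obtain ⟨d, hd, hX⟩ := hU.limX _ (Pool.Agent.Lib.Z2.Good.uj (S := SU U C) T hT.1 _
      (Pool.Agent.Lib.Z2.Good.uj (S := SU U C) σ hσ τ hτ))
    have := hU.limGood d hd
    have hTU : T ∈ (SU (Ud d) (Cd C d)).U := by
      have := Pool.Agent.Lib.Z2.Good.lf_mem (SU (Ud d) (Cd C d)) hX
      rwa [Pool.Agent.Lib.Z2.lf_jn] at this
    have hst : jn σ τ ∈ (SU (Ud d) (Cd C d)).U := by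
      have := Pool.Agent.Lib.Z2.Good.rt_mem (SU (Ud d) (Cd C d)) hX
      rwa [Pool.Agent.Lib.Z2.rt_jn] at this
    have hσU : σ ∈ (SU (Ud d) (Cd C d)).U := by
      have := Pool.Agent.Lib.Z2.Good.lf_mem (SU (Ud d) (Cd C d)) hst
      rwa [Pool.Agent.Lib.Z2.lf_jn] at this
    have hτU : τ ∈ (SU (Ud d) (Cd C d)).U := by
      have := Pool.Agent.Lib.Z2.Good.rt_mem (SU (Ud d) (Cd C d)) hst
      rwa [Pool.Agent.Lib.Z2.rt_jn] at this
    obtain ⟨s, hs, h1, h2⟩ := Pool.Agent.Lib.Z2.Un.unique (hGam (SU (Ud d) (Cd C d))) hg (lv_of hU hd) hG hTU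
      hT.2.2.1 hσU hτU hsσ hsτ (fun h => hc.1 (bd_iff.2 h)) (bd_iff.1 (hc.2 d hd.1))
    exact ⟨s, hs, h1, h2⟩

end

end B8d
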